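import Mathlib

set_option autoImplicit false
set_option linter.unusedSectionVars false
open Finset

namespace Pool.Agent.Lib6a4ab5

section Cpt

variable {J R : Type*} [Fintype J] [DecidableEq J] [Fintype R] [DecidableEq R]

lemma entropy_le_log_support (p : R → ℝ) (hp : p ∈ stdSimplex ℝ R) :
    ∑ v, Real.negMulLog (p v) ≤ Real.log ((univ.filter (fun v => p v ≠ 0)).card : ℝ) := by
  set S := univ.filter (fun v => p v ≠ 0) with hS
  have hsum : ∑ v ∈ S, p v = 1 := by
    rw [← hp.2, hS]
    exact Finset.sum_filter_ne_zero univ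
  have hne : S.Nonempty := by
    rw [Finset.nonempty_iff_ne_empty]
    intro h
    rw [h] at hsum
    simp at hsum
  have hcard : (0 : ℝ) < S.card := by exact_mod_cast hne.card_pos
  have h1 : ∑ v, Real.negMulLog (p v) = ∑ v ∈ S, Real.negMulLog (p v) := by
    symm
    apply Finset.sum_subset (Finset.subset_univ _)
    intro v _ hv
    have : p v = 0 := by
      by_contra h
      exact hv (by simp [hS, h])
    rw [this]; simp
  rw [h1]
  have h2 : ∀ v ∈ S, Real.negMulLog (p v) ≤ 1 / S.card - p v + p v * Real.log S.card := by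
    intro v hv
    have hpv : 0 < p v := lt_of_le_of_ne (hp.1 v) (Ne.symm (Finset.mem_filter.mp hv).2)
    have h3 := Real.log_le_sub_one_of_pos (show 0 < 1 / (p v * S.card) by positivity)
    rw [Real.log_div one_ne_zero (by positivity), Real.log_one,
      Real.log_mul hpv.ne' hcard.ne'] at h3
    unfold Real.negMulLog
    have h4 := mul_le_mul_of_nonneg_left h3 hpv.le
    have h5 : p v * (1 / (p v * S.card) - 1) = 1 / S.card - p v := by
      field_simp
    rw [h5] at h4
    nlinarith
  refine (Finset.sum_le_sum h2).trans ?_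
  rw [Finset.sum_add_distrib, Finset.sum_sub_distrib, ← Finset.sum_mul, hsum]
  simp only [Finset.sum_const, nsmul_eq_mul]
  have : (S.card : ℝ) * (1 / S.card) = 1 := by field_simp
  rw [this]; linarith

lemma exists_K (Bad : Finset (J → R)) (c ε : ℝ) (hc : 0 ≤ c) (hε : 0 < ε)
    (H : ∀ φ : J → Finset R, (∀ j, (φ j).Nonempty) → (∀ y ∈ Bad, ∃ j, y j ∉ φ j) →
      ∑ j, Real.log ((φ j).card : ℝ) ≤ c) :
    ∃ K : ℝ, 0 ≤ K ∧ ∀ p : J → R → ℝ, (∀ j, p j ∈ stdSimplex ℝ R) →
      ∑ j, ∑ v, Real.negMulLog (p j v) ≤ c + ε + K * ∑ y ∈ Bad, ∏ j, p j (y j) := by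
  set g : (J → R → ℝ) → ℝ := fun p => ∑ j, ∑ v, Real.negMulLog (p j v) with hg
  set b : (J → R → ℝ) → ℝ := fun p => ∑ y ∈ Bad, ∏ j, p j (y j) with hb
  have hgc : Continuous g := by
    apply continuous_finsetSum; intro j _
    apply continuous_finsetSum; intro v _
    exact Real.continuous_negMulLog.comp ((continuous_apply v).comp (continuous_apply j))
  have hbc : Continuous b := by
    apply continuous_finsetSum; intro y _
    apply continuous_finsetProd; intro j _
    exact (continuous_apply (y j)).comp (continuous_apply j)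
  have hSc : IsCompact (Set.pi Set.univ (fun _ : J => stdSimplex ℝ R)) :=
    isCompact_univ_pi (fun _ => isCompact_stdSimplex ℝ R)
  set T : Set (J → R → ℝ) := Set.pi Set.univ (fun _ : J => stdSimplex ℝ R) ∩ {p | c + ε ≤ g p}
    with hT
  have hTc : IsCompact T := hSc.inter_right (isClosed_le continuous_const hgc)
  have hbnonneg : ∀ p : J → R → ℝ, (∀ j, p j ∈ stdSimplex ℝ R) → 0 ≤ b p := by
    intro p hp
    apply Finset.sum_nonneg; intro y _
    apply Finset.prod_nonneg; intro j _
    exact (hp j).1 _
  rcases T.eq_empty_or_nonempty with hTe | hTn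
  · refine ⟨0, le_refl _, ?_⟩
    intro p hp
    have : p ∉ T := by rw [hTe]; exact Set.notMem_empty _
    by_contra hcon
    push Not at hcon
    apply this
    refine ⟨fun j _ => hp j, ?_⟩
    show c + ε ≤ g p
    have : g p = ∑ j, ∑ v, Real.negMulLog (p j v) := rfl
    rw [this]; linarith
  · obtain ⟨p0, hp0, hp0min⟩ := hTc.exists_isMinOn hTn hbc.continuousOn
    obtain ⟨p1, hp1, hp1max⟩ := hTc.exists_isMaxOn hTn hgc.continuousOn
    have hp0s : ∀ j, p0 j ∈ stdSimplex ℝ R := fun j => hp0.1 j (Set.mem_univ j)
    have hb0 : 0 < b p0 := by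
      rcases (hbnonneg p0 hp0s).lt_or_eq with h | h
      · exact h
      · exfalso
        have hall : ∀ y ∈ Bad, ∏ j, p0 j (y j) = 0 := by
          intro y hy
          have hnn : ∀ y ∈ Bad, 0 ≤ ∏ j, p0 j (y j) := by
            intro y _
            apply Finset.prod_nonneg; intro j _
            exact (hp0s j).1 _
          exact (Finset.sum_eq_zero_iff_of_nonneg hnn).mp h.symm y hy
        have hlist := H (fun j => univ.filter (fun v => p0 j v ≠ 0)) ?_ ?_
        · have hle : g p0 ≤ ∑ j, Real.log ((univ.filter (fun v => p0 j v ≠ 0)).card : ℝ) := by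
            apply Finset.sum_le_sum
            intro j _
            exact entropy_le_log_support (p0 j) (hp0s j)
          have h2 : c + ε ≤ g p0 := hp0.2
          linarith
        · intro j
          rw [Finset.nonempty_iff_ne_empty]
          intro he
          have hsum := (hp0s j).2
          have : ∑ v, p0 j v = 0 := by
            apply Finset.sum_eq_zero
            intro v _
            by_contra hv
            have : v ∈ univ.filter (fun v => p0 j v ≠ 0) := by simp [hv]
            rw [he] at this
            exact absurd this (Finset.notMem_empty _)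
          rw [this] at hsum
          exact zero_ne_one hsum
        · intro y hy
          obtain ⟨j, _, hj⟩ := Finset.prod_eq_zero_iff.mp (hall y hy)
          exact ⟨j, by simp [hj]⟩
    have hg1 : c + ε ≤ g p1 := hp1.2
    have hg1' : 0 ≤ g p1 := by linarith
    refine ⟨g p1 / b p0, by positivity, ?_⟩
    intro p hp
    have hbp := hbnonneg p hp
    show g p ≤ c + ε + g p1 / b p0 * b p
    by_cases hpT : c + ε ≤ g p
    · have hpT' : p ∈ T := ⟨fun j _ => hp j, hpT⟩
      have h1 : g p ≤ g p1 := hp1max hpT'
      have h2 : b p0 ≤ b p := hp0min hpT'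
      have h3 : g p1 ≤ g p1 / b p0 * b p := by
        rw [div_mul_eq_mul_div, le_div_iff₀ hb0]
        exact mul_le_mul_of_nonneg_left h2 hg1'
      linarith
    · push Not at hpT
      have : 0 ≤ g p1 / b p0 * b p := by positivity
      linarith

end Cpt

end Pool.Agent.Lib6a4ab5
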