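import Mathlib

set_option autoImplicit false
set_option linter.unusedSectionVars false
open Finset

namespace Pool.Agent.Lib6a4ab5

section Entropy

variable {E R : Type*} [DecidableEq E] [DecidableEq R]

/-- number of members of `F` agreeing with `χ` on `A`. -/
def nn (F : Finset (E → R)) (A : Finset E) (χ : E → R) : ℕ :=
  (F.filter (fun χ' => ∀ e ∈ A, χ' e = χ e)).card

/-- sum of the logarithms of the class sizes. -/
noncomputable def LL (F : Finset (E → R)) (A : Finset E) : ℝ := ∑ χ ∈ F, Real.log (nn F A χ)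

lemma nn_pos {F : Finset (E → R)} {A : Finset E} {χ : E → R} (h : χ ∈ F) : 0 < nn F A χ := by
  unfold nn
  apply Finset.card_pos.mpr
  exact ⟨χ, by simp [h]⟩

lemma nn_congr {F : Finset (E → R)} {A : Finset E} {χ χ' : E → R} (h : ∀ e ∈ A, χ e = χ' e) :
    nn F A χ = nn F A χ' := by
  unfold nn
  congr 1
  apply Finset.filter_congr
  intro x _
  constructor
  · intro hx e he; rw [hx e he, h e he]
  · intro hx e he; rw [hx e he, h e he]

lemma nn_anti {F : Finset (E → R)} {A B : Finset E} (hAB : A ⊆ B) (χ : E → R) :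
    nn F B χ ≤ nn F A χ := by
  unfold nn
  apply Finset.card_le_card
  intro x hx
  simp only [Finset.mem_filter] at hx ⊢
  exact ⟨hx.1, fun e he => hx.2 e (hAB he)⟩

lemma LL_anti {F : Finset (E → R)} {A B : Finset E} (hAB : A ⊆ B) : LL F B ≤ LL F A := by
  unfold LL
  apply Finset.sum_le_sum
  intro χ hχ
  apply Real.log_le_log
  · exact_mod_cast nn_pos hχ
  · exact_mod_cast nn_anti hAB χ

lemma LL_empty (F : Finset (E → R)) : LL F ∅ = F.card * Real.log F.card := by
  unfold LL nn
  simp

lemma LL_univ [Fintype E] (F : Finset (E → R)) : LL F univ = 0 := by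
  unfold LL
  apply Finset.sum_eq_zero
  intro χ hχ
  have : nn F univ χ = 1 := by
    unfold nn
    rw [Finset.card_eq_one]
    refine ⟨χ, ?_⟩
    ext x
    simp only [Finset.mem_filter, Finset.mem_univ, true_implies, Finset.mem_singleton]
    constructor
    · intro hx; funext e; exact hx.2 e
    · rintro rfl; exact ⟨hχ, fun _ => rfl⟩
  rw [this]; simp

/-- sum over a class of the inverse class sizes. -/
lemma class_sum (F : Finset (E → R)) (A : Finset E) {χ0 : E → R} (h0 : χ0 ∈ F) :
    ∑ χ ∈ F, (if ∀ e ∈ A, χ e = χ0 e then (1 : ℝ) / nn F A χ else 0) = 1 := by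
  rw [← Finset.sum_filter]
  have : ∀ χ ∈ F.filter (fun χ => ∀ e ∈ A, χ e = χ0 e), (1 : ℝ) / nn F A χ = 1 / nn F A χ0 := by
    intro χ hχ
    rw [nn_congr (Finset.mem_filter.mp hχ).2]
  rw [Finset.sum_congr rfl this]
  rw [Finset.sum_const, nsmul_eq_mul]
  have h1 : (0 : ℝ) < nn F A χ0 := by exact_mod_cast nn_pos h0
  have h2 : ((F.filter (fun χ => ∀ e ∈ A, χ e = χ0 e)).card : ℝ) = nn F A χ0 := rfl
  rw [h2]
  field_simp

lemma class_sum_two (F : Finset (E → R)) (B C : Finset E) (χ1 χ2 : E → R) :
    ∑ χ ∈ F, (if (∀ e ∈ B, χ e = χ1 e) ∧ (∀ e ∈ C, χ e = χ2 e)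
      then (1 : ℝ) / nn F (B ∪ C) χ else 0) ≤ 1 := by
  by_cases hex : ∃ χ0 ∈ F, (∀ e ∈ B, χ0 e = χ1 e) ∧ (∀ e ∈ C, χ0 e = χ2 e)
  · obtain ⟨χ0, h0, hB, hC⟩ := hex
    refine (le_of_eq ?_).trans (le_of_eq (class_sum F (B ∪ C) h0))
    apply Finset.sum_congr rfl
    intro χ _
    have : ((∀ e ∈ B, χ e = χ1 e) ∧ (∀ e ∈ C, χ e = χ2 e)) ↔ (∀ e ∈ B ∪ C, χ e = χ0 e) := by
      constructor
      · rintro ⟨h1, h2⟩ e he
        rcases Finset.mem_union.mp he with h | h
        · rw [h1 e h, hB e h]
        · rw [h2 e h, hC e h]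
      · intro h
        refine ⟨fun e he => ?_, fun e he => ?_⟩
        · rw [h e (Finset.mem_union_left _ he), hB e he]
        · rw [h e (Finset.mem_union_right _ he), hC e he]
    simp only [this]
  · have : ∀ χ ∈ F, (if (∀ e ∈ B, χ e = χ1 e) ∧ (∀ e ∈ C, χ e = χ2 e)
      then (1 : ℝ) / nn F (B ∪ C) χ else 0) = 0 := by
      intro χ hχ
      rw [if_neg]
      intro h
      exact hex ⟨χ, hχ, h.1, h.2⟩
    rw [Finset.sum_eq_zero this]
    norm_num

lemma nn_eq_sum (F : Finset (E → R)) (A : Finset E) (χ : E → R) :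
    (nn F A χ : ℝ) = ∑ χ' ∈ F, (if ∀ e ∈ A, χ' e = χ e then (1 : ℝ) else 0) := by
  unfold nn
  rw [Finset.sum_boole]

/-- key double counting inequality. -/
lemma sum_ratio_le (F : Finset (E → R)) {A B C : Finset E} (hB : A ⊆ B) (hC : A ⊆ C) :
    ∑ χ ∈ F, ((nn F B χ : ℝ) * nn F C χ) / (nn F A χ * nn F (B ∪ C) χ) ≤ F.card := by
  have key : ∀ χ ∈ F, ((nn F B χ : ℝ) * nn F C χ) / (nn F A χ * nn F (B ∪ C) χ)
      = ∑ χ1 ∈ F, ∑ χ2 ∈ F, (if (∀ e ∈ B, χ1 e = χ e) ∧ (∀ e ∈ C, χ2 e = χ e)
          then (1 : ℝ) / (nn F A χ * nn F (B ∪ C) χ) else 0) := by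
    intro χ _
    rw [nn_eq_sum F B, nn_eq_sum F C, Finset.sum_mul_sum, Finset.sum_div]
    apply Finset.sum_congr rfl
    intro χ1 _
    rw [Finset.sum_div]
    apply Finset.sum_congr rfl
    intro χ2 _
    by_cases h1 : ∀ e ∈ B, χ1 e = χ e
    · by_cases h2 : ∀ e ∈ C, χ2 e = χ e
      · rw [if_pos h1, if_pos h2, if_pos ⟨h1, h2⟩]; ring
      · rw [if_neg h2, if_neg (fun h : (∀ e ∈ B, χ1 e = χ e) ∧ (∀ e ∈ C, χ2 e = χ e) => h2 h.2)]
        ring
    · rw [if_neg h1, if_neg (fun h : (∀ e ∈ B, χ1 e = χ e) ∧ (∀ e ∈ C, χ2 e = χ e) => h1 h.1)]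
      ring
  rw [Finset.sum_congr rfl key, Finset.sum_comm]
  have h3 : ∀ χ1 ∈ F, ∑ χ ∈ F, ∑ χ2 ∈ F, (if (∀ e ∈ B, χ1 e = χ e) ∧ (∀ e ∈ C, χ2 e = χ e)
          then (1 : ℝ) / (nn F A χ * nn F (B ∪ C) χ) else 0) ≤ 1 := by
    intro χ1 hχ1
    rw [Finset.sum_comm]
    have h4 : ∀ χ2 ∈ F, ∑ χ ∈ F, (if (∀ e ∈ B, χ1 e = χ e) ∧ (∀ e ∈ C, χ2 e = χ e)
          then (1 : ℝ) / (nn F A χ * nn F (B ∪ C) χ) else 0) ≤
          (if ∀ e ∈ A, χ2 e = χ1 e then (1 : ℝ) / nn F A χ2 else 0) := by
      intro χ2 hχ2
      by_cases hA : ∀ e ∈ A, χ2 e = χ1 e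
      · rw [if_pos hA]
        have hpos : (0 : ℝ) < nn F A χ2 := by exact_mod_cast nn_pos hχ2
        have : ∀ χ ∈ F, (if (∀ e ∈ B, χ1 e = χ e) ∧ (∀ e ∈ C, χ2 e = χ e)
          then (1 : ℝ) / (nn F A χ * nn F (B ∪ C) χ) else 0) =
          (1 / nn F A χ2) * (if (∀ e ∈ B, χ e = χ1 e) ∧ (∀ e ∈ C, χ e = χ2 e)
            then (1 : ℝ) / nn F (B ∪ C) χ else 0) := by
          intro χ _
          by_cases h : (∀ e ∈ B, χ1 e = χ e) ∧ (∀ e ∈ C, χ2 e = χ e)
          · rw [if_pos h, if_pos ⟨fun e he => (h.1 e he).symm, fun e he => (h.2 e he).symm⟩]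
            have : nn F A χ = nn F A χ2 := nn_congr (fun e he => (h.2 e (hC he)).symm)
            rw [this]
            rw [div_mul_div_comm]; ring
          · rw [if_neg h, if_neg (fun h' => h ⟨fun e he => (h'.1 e he).symm,
              fun e he => (h'.2 e he).symm⟩)]; ring
        rw [Finset.sum_congr rfl this, ← Finset.mul_sum]
        have := class_sum_two F B C χ1 χ2
        calc (1 / (nn F A χ2 : ℝ)) * _ ≤ (1 / nn F A χ2) * 1 := by
              apply mul_le_mul_of_nonneg_left this; positivity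
          _ = 1 / nn F A χ2 := by ring
      · rw [if_neg hA]
        apply le_of_eq
        apply Finset.sum_eq_zero
        intro χ _
        rw [if_neg]
        rintro ⟨h1, h2⟩
        apply hA
        intro e he
        rw [h2 e (hC he), h1 e (hB he)]
    refine (Finset.sum_le_sum h4).trans ?_
    rw [class_sum F A hχ1]
  calc _ ≤ ∑ χ1 ∈ F, (1 : ℝ) := Finset.sum_le_sum h3
    _ = F.card := by simp

/-- submodularity. -/
lemma LL_submod (F : Finset (E → R)) {A B C : Finset E} (hB : A ⊆ B) (hC : A ⊆ C) :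
    LL F B + LL F C ≤ LL F A + LL F (B ∪ C) := by
  have h := sum_ratio_le F hB hC
  have h2 : ∑ χ ∈ F, (Real.log (nn F B χ) + Real.log (nn F C χ) - Real.log (nn F A χ)
      - Real.log (nn F (B ∪ C) χ)) ≤
      ∑ χ ∈ F, (((nn F B χ : ℝ) * nn F C χ) / (nn F A χ * nn F (B ∪ C) χ) - 1) := by
    apply Finset.sum_le_sum
    intro χ hχ
    have a1 : (0 : ℝ) < nn F A χ := by exact_mod_cast nn_pos hχ
    have a2 : (0 : ℝ) < nn F B χ := by exact_mod_cast nn_pos hχ
    have a3 : (0 : ℝ) < nn F C χ := by exact_mod_cast nn_pos hχ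
    have a4 : (0 : ℝ) < nn F (B ∪ C) χ := by exact_mod_cast nn_pos hχ
    have := Real.log_le_sub_one_of_pos
      (show (0 : ℝ) < ((nn F B χ : ℝ) * nn F C χ) / (nn F A χ * nn F (B ∪ C) χ) by positivity)
    rw [Real.log_div (by positivity) (by positivity), Real.log_mul (by positivity) (by positivity),
      Real.log_mul (by positivity) (by positivity)] at this
    linarith
  rw [Finset.sum_sub_distrib] at h2
  simp only [Finset.sum_sub_distrib, Finset.sum_add_distrib, Finset.sum_const, nsmul_eq_mul,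
    mul_one] at h2
  unfold LL
  linarith

/-- conditional entropy of one coordinate given more is smaller. -/
lemma LL_step_anti (F : Finset (E → R)) {A B : Finset E} (hAB : A ⊆ B) (e : E) :
    LL F B - LL F (insert e B) ≤ LL F A - LL F (insert e A) := by
  have h := LL_submod F (A := A) (B := B) (C := insert e A) hAB (Finset.subset_insert _ _)
  have : B ∪ insert e A = insert e B := by
    ext x
    simp only [Finset.mem_union, Finset.mem_insert]
    constructor
    · rintro (h | h | h)
      · exact Or.inr h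
      · exact Or.inl h
      · exact Or.inr (hAB h)
    · rintro (h | h)
      · exact Or.inr (Or.inl h)
      · exact Or.inl h
  rw [this] at h
  linarith

/-- subadditivity: revealing a set of coordinates. -/
lemma LL_subadd (F : Finset (E → R)) (A S : Finset E) :
    LL F A - LL F (A ∪ S) ≤ ∑ e ∈ S, (LL F A - LL F (insert e A)) := by
  induction S using Finset.induction_on with
  | empty => simp
  | insert e S he ih =>
    rw [Finset.sum_insert he]
    have h1 := LL_step_anti F (A := A) (B := A ∪ S) Finset.subset_union_left e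
    have h2 : A ∪ insert e S = insert e (A ∪ S) := by
      ext x; simp only [Finset.mem_union, Finset.mem_insert]; tauto
    rw [h2]
    linarith

/-- Han type inequality: `S` a set of new coordinates, `B` the full set. -/
lemma LL_han (F : Finset (E → R)) (B : Finset E) (S : Finset E) (hS : S ⊆ B) :
    ∑ e ∈ S, (LL F (B.erase e) - LL F B) ≤ LL F (B \ S) - LL F B := by
  induction S using Finset.induction_on with
  | empty => simp
  | insert e S he ih =>
    rw [Finset.sum_insert he]
    have hS' : S ⊆ B := fun x hx => hS (Finset.mem_insert_of_mem hx)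
    have heB : e ∈ B := hS (Finset.mem_insert_self _ _)
    have ih' := ih hS'
    -- step: remove e from `B \ S`
    have hsub : B \ insert e S ⊆ B.erase e := by
      intro x hx
      simp only [Finset.mem_sdiff, Finset.mem_insert, not_or, Finset.mem_erase] at hx ⊢
      exact ⟨hx.2.1, hx.1⟩
    have h1 := LL_step_anti F hsub e
    rw [Finset.insert_erase heB] at h1
    have h2 : insert e (B \ insert e S) = B \ S := by
      ext x
      simp only [Finset.mem_insert, Finset.mem_sdiff, not_or]
      constructor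
      · rintro (h | h)
        · subst h; exact ⟨heB, he⟩
        · exact ⟨h.1, h.2.2⟩
      · intro h
        by_cases hx : x = e
        · left; exact hx
        · right; exact ⟨h.1, hx, h.2⟩
    rw [h2] at h1
    linarith

/-- one coordinate has entropy at most `log |R|`. -/
lemma LL_step_le [Fintype R] [Nonempty R] (F : Finset (E → R)) (A : Finset E) (e : E) :
    LL F A - LL F (insert e A) ≤ F.card * Real.log (Fintype.card R) := by
  have hR : (0 : ℝ) < Fintype.card R := by exact_mod_cast Fintype.card_pos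
  have h1 : ∑ χ ∈ F, (Real.log (nn F A χ) - Real.log (nn F (insert e A) χ)) ≤
      ∑ χ ∈ F, (Real.log (Fintype.card R) +
        ((nn F A χ : ℝ) / (nn F (insert e A) χ) / Fintype.card R - 1)) := by
    apply Finset.sum_le_sum
    intro χ hχ
    have a1 : (0 : ℝ) < nn F A χ := by exact_mod_cast nn_pos hχ
    have a2 : (0 : ℝ) < nn F (insert e A) χ := by exact_mod_cast nn_pos hχ
    have := Real.log_le_sub_one_of_pos
      (show (0 : ℝ) < (nn F A χ : ℝ) / (nn F (insert e A) χ) / Fintype.card R by positivity)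
    rw [Real.log_div (by positivity) (by positivity), Real.log_div (by positivity) (by positivity)]
      at this
    linarith
  have h2 : ∑ χ ∈ F, ((nn F A χ : ℝ) / (nn F (insert e A) χ)) ≤ F.card * Fintype.card R := by
    have key : ∀ χ ∈ F, ((nn F A χ : ℝ) / (nn F (insert e A) χ)) =
        ∑ χ1 ∈ F, (if ∀ e ∈ A, χ1 e = χ e then (1 : ℝ) / nn F (insert e A) χ else 0) := by
      intro χ _
      rw [nn_eq_sum F A, Finset.sum_div]
      apply Finset.sum_congr rfl
      intro χ1 _
      split_ifs <;> ring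
    rw [Finset.sum_congr rfl key, Finset.sum_comm]
    have h3 : ∀ χ1 ∈ F, ∑ χ ∈ F,
        (if ∀ e ∈ A, χ1 e = χ e then (1 : ℝ) / nn F (insert e A) χ else 0) ≤ Fintype.card R := by
      intro χ1 _
      have h4 : ∀ χ ∈ F, (if ∀ e ∈ A, χ1 e = χ e then (1 : ℝ) / nn F (insert e A) χ else 0) =
          ∑ v : R, (if (∀ a ∈ A, χ a = χ1 a) ∧ (∀ a ∈ ({e} : Finset E), χ a = (fun _ => v) a)
            then (1 : ℝ) / nn F (A ∪ {e}) χ else 0) := by
        intro χ _
        have hAe : A ∪ {e} = insert e A := by ext x; simp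
        rw [hAe]
        by_cases h : ∀ a ∈ A, χ1 a = χ a
        · rw [if_pos h]
          have h' : ∀ a ∈ A, χ a = χ1 a := fun a ha => (h a ha).symm
          rw [Finset.sum_eq_single (χ e)]
          · rw [if_pos]
            exact ⟨h', by simp⟩
          · intro v _ hv
            rw [if_neg]
            rintro ⟨_, h2⟩
            exact hv (h2 e (by simp)).symm
          · intro h; exact absurd (Finset.mem_univ _) h
        · rw [if_neg h]
          symm
          apply Finset.sum_eq_zero
          intro v _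
          rw [if_neg]
          rintro ⟨h1, _⟩
          exact h (fun a ha => (h1 a ha).symm)
      rw [Finset.sum_congr rfl h4, Finset.sum_comm]
      calc _ ≤ ∑ v : R, (1 : ℝ) := by
            apply Finset.sum_le_sum
            intro v _
            exact class_sum_two F A {e} χ1 (fun _ => v)
        _ = Fintype.card R := by simp
    calc _ ≤ ∑ χ1 ∈ F, (Fintype.card R : ℝ) := Finset.sum_le_sum h3
      _ = F.card * Fintype.card R := by simp
  have h5 : LL F A - LL F (insert e A) =
      ∑ χ ∈ F, (Real.log (nn F A χ) - Real.log (nn F (insert e A) χ)) := by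
    unfold LL; rw [Finset.sum_sub_distrib]
  rw [h5]
  refine h1.trans ?_
  rw [Finset.sum_add_distrib, Finset.sum_sub_distrib]
  simp only [Finset.sum_const, nsmul_eq_mul, mul_one]
  rw [← Finset.sum_div]
  have : (∑ χ ∈ F, ((nn F A χ : ℝ) / (nn F (insert e A) χ))) / Fintype.card R ≤ F.card := by
    rw [div_le_iff₀ hR]; exact h2
  linarith

/-- invariance under a permutation of coordinates preserving `F`. -/
lemma LL_invariant (F : Finset (E → R)) (g : Equiv.Perm E)
    (hg : ∀ χ, χ ∈ F ↔ (fun e => χ (g e)) ∈ F) (A : Finset E) :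
    LL F (A.map g.toEmbedding) = LL F A := by
  unfold LL
  -- bijection `χ ↦ χ ∘ g` of `F`
  have hn : ∀ χ, nn F (A.map g.toEmbedding) χ = nn F A (fun e => χ (g e)) := by
    intro χ
    unfold nn
    apply Finset.card_bij (fun χ' _ => fun e => χ' (g e))
    · intro χ' h
      simp only [Finset.mem_filter, Finset.mem_map, Equiv.toEmbedding_apply,
        forall_exists_index, and_imp, forall_apply_eq_imp_iff₂] at h ⊢
      exact ⟨(hg χ').mp h.1, h.2⟩
    · intro a _ b _ hab
      funext e
      have := congrFun hab (g.symm e)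
      simpa using this
    · intro b hb
      refine ⟨fun e => b (g.symm e), ?_, ?_⟩
      · simp only [Finset.mem_filter, Finset.mem_map, Equiv.toEmbedding_apply,
          forall_exists_index, and_imp, forall_apply_eq_imp_iff₂] at hb ⊢
        have hgg : ∀ a, g.symm (g a) = a := fun a => Equiv.symm_apply_apply g a
        refine ⟨?_, ?_⟩
        · rw [hg]
          have : (fun e => b (g.symm (g e))) = b := by
            funext e; exact congrArg b (Equiv.symm_apply_apply g e)
          show (fun e => b (g.symm (g e))) ∈ F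
          rw [this]; exact hb.1
        · intro a ha
          show b (g.symm (g a)) = _
          rw [hgg]; exact hb.2 a ha
      · funext e; exact congrArg b (Equiv.symm_apply_apply g e)
  simp only [hn]
  apply Finset.sum_bij (fun χ _ => fun e => χ (g e))
  · intro χ h; exact (hg χ).mp h
  · intro a _ b _ hab
    funext e
    have := congrFun hab (g.symm e)
    simpa using this
  · intro b hb
    have hgg : ∀ a, g.symm (g a) = a := fun a => Equiv.symm_apply_apply g a
    refine ⟨fun e => b (g.symm e), ?_, ?_⟩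
    · rw [hg]
      have : (fun e => b (g.symm (g e))) = b := by
        funext e; exact congrArg b (Equiv.symm_apply_apply g e)
      show (fun e => b (g.symm (g e))) ∈ F
      rw [this]; exact hb
    · funext e; exact congrArg b (Equiv.symm_apply_apply g e)
  · intro χ _; rfl

end Entropy

end Pool.Agent.Lib6a4ab5
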