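import Mathlib
import Pool.Agent.Lib6a4ab5.Entropy

set_option autoImplicit false
set_option linter.unusedSectionVars false
open Finset

namespace Pool.Agent.Lib6a4ab5

section ClassAvg

variable {E R : Type*} [DecidableEq E] [DecidableEq R]

lemma class_avg (F : Finset (E → R)) (A : Finset E) (G : (E → R) → ℝ)
    (h : ∀ χ0 ∈ F, ∑ χ ∈ F.filter (fun χ => ∀ e ∈ A, χ e = χ0 e), G χ ≤ 0) :
    ∑ χ ∈ F, G χ ≤ 0 := by
  have h1 : ∑ χ ∈ F, G χ = ∑ χ ∈ F, ∑ χ0 ∈ F,
      (if ∀ e ∈ A, χ0 e = χ e then (1 : ℝ) / nn F A χ0 else 0) * G χ := by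
    apply Finset.sum_congr rfl
    intro χ hχ
    rw [← Finset.sum_mul, class_sum F A hχ, one_mul]
  rw [h1, Finset.sum_comm]
  apply Finset.sum_nonpos
  intro χ0 h0
  have h2 : ∑ χ ∈ F, (if ∀ e ∈ A, χ0 e = χ e then (1 : ℝ) / nn F A χ0 else 0) * G χ =
      (1 / nn F A χ0) * ∑ χ ∈ F.filter (fun χ => ∀ e ∈ A, χ e = χ0 e), G χ := by
    rw [Finset.mul_sum, Finset.sum_filter]
    apply Finset.sum_congr rfl
    intro χ _
    by_cases hc : ∀ e ∈ A, χ0 e = χ e
    · rw [if_pos hc, if_pos (fun e he => (hc e he).symm)]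
    · rw [if_neg hc, if_neg (fun h' => hc (fun e he => (h' e he).symm)), zero_mul]
  rw [h2]
  apply mul_nonpos_of_nonneg_of_nonpos
  · positivity
  · exact h χ0 h0

end ClassAvg

section Loc

variable {α J R : Type*} [Fintype J] [DecidableEq J] [Fintype R] [DecidableEq R]

/-- one coordinate frequencies -/
noncomputable def freq (C : Finset α) (Y : α → J → R) (j : J) (v : R) : ℝ :=
  ((C.filter (fun a => Y a j = v)).card : ℝ) / C.card

lemma freq_mem_simplex {C : Finset α} (hC : C.Nonempty) (Y : α → J → R) (j : J) :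
    freq C Y j ∈ stdSimplex ℝ R := by
  have hn : (0 : ℝ) < C.card := by exact_mod_cast hC.card_pos
  constructor
  · intro v; unfold freq; positivity
  · unfold freq
    rw [← Finset.sum_div, div_eq_one_iff_eq hn.ne']
    have := Finset.card_eq_sum_card_fiberwise (f := fun a => Y a j) (s := C) (t := univ)
      (by intro x _; simp)
    rw [this]; push_cast; rfl

lemma sum_log_freq {C : Finset α} (hC : C.Nonempty) (Y : α → J → R) (j : J) :
    ∑ a ∈ C, (Real.log C.card - Real.log ((C.filter (fun a' => Y a' j = Y a j)).card : ℝ)) =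
      C.card * ∑ v, Real.negMulLog (freq C Y j v) := by
  have hn : (0 : ℝ) < C.card := by exact_mod_cast hC.card_pos
  rw [← Finset.sum_fiberwise C (fun a => Y a j), Finset.mul_sum]
  apply Finset.sum_congr rfl
  intro v _
  have : ∀ a ∈ C.filter (fun a => Y a j = v),
      (Real.log C.card - Real.log ((C.filter (fun a' => Y a' j = Y a j)).card : ℝ)) =
      - Real.log (freq C Y j v) := by
    intro a ha
    have hav := (Finset.mem_filter.mp ha).2
    rw [hav]
    have hpos : (0 : ℝ) < (C.filter (fun a => Y a j = v)).card := by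
      exact_mod_cast Finset.card_pos.mpr ⟨a, ha⟩
    unfold freq
    rw [Real.log_div hpos.ne' hn.ne']
    ring
  rw [Finset.sum_congr rfl this, Finset.sum_const, nsmul_eq_mul]
  unfold Real.negMulLog
  have : ((C.filter (fun a => Y a j = v)).card : ℝ) = C.card * freq C Y j v := by
    unfold freq; field_simp
  rw [this]; ring

lemma total_corr_ge {C : Finset α} (hC : C.Nonempty) (Y : α → J → R)
    (Bad : Finset (J → R)) (hBad : ∀ a ∈ C, Y a ∉ Bad) :
    (C.card : ℝ) * ∑ y ∈ Bad, ∏ j, freq C Y j (y j) ≤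
    ∑ a ∈ C, ((∑ j, (Real.log C.card -
        Real.log ((C.filter (fun a' => Y a' j = Y a j)).card : ℝ))) -
        (Real.log C.card - Real.log ((C.filter (fun a' => Y a' = Y a)).card : ℝ))) := by
  classical
  have hn : (0 : ℝ) < C.card := by exact_mod_cast hC.card_pos
  set q : α → ℝ := fun a => ∏ j, freq C Y j (Y a j) with hq
  have hfpos : ∀ a ∈ C, ∀ j, 0 < freq C Y j (Y a j) := by
    intro a ha j
    unfold freq
    have : (0 : ℝ) < (C.filter (fun a' => Y a' j = Y a j)).card := by
      exact_mod_cast Finset.card_pos.mpr ⟨a, by simp [ha]⟩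
    positivity
  have hqpos : ∀ a ∈ C, 0 < q a := fun a ha => Finset.prod_pos (fun j _ => hfpos a ha j)
  have hspos : ∀ a ∈ C, (0 : ℝ) < (C.filter (fun a' => Y a' = Y a)).card := by
    intro a ha; exact_mod_cast Finset.card_pos.mpr ⟨a, by simp [ha]⟩
  -- pointwise inequality
  have h1 : ∀ a ∈ C, 1 - q a * C.card / (C.filter (fun a' => Y a' = Y a)).card ≤
      ((∑ j, (Real.log C.card -
        Real.log ((C.filter (fun a' => Y a' j = Y a j)).card : ℝ))) -
        (Real.log C.card - Real.log ((C.filter (fun a' => Y a' = Y a)).card : ℝ))) := by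
    intro a ha
    have hx : 0 < q a * C.card / (C.filter (fun a' => Y a' = Y a)).card := by
      have := hqpos a ha; have := hspos a ha; positivity
    have h2 := Real.log_le_sub_one_of_pos hx
    have h3 : Real.log (q a) = ∑ j, Real.log (freq C Y j (Y a j)) :=
      Real.log_prod (fun j _ => (hfpos a ha j).ne')
    have h4 : ∀ j, Real.log (freq C Y j (Y a j)) =
        Real.log ((C.filter (fun a' => Y a' j = Y a j)).card : ℝ) - Real.log C.card := by
      intro j
      unfold freq
      have : (0 : ℝ) < (C.filter (fun a' => Y a' j = Y a j)).card := by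
        exact_mod_cast Finset.card_pos.mpr ⟨a, by simp [ha]⟩
      rw [Real.log_div this.ne' hn.ne']
    rw [Real.log_div (mul_pos (hqpos a ha) hn).ne' (hspos a ha).ne',
      Real.log_mul (hqpos a ha).ne' hn.ne', h3, Finset.sum_congr rfl (fun j _ => h4 j)] at h2
    have h5 : ∑ j, (Real.log C.card -
        Real.log ((C.filter (fun a' => Y a' j = Y a j)).card : ℝ)) =
        - ∑ j, (Real.log ((C.filter (fun a' => Y a' j = Y a j)).card : ℝ) - Real.log C.card) := by
      rw [← Finset.sum_neg_distrib]
      apply Finset.sum_congr rfl; intro j _; ring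
    rw [h5]
    linarith
  refine le_trans ?_ (Finset.sum_le_sum h1)
  rw [Finset.sum_sub_distrib]
  simp only [Finset.sum_const, nsmul_eq_mul, mul_one]
  -- sum over the classes
  have h6 : ∑ a ∈ C, q a * C.card / (C.filter (fun a' => Y a' = Y a)).card =
      C.card * ∑ y ∈ C.image Y, ∏ j, freq C Y j (y j) := by
    rw [Finset.mul_sum, ← Finset.sum_fiberwise_of_maps_to
      (fun a ha => Finset.mem_image_of_mem Y ha)]
    apply Finset.sum_congr rfl
    intro y hy
    have : ∀ a ∈ C.filter (fun a => Y a = y), q a * C.card /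
        (C.filter (fun a' => Y a' = Y a)).card =
        (∏ j, freq C Y j (y j)) * C.card / (C.filter (fun a' => Y a' = y)).card := by
      intro a ha
      have hay := (Finset.mem_filter.mp ha).2
      simp only [hq, hay]
    rw [Finset.sum_congr rfl this, Finset.sum_const, nsmul_eq_mul]
    obtain ⟨a, ha, hay⟩ := Finset.mem_image.mp hy
    have hpos : (0 : ℝ) < (C.filter (fun a' => Y a' = y)).card := by
      exact_mod_cast Finset.card_pos.mpr ⟨a, by simp [ha, hay]⟩
    field_simp
  rw [h6]
  -- total mass one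
  have h7 : ∑ y : J → R, ∏ j, freq C Y j (y j) = 1 := by
    have h70 := Finset.prod_univ_sum (fun _ : J => (univ : Finset R)) (fun j v => freq C Y j v)
    rw [Fintype.piFinset_univ] at h70
    rw [← h70]
    apply Finset.prod_eq_one
    intro j _
    exact (freq_mem_simplex hC Y j).2
  have hdisj : Disjoint Bad (C.image Y) := by
    rw [Finset.disjoint_left]
    intro y hy hy'
    obtain ⟨a, ha, rfl⟩ := Finset.mem_image.mp hy'
    exact hBad a ha hy
  have h8 : ∑ y ∈ Bad, ∏ j, freq C Y j (y j) + ∑ y ∈ C.image Y, ∏ j, freq C Y j (y j) ≤ 1 := by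
    rw [← Finset.sum_union hdisj, ← h7]
    apply Finset.sum_le_sum_of_subset_of_nonneg (Finset.subset_univ _)
    intro y _ _
    apply Finset.prod_nonneg
    intro j _
    exact (freq_mem_simplex hC Y j).1 _
  nlinarith [h8, hn]

end Loc

end Pool.Agent.Lib6a4ab5
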