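import Mathlib
import Pool.Agent.Lib6a4ab5.Entropy
import Pool.Agent.Lib6a4ab5.Local
import Pool.Agent.Lib6a4ab5.Compact

set_option autoImplicit false
set_option linter.unusedSectionVars false
open Finset

namespace Pool.Agent.Lib6a4ab5

/-- pairs of parts -/
abbrev Prs (m : ℕ) := {p : Fin m × Fin m // p.1 < p.2}

/-- edges of the complete `m`-partite graph with parts of size `N`. -/
abbrev EE (m N : ℕ) := Prs m × Fin N × Fin N

/-- colourings all of whose transversals avoid `Bad`. -/
def goodSet (m N r : ℕ) (Bad : Finset (Prs m → Fin r)) : Finset (EE m N → Fin r) :=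
  univ.filter (fun χ => ∀ x : Fin m → Fin N, (fun j : Prs m => χ (j, x j.1.1, x j.1.2)) ∉ Bad)

section

variable {m N r : ℕ}

/-- edges inside a vertex set. -/
def edg (Q : Fin m → Finset (Fin N)) : Finset (EE m N) :=
  univ.filter (fun e => e.2.1 ∈ Q e.1.1.1 ∧ e.2.2 ∈ Q e.1.1.2)

lemma mem_edg {Q : Fin m → Finset (Fin N)} {e : EE m N} :
    e ∈ edg Q ↔ e.2.1 ∈ Q e.1.1.1 ∧ e.2.2 ∈ Q e.1.1.2 := by
  simp [edg]

/-- action of permutations of the parts on the edges. -/
def permE (g : Fin m → Equiv.Perm (Fin N)) : Equiv.Perm (EE m N) where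
  toFun e := (e.1, g e.1.1.1 e.2.1, g e.1.1.2 e.2.2)
  invFun e := (e.1, (g e.1.1.1).symm e.2.1, (g e.1.1.2).symm e.2.2)
  left_inv e := by simp
  right_inv e := by simp

lemma permE_apply (g : Fin m → Equiv.Perm (Fin N)) (e : EE m N) :
    permE g e = (e.1, g e.1.1.1 e.2.1, g e.1.1.2 e.2.2) := rfl

lemma goodSet_inv (Bad : Finset (Prs m → Fin r)) (g : Fin m → Equiv.Perm (Fin N))
    (χ : EE m N → Fin r) :
    χ ∈ goodSet m N r Bad ↔ (fun e => χ (permE g e)) ∈ goodSet m N r Bad := by
  simp only [goodSet, Finset.mem_filter, Finset.mem_univ, true_and]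
  constructor
  · intro h x
    exact h (fun i => g i (x i))
  · intro h x
    have := h (fun i => (g i).symm (x i))
    simp only [permE_apply] at this
    convert this using 3
    simp

lemma map_edg (g : Fin m → Equiv.Perm (Fin N)) (Q : Fin m → Finset (Fin N)) :
    (edg Q).map (permE g).toEmbedding = edg (fun i => (Q i).map (g i).toEmbedding) := by
  ext e
  simp only [Finset.mem_map, mem_edg, Equiv.coe_toEmbedding]
  constructor
  · rintro ⟨e', ⟨h1, h2⟩, rfl⟩
    exact ⟨⟨_, h1, rfl⟩, ⟨_, h2, rfl⟩⟩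
  · rintro ⟨⟨x, hx, hx'⟩, ⟨y, hy, hy'⟩⟩
    refine ⟨(e.1, x, y), ⟨hx, hy⟩, ?_⟩
    rw [permE_apply]
    simp only [hx', hy']

/-- the first `t` levels. -/
def low (N t : ℕ) : Finset (Fin N) := univ.filter (fun x => x.val < t)

lemma mem_low {t : ℕ} {x : Fin N} : x ∈ low N t ↔ x.val < t := by simp [low]

/-- vertex sets: `t` levels and two additional vertices. -/
def QQ (t : ℕ) (j : Prs m) (x0 y0 : Fin N) : Fin m → Finset (Fin N) := fun i =>
  if i = j.1.1 then insert x0 (low N t) else if i = j.1.2 then insert y0 (low N t) else low N t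

lemma QQ_fst (t : ℕ) (j : Prs m) (x0 y0 : Fin N) : QQ t j x0 y0 j.1.1 = insert x0 (low N t) := by
  simp [QQ]

lemma QQ_snd (t : ℕ) (j : Prs m) (x0 y0 : Fin N) : QQ t j x0 y0 j.1.2 = insert y0 (low N t) := by
  have : j.1.2 ≠ j.1.1 := (ne_of_lt j.2).symm
  simp [QQ, this]

lemma mem_QQ_self (t : ℕ) (j : Prs m) (x0 y0 : Fin N) : (j, x0, y0) ∈ edg (QQ t j x0 y0) := by
  rw [mem_edg]
  simp only [QQ_fst, QQ_snd]
  simp

lemma low_sub_QQ (t : ℕ) (j : Prs m) (x0 y0 : Fin N) (i : Fin m) : low N t ⊆ QQ t j x0 y0 i := by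
  intro x hx
  unfold QQ
  split_ifs
  · exact Finset.mem_insert_of_mem hx
  · exact Finset.mem_insert_of_mem hx
  · exact hx

/-- edge of `edg (QQ ..)` with both levels at least `t` is the special one. -/
lemma edg_QQ_high {t : ℕ} {j : Prs m} {x0 y0 : Fin N} {e : EE m N}
    (he : e ∈ edg (QQ t j x0 y0)) (h1 : ¬ e.2.1.val < t) (h2 : ¬ e.2.2.val < t) :
    e = (j, x0, y0) := by
  rw [mem_edg] at he
  obtain ⟨ha, hb⟩ := he
  have hj' := e.1.2
  have hj := j.2
  unfold QQ at ha hb
  by_cases c1 : e.1.1.1 = j.1.1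
  · rw [if_pos c1] at ha
    have hx : e.2.1 = x0 := by
      rcases Finset.mem_insert.mp ha with h | h
      · exact h
      · exact absurd (mem_low.mp h) h1
    have c2 : e.1.1.2 ≠ j.1.1 := by
      intro h; rw [h, ← c1] at hj'; exact lt_irrefl _ hj'
    rw [if_neg c2] at hb
    by_cases c3 : e.1.1.2 = j.1.2
    · rw [if_pos c3] at hb
      have hy : e.2.2 = y0 := by
        rcases Finset.mem_insert.mp hb with h | h
        · exact h
        · exact absurd (mem_low.mp h) h2
      have hjj : e.1 = j := Subtype.ext (Prod.ext c1 c3)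
      exact Prod.ext hjj (Prod.ext hx hy)
    · rw [if_neg c3] at hb
      exact absurd (mem_low.mp hb) h2
  · rw [if_neg c1] at ha
    by_cases c2 : e.1.1.1 = j.1.2
    · -- then `e.1.1.2 > j.1.2` is neither
      have c3 : e.1.1.2 ≠ j.1.1 := by
        intro h; rw [h, c2] at hj'; exact absurd hj' (not_lt.mpr hj.le)
      have c4 : e.1.1.2 ≠ j.1.2 := by
        intro h; rw [h, c2] at hj'; exact lt_irrefl _ hj'
      rw [if_neg c3, if_neg c4] at hb
      exact absurd (mem_low.mp hb) h2
    · rw [if_neg c2] at ha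
      exact absurd (mem_low.mp ha) h1

variable (Bad : Finset (Prs m → Fin r))

/-- the basic conditional entropy (times `|F|`). -/
noncomputable def hgen (t : ℕ) (j : Prs m) (x0 y0 : Fin N) : ℝ :=
  LL (goodSet m N r Bad) ((edg (QQ t j x0 y0)).erase (j, x0, y0)) -
    LL (goodSet m N r Bad) (edg (QQ t j x0 y0))

lemma hgen_nonneg (t : ℕ) (j : Prs m) (x0 y0 : Fin N) : 0 ≤ hgen Bad t j x0 y0 := by
  unfold hgen
  have := LL_anti (F := goodSet m N r Bad) (Finset.erase_subset (j, x0, y0) (edg (QQ t j x0 y0)))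
  linarith

lemma hgen_le [NeZero r] (t : ℕ) (j : Prs m) (x0 y0 : Fin N) :
    hgen Bad t j x0 y0 ≤ (goodSet m N r Bad).card * Real.log r := by
  unfold hgen
  have := LL_step_le (goodSet m N r Bad) ((edg (QQ t j x0 y0)).erase (j, x0, y0)) (j, x0, y0)
  rw [Finset.insert_erase (mem_QQ_self t j x0 y0), Fintype.card_fin] at this
  exact this

/-- invariance: map of one configuration to another. -/
lemma hgen_transfer (t : ℕ) (j : Prs m) (x0 y0 : Fin N) (g : Fin m → Equiv.Perm (Fin N)) :
    hgen Bad t j x0 y0 =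
      LL (goodSet m N r Bad) ((edg (fun i => (QQ t j x0 y0 i).map (g i).toEmbedding)).erase
        (j, g j.1.1 x0, g j.1.2 y0)) -
      LL (goodSet m N r Bad) (edg (fun i => (QQ t j x0 y0 i).map (g i).toEmbedding)) := by
  unfold hgen
  rw [← LL_invariant (goodSet m N r Bad) (permE g) (goodSet_inv Bad g) (edg (QQ t j x0 y0)),
    ← LL_invariant (goodSet m N r Bad) (permE g) (goodSet_inv Bad g)
      ((edg (QQ t j x0 y0)).erase (j, x0, y0)), Finset.map_erase, map_edg]
  rfl

lemma map_low_swap {t : ℕ} {x y : Fin N} (hx : ¬ x.val < t) (hy : ¬ y.val < t) :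
    (low N t).map (Equiv.swap x y).toEmbedding = low N t := by
  ext z
  simp only [Finset.mem_map, Equiv.coe_toEmbedding]
  constructor
  · rintro ⟨w, hw, rfl⟩
    have h1 : w ≠ x := by rintro rfl; exact hx (mem_low.mp hw)
    have h2 : w ≠ y := by rintro rfl; exact hy (mem_low.mp hw)
    rw [Equiv.swap_apply_of_ne_of_ne h1 h2]; exact hw
  · intro hz
    have h1 : z ≠ x := by rintro rfl; exact hx (mem_low.mp hz)
    have h2 : z ≠ y := by rintro rfl; exact hy (mem_low.mp hz)
    exact ⟨z, hz, Equiv.swap_apply_of_ne_of_ne h1 h2⟩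

lemma hgen_eq {t : ℕ} (j : Prs m) {x0 y0 x1 y1 : Fin N} (hx0 : ¬ x0.val < t) (hy0 : ¬ y0.val < t)
    (hx1 : ¬ x1.val < t) (hy1 : ¬ y1.val < t) :
    hgen Bad t j x0 y0 = hgen Bad t j x1 y1 := by
  set g : Fin m → Equiv.Perm (Fin N) := fun i =>
    if i = j.1.1 then Equiv.swap x0 x1 else if i = j.1.2 then Equiv.swap y0 y1 else Equiv.refl _ with hg
  have hne : j.1.2 ≠ j.1.1 := (ne_of_lt j.2).symm
  have hg1 : g j.1.1 = Equiv.swap x0 x1 := by simp [hg]
  have hg2 : g j.1.2 = Equiv.swap y0 y1 := by simp [hg, hne]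
  have hQ : (fun i => (QQ t j x0 y0 i).map (g i).toEmbedding) = QQ t j x1 y1 := by
    funext i
    unfold QQ
    by_cases c1 : i = j.1.1
    · rw [if_pos c1, if_pos c1, c1, hg1, Finset.map_insert, map_low_swap hx0 hx1]
      simp
    · rw [if_neg c1, if_neg c1]
      by_cases c2 : i = j.1.2
      · rw [if_pos c2, if_pos c2, c2, hg2, Finset.map_insert, map_low_swap hy0 hy1]
        simp
      · rw [if_neg c2, if_neg c2]
        have : g i = Equiv.refl _ := by simp [hg, c1, c2]
        rw [this]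
        ext z; simp
  rw [hgen_transfer Bad t j x0 y0 g, hQ, hg1, hg2]
  unfold hgen
  simp

lemma hgen_shift {t : ℕ} (j : Prs m) {u v : Fin N} (hu : u.val = t) (hv : v.val = t + 1) :
    hgen Bad (t + 1) j v v = LL (goodSet m N r Bad) ((edg (QQ (t + 1) j v v)).erase (j, u, u)) -
      LL (goodSet m N r Bad) (edg (QQ (t + 1) j v v)) := by
  set g : Fin m → Equiv.Perm (Fin N) := fun i =>
    if i = j.1.1 then Equiv.swap u v else if i = j.1.2 then Equiv.swap u v else Equiv.refl _ with hg
  have hne : j.1.2 ≠ j.1.1 := (ne_of_lt j.2).symm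
  have hg1 : g j.1.1 = Equiv.swap u v := by simp [hg]
  have hg2 : g j.1.2 = Equiv.swap u v := by simp [hg, hne]
  have huv : u ≠ v := by intro h; rw [h, hv] at hu; omega
  have hmap : (insert v (low N (t + 1))).map (Equiv.swap u v).toEmbedding =
      insert v (low N (t + 1)) := by
    ext z
    simp only [Finset.mem_map, Equiv.coe_toEmbedding, Finset.mem_insert, mem_low]
    have hsub : ∀ w : Fin N, (w = v ∨ w.val < t + 1) →
        (Equiv.swap u v w = v ∨ (Equiv.swap u v w).val < t + 1) := by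
      intro w hw
      by_cases h1 : w = u
      · left; rw [h1, Equiv.swap_apply_left]
      · by_cases h2 : w = v
        · right; rw [h2, Equiv.swap_apply_right, hu]; omega
        · rw [Equiv.swap_apply_of_ne_of_ne h1 h2]; exact hw
    constructor
    · rintro ⟨w, hw, rfl⟩
      exact hsub w hw
    · intro hz
      refine ⟨Equiv.swap u v z, hsub z hz, ?_⟩
      simp
  have hQ : (fun i => (QQ (t + 1) j v v i).map (g i).toEmbedding) = QQ (t + 1) j v v := by
    funext i
    unfold QQ
    by_cases c1 : i = j.1.1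
    · rw [if_pos c1, c1, hg1, hmap]
    · rw [if_neg c1]
      by_cases c2 : i = j.1.2
      · rw [if_pos c2, c2, hg2, hmap]
      · rw [if_neg c2]
        have : g i = Equiv.refl _ := by simp [hg, c1, c2]
        rw [this]
        ext z; simp
  rw [hgen_transfer Bad (t + 1) j v v g, hQ, hg1, hg2]
  simp

/-- full edge set on the levels `≤ t`. -/
def Ful (m N t : ℕ) : Finset (EE m N) := edg (fun _ => low N (t + 1))

/-- the special transversal. -/
def spec (m : ℕ) {N : ℕ} (u : Fin N) : Finset (EE m N) := univ.image (fun j : Prs m => (j, u, u))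

lemma spec_sub_Ful {t : ℕ} {u : Fin N} (hu : u.val = t) : spec m u ⊆ Ful m N t := by
  intro e he
  obtain ⟨j, _, rfl⟩ := Finset.mem_image.mp he
  rw [Ful, mem_edg]
  simp only [mem_low]
  omega

lemma erase_QQ_sub {t : ℕ} (j : Prs m) {u : Fin N} (hu : u.val = t) :
    (edg (QQ t j u u)).erase (j, u, u) ⊆ Ful m N t \ spec m u := by
  intro e he
  obtain ⟨hne, he⟩ := Finset.mem_erase.mp he
  rw [Finset.mem_sdiff]
  constructor
  · rw [Ful, mem_edg]
    rw [mem_edg] at he
    have hsub : ∀ i, QQ t j u u i ⊆ low N (t + 1) := by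
      intro i x hx
      unfold QQ at hx
      rw [mem_low]
      split_ifs at hx
      · rcases Finset.mem_insert.mp hx with h | h
        · rw [h]; omega
        · have := mem_low.mp h; omega
      · rcases Finset.mem_insert.mp hx with h | h
        · rw [h]; omega
        · have := mem_low.mp h; omega
      · have := mem_low.mp hx; omega
    exact ⟨hsub _ he.1, hsub _ he.2⟩
  · intro hs
    obtain ⟨j', _, rfl⟩ := Finset.mem_image.mp hs
    apply hne
    apply edg_QQ_high he
    · simp [hu]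
    · simp [hu]

/-- first comparison. -/
lemma comp1 {t : ℕ} (j : Prs m) {u : Fin N} (hu : u.val = t) :
    LL (goodSet m N r Bad) (Ful m N t \ spec m u) -
      LL (goodSet m N r Bad) (insert (j, u, u) (Ful m N t \ spec m u)) ≤ hgen Bad t j u u := by
  have := LL_step_anti (goodSet m N r Bad) (erase_QQ_sub (m := m) j hu) (j, u, u)
  rw [Finset.insert_erase (mem_QQ_self t j u u)] at this
  exact this

/-- second comparison. -/
lemma comp2 {t : ℕ} (j : Prs m) {u v : Fin N} (hu : u.val = t) (hv : v.val = t + 1) :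
    hgen Bad (t + 1) j v v ≤ LL (goodSet m N r Bad) ((Ful m N t).erase (j, u, u)) -
      LL (goodSet m N r Bad) (Ful m N t) := by
  rw [hgen_shift Bad j hu hv]
  have hsub : Ful m N t ⊆ edg (QQ (t + 1) j v v) := by
    intro e he
    rw [Ful, mem_edg] at he
    rw [mem_edg]
    exact ⟨low_sub_QQ _ _ _ _ _ he.1, low_sub_QQ _ _ _ _ _ he.2⟩
  have hmem : (j, u, u) ∈ Ful m N t := spec_sub_Ful hu (Finset.mem_image.mpr ⟨j, by simp, rfl⟩)
  have := LL_step_anti (goodSet m N r Bad) (Finset.erase_subset_erase (j, u, u) hsub) (j, u, u)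
  rw [Finset.insert_erase hmem, Finset.insert_erase (hsub hmem)] at this
  exact this

/-- third comparison. -/
lemma comp3 {t : ℕ} (j : Prs m) {u : Fin N} (hu : u.val = t) :
    LL (goodSet m N r Bad) ((Ful m N t).erase (j, u, u)) - LL (goodSet m N r Bad) (Ful m N t) ≤
    LL (goodSet m N r Bad) (Ful m N t \ spec m u) -
      LL (goodSet m N r Bad) (insert (j, u, u) (Ful m N t \ spec m u)) := by
  have hmem : (j, u, u) ∈ Ful m N t := spec_sub_Ful hu (Finset.mem_image.mpr ⟨j, by simp, rfl⟩)
  have hsub : Ful m N t \ spec m u ⊆ (Ful m N t).erase (j, u, u) := by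
    intro e he
    rw [Finset.mem_sdiff] at he
    rw [Finset.mem_erase]
    refine ⟨?_, he.1⟩
    rintro rfl
    exact he.2 (Finset.mem_image.mpr ⟨j, by simp, rfl⟩)
  have := LL_step_anti (goodSet m N r Bad) hsub (j, u, u)
  rw [Finset.insert_erase hmem] at this
  exact this

lemma sum_spec {u : Fin N} (f : EE m N → ℝ) : ∑ e ∈ spec m u, f e = ∑ j : Prs m, f (j, u, u) := by
  unfold spec
  rw [Finset.sum_image]
  intro a _ b _ hab
  exact (Prod.ext_iff.mp hab).1

/-- fourth comparison (Han). -/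
lemma comp4 {t : ℕ} {u : Fin N} (hu : u.val = t) :
    ∑ j : Prs m, (LL (goodSet m N r Bad) ((Ful m N t).erase (j, u, u)) -
      LL (goodSet m N r Bad) (Ful m N t)) ≤
    LL (goodSet m N r Bad) (Ful m N t \ spec m u) - LL (goodSet m N r Bad) (Ful m N t) := by
  have := LL_han (goodSet m N r Bad) (Ful m N t) (spec m u) (spec_sub_Ful hu)
  rw [sum_spec] at this
  exact this

/-- the local bound. -/
lemma local_bound {t : ℕ} {u : Fin N} (hu : u.val = t) (c' K : ℝ) (hK : 0 ≤ K)
    (HK : ∀ p : Prs m → Fin r → ℝ, (∀ j, p j ∈ stdSimplex ℝ (Fin r)) →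
      ∑ j, ∑ v, Real.negMulLog (p j v) ≤ c' + K * ∑ y ∈ Bad, ∏ j, p j (y j)) :
    ∑ j : Prs m, (LL (goodSet m N r Bad) (Ful m N t \ spec m u) -
      LL (goodSet m N r Bad) (insert (j, u, u) (Ful m N t \ spec m u))) ≤
    (goodSet m N r Bad).card * c' + K *
      (∑ j : Prs m, (LL (goodSet m N r Bad) (Ful m N t \ spec m u) -
      LL (goodSet m N r Bad) (insert (j, u, u) (Ful m N t \ spec m u))) -
      (LL (goodSet m N r Bad) (Ful m N t \ spec m u) - LL (goodSet m N r Bad) (Ful m N t))) := by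
  set F := goodSet m N r Bad with hF
  set I := Ful m N t \ spec m u with hI
  have hmain : ∑ χ ∈ F, ((∑ j : Prs m, (Real.log (nn F I χ) -
      Real.log (nn F (insert (j, u, u) I) χ))) - c' - K *
      ((∑ j : Prs m, (Real.log (nn F I χ) - Real.log (nn F (insert (j, u, u) I) χ))) -
      (Real.log (nn F I χ) - Real.log (nn F (Ful m N t) χ)))) ≤ 0 := by
    apply class_avg F I
    intro χ0 h0
    set C := F.filter (fun χ => ∀ e ∈ I, χ e = χ0 e) with hC
    have hCne : C.Nonempty := ⟨χ0, by simp [hC, h0]⟩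
    set Y : (EE m N → Fin r) → Prs m → Fin r := fun χ j => χ (j, u, u) with hY
    have hYBad : ∀ χ ∈ C, Y χ ∉ Bad := by
      intro χ hχ
      have : χ ∈ F := (Finset.mem_filter.mp hχ).1
      simp only [hF, goodSet, Finset.mem_filter, Finset.mem_univ, true_and] at this
      exact this (fun _ => u)
    have e1 : ∀ χ ∈ C, nn F I χ = C.card := by
      intro χ hχ
      exact nn_congr (Finset.mem_filter.mp hχ).2
    have e2 : ∀ χ ∈ C, ∀ j, nn F (insert (j, u, u) I) χ =
        (C.filter (fun a' => Y a' j = Y χ j)).card := by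
      intro χ hχ j
      unfold nn
      refine congrArg Finset.card (Finset.ext fun χ' => ?_)
      simp only [Finset.mem_filter, hC, hY, Finset.mem_insert, forall_eq_or_imp]
      have := (Finset.mem_filter.mp hχ).2
      constructor
      · rintro ⟨h1, h2, h3⟩
        exact ⟨⟨h1, fun e he => (h3 e he).trans (this e he)⟩, h2⟩
      · rintro ⟨⟨h1, h3⟩, h2⟩
        exact ⟨h1, h2, fun e he => (h3 e he).trans (this e he).symm⟩
    have e3 : ∀ χ ∈ C, nn F (Ful m N t) χ = (C.filter (fun a' => Y a' = Y χ)).card := by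
      intro χ hχ
      unfold nn
      refine congrArg Finset.card (Finset.ext fun χ' => ?_)
      simp only [Finset.mem_filter, hC, hY]
      have := (Finset.mem_filter.mp hχ).2
      constructor
      · rintro ⟨h1, h2⟩
        refine ⟨⟨h1, fun e he => ?_⟩, ?_⟩
        · rw [← this e he]; exact h2 e (Finset.mem_sdiff.mp he).1
        · funext j
          exact h2 _ (spec_sub_Ful hu (Finset.mem_image.mpr ⟨j, by simp, rfl⟩))
      · rintro ⟨⟨h1, h3⟩, h2⟩
        refine ⟨h1, fun e he => ?_⟩
        by_cases hs : e ∈ spec m u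
        · obtain ⟨j, _, rfl⟩ := Finset.mem_image.mp hs
          exact congrFun h2 j
        · have heI : e ∈ I := Finset.mem_sdiff.mpr ⟨he, hs⟩
          rw [h3 e heI, this e heI]
    have hsum : ∑ χ ∈ C, ((∑ j : Prs m, (Real.log (nn F I χ) -
      Real.log (nn F (insert (j, u, u) I) χ))) - c' - K *
      ((∑ j : Prs m, (Real.log (nn F I χ) - Real.log (nn F (insert (j, u, u) I) χ))) -
      (Real.log (nn F I χ) - Real.log (nn F (Ful m N t) χ)))) =
      ∑ χ ∈ C, ((∑ j : Prs m, (Real.log C.card -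
        Real.log ((C.filter (fun a' => Y a' j = Y χ j)).card : ℝ))) - c' - K *
      ((∑ j : Prs m, (Real.log C.card -
        Real.log ((C.filter (fun a' => Y a' j = Y χ j)).card : ℝ))) -
      (Real.log C.card - Real.log ((C.filter (fun a' => Y a' = Y χ)).card : ℝ)))) := by
      apply Finset.sum_congr rfl
      intro χ hχ
      have s0 : (∑ j : Prs m, (Real.log (nn F I χ) - Real.log (nn F (insert (j, u, u) I) χ))) =
          (∑ j : Prs m, (Real.log C.card -
            Real.log ((C.filter (fun a' => Y a' j = Y χ j)).card : ℝ))) := by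
        apply Finset.sum_congr rfl
        intro j _
        rw [e2 χ hχ j, e1 χ hχ]
      have s1 : (Real.log (nn F I χ) - Real.log (nn F (Ful m N t) χ)) =
          (Real.log C.card - Real.log ((C.filter (fun a' => Y a' = Y χ)).card : ℝ)) := by
        rw [e1 χ hχ, e3 χ hχ]
      exact congrArg₂ (fun a b : ℝ => a - c' - K * (a - b)) s0 s1
    rw [hsum]
    have g1 := total_corr_ge hCne Y Bad hYBad
    have g2 : ∑ χ ∈ C, ∑ j : Prs m, (Real.log C.card -
        Real.log ((C.filter (fun a' => Y a' j = Y χ j)).card : ℝ)) =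
        C.card * ∑ j, ∑ v, Real.negMulLog (freq C Y j v) := by
      rw [Finset.sum_comm, Finset.mul_sum]
      apply Finset.sum_congr rfl
      intro j _
      exact sum_log_freq hCne Y j
    have g3 := HK (freq C Y) (fun j => freq_mem_simplex hCne Y j)
    have hn : (0 : ℝ) < C.card := by exact_mod_cast hCne.card_pos
    rw [Finset.sum_sub_distrib, Finset.sum_sub_distrib, ← Finset.mul_sum, g2]
    simp only [Finset.sum_const, nsmul_eq_mul]
    have g4 := mul_le_mul_of_nonneg_left g1 hK
    have g5 := mul_le_mul_of_nonneg_left g3 hn.le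
    nlinarith [g4, g5]
  have hexp : ∑ χ ∈ F, ((∑ j : Prs m, (Real.log (nn F I χ) -
      Real.log (nn F (insert (j, u, u) I) χ))) - c' - K *
      ((∑ j : Prs m, (Real.log (nn F I χ) - Real.log (nn F (insert (j, u, u) I) χ))) -
      (Real.log (nn F I χ) - Real.log (nn F (Ful m N t) χ)))) =
      ∑ j : Prs m, (LL F I - LL F (insert (j, u, u) I)) - F.card * c' - K *
      (∑ j : Prs m, (LL F I - LL F (insert (j, u, u) I)) - (LL F I - LL F (Ful m N t))) := by
    have s1 : ∑ χ ∈ F, ∑ j : Prs m, (Real.log (nn F I χ) -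
      Real.log (nn F (insert (j, u, u) I) χ)) =
      ∑ j : Prs m, (LL F I - LL F (insert (j, u, u) I)) := by
      rw [Finset.sum_comm]
      apply Finset.sum_congr rfl
      intro j _
      unfold LL
      rw [Finset.sum_sub_distrib]
    have s2 : ∑ χ ∈ F, (Real.log (nn F I χ) - Real.log (nn F (Ful m N t) χ)) =
        LL F I - LL F (Ful m N t) := by
      unfold LL
      rw [Finset.sum_sub_distrib]
    rw [Finset.sum_sub_distrib, Finset.sum_sub_distrib, ← Finset.mul_sum, Finset.sum_sub_distrib,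
      s1, s2]
    simp only [Finset.sum_const, nsmul_eq_mul]
  rw [hexp] at hmain
  linarith

end

end Pool.Agent.Lib6a4ab5
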