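import Mathlib
import Pool.Agent.Lib6a4ab5.Blow

set_option autoImplicit false
set_option linter.unusedSectionVars false
open Finset

namespace Pool.Agent.Lib6a4ab5

variable {m N r : ℕ}

/-- edges touching the first `t` levels. -/
def tou (m N t : ℕ) : Finset (EE m N) := univ.filter (fun e => e.2.1.val < t ∨ e.2.2.val < t)

lemma card_low_le (N t : ℕ) : (low N t).card ≤ t := by
  unfold low
  have : (univ.filter (fun x : Fin N => x.val < t)).card ≤ (Finset.range t).card := by
    apply Finset.card_le_card_of_injOn (fun x => x.val)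
    · intro x hx; simp at hx ⊢; exact hx
    · intro a _ b _ h; exact Fin.ext h
  simpa using this

lemma card_tou_le (m N t : ℕ) : (tou m N t).card ≤ 2 * (Fintype.card (Prs m) * (t * N)) := by
  have hsub : tou m N t ⊆ (univ ×ˢ (low N t ×ˢ univ)) ∪ (univ ×ˢ (univ ×ˢ low N t)) := by
    intro e he
    simp only [tou, Finset.mem_filter, Finset.mem_univ, true_and] at he
    simp only [Finset.mem_union, Finset.mem_product, Finset.mem_univ, true_and, and_true, mem_low]
    exact he
  refine (Finset.card_le_card hsub).trans ((Finset.card_union_le _ _).trans ?_)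
  rw [Finset.card_product, Finset.card_product, Finset.card_product, Finset.card_product,
    Finset.card_univ, Finset.card_univ, Fintype.card_fin]
  have h := card_low_le N t
  have h1 : Fintype.card (Prs m) * ((low N t).card * N) ≤ Fintype.card (Prs m) * (t * N) :=
    Nat.mul_le_mul_left _ (Nat.mul_le_mul_right _ h)
  have h2 : Fintype.card (Prs m) * (N * (low N t).card) ≤ Fintype.card (Prs m) * (t * N) := by
    rw [mul_comm N]; exact h1
  omega

lemma total_bound [NeZero r] (Bad : Finset (Prs m → Fin r)) {t : ℕ} {u : Fin N} (hu : u.val = t) :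
    ((goodSet m N r Bad).card : ℝ) * Real.log (goodSet m N r Bad).card ≤
      (tou m N t).card * ((goodSet m N r Bad).card * Real.log r) +
      (N : ℝ) ^ 2 * ∑ j : Prs m, hgen Bad t j u u := by
  set F := goodSet m N r Bad with hF
  have h1 : LL F ∅ - LL F (tou m N t) ≤ (tou m N t).card * (F.card * Real.log r) := by
    have := LL_subadd F ∅ (tou m N t)
    rw [Finset.empty_union] at this
    refine this.trans ?_
    calc _ ≤ ∑ e ∈ tou m N t, ((F.card : ℝ) * Real.log r) := by
          apply Finset.sum_le_sum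
          intro e _
          have := LL_step_le F ∅ e
          rwa [Fintype.card_fin] at this
      _ = _ := by simp
  have h2 : LL F (tou m N t) - LL F univ ≤ (N : ℝ) ^ 2 * ∑ j : Prs m, hgen Bad t j u u := by
    have hsa := LL_subadd F (tou m N t) (tou m N t)ᶜ
    rw [Finset.union_compl] at hsa
    refine hsa.trans ?_
    have hb : ∀ e ∈ (tou m N t)ᶜ, LL F (tou m N t) - LL F (insert e (tou m N t)) ≤
        hgen Bad t e.1 u u := by
      intro e he
      rw [Finset.mem_compl] at he
      simp only [tou, Finset.mem_filter, Finset.mem_univ, true_and, not_or] at he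
      have hsub : (edg (QQ t e.1 e.2.1 e.2.2)).erase e ⊆ tou m N t := by
        intro e' he'
        obtain ⟨hne, he'⟩ := Finset.mem_erase.mp he'
        simp only [tou, Finset.mem_filter, Finset.mem_univ, true_and]
        by_contra hcon
        rw [not_or] at hcon
        apply hne
        exact edg_QQ_high he' hcon.1 hcon.2
      have h3 := LL_step_anti F hsub e
      have hmem : e ∈ edg (QQ t e.1 e.2.1 e.2.2) := mem_QQ_self t e.1 e.2.1 e.2.2
      rw [Finset.insert_erase hmem] at h3
      refine h3.trans (le_of_eq ?_)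
      have hut : ¬ u.val < t := by omega
      rw [← hgen_eq Bad e.1 he.1 he.2 hut hut]
      rfl
    refine (Finset.sum_le_sum hb).trans ?_
    calc ∑ e ∈ (tou m N t)ᶜ, hgen Bad t e.1 u u ≤ ∑ e : EE m N, hgen Bad t e.1 u u := by
          apply Finset.sum_le_sum_of_subset_of_nonneg (Finset.subset_univ _)
          intro e _ _
          exact hgen_nonneg Bad t e.1 u u
      _ = (N : ℝ) ^ 2 * ∑ j : Prs m, hgen Bad t j u u := by
          rw [Fintype.sum_prod_type]
          simp only [Finset.sum_const, Finset.card_univ, Fintype.card_prod, Fintype.card_fin,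
            nsmul_eq_mul]
          rw [← Finset.mul_sum]
          push_cast; ring
  rw [LL_univ] at h2
  rw [LL_empty] at h1
  linarith

/-- **Theorem A.** -/
theorem blow_bound (m r : ℕ) [NeZero r] (Bad : Finset (Prs m → Fin r)) (c : ℝ) (hc : 0 ≤ c)
    (H : ∀ φ : Prs m → Finset (Fin r), (∀ j, (φ j).Nonempty) → (∀ y ∈ Bad, ∃ j, y j ∉ φ j) →
      ∑ j, Real.log ((φ j).card : ℝ) ≤ c) (ε : ℝ) (hε : 0 < ε) :
    ∃ N0 : ℕ, ∀ N ≥ N0, Real.log ((goodSet m N r Bad).card : ℝ) ≤ (c + ε) * (N : ℝ) ^ 2 := by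
  obtain ⟨K, hK, HK⟩ := exists_K Bad c (ε / 3) hc (by positivity) H
  have hr1 : (1 : ℝ) ≤ r := by exact_mod_cast Nat.one_le_iff_ne_zero.mpr (NeZero.ne r)
  have hlr : 0 ≤ Real.log r := Real.log_nonneg hr1
  obtain ⟨J, hJ⟩ : ∃ J : ℝ, J = (Fintype.card (Prs m) : ℝ) := ⟨_, rfl⟩
  have hJ0 : 0 ≤ J := by rw [hJ]; positivity
  obtain ⟨T0, hT0⟩ := exists_nat_gt ((K + 1) * (J * Real.log r) / (ε / 3))
  obtain ⟨T, hT⟩ : ∃ T : ℕ, T = T0 + 1 := ⟨_, rfl⟩
  have hTpos : (0 : ℝ) < T := by rw [hT]; push_cast; positivity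
  have hTb : (K + 1) * (J * Real.log r) / T ≤ ε / 3 := by
    rw [div_le_iff₀ hTpos]
    rw [div_lt_iff₀ (by positivity)] at hT0
    have : (T0 : ℝ) ≤ T := by rw [hT]; push_cast; linarith
    nlinarith
  obtain ⟨N1, hN1⟩ := exists_nat_gt (2 * (T * (J * Real.log r)) / (ε / 3))
  refine ⟨max (T + 1) (N1 + 1), ?_⟩
  intro N hN
  have hNT : T < N := lt_of_lt_of_le (Nat.lt_succ_self T) ((le_max_left _ _).trans hN)
  have hNN1 : N1 < N := lt_of_lt_of_le (Nat.lt_succ_self N1) ((le_max_right _ _).trans hN)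
  have hN0 : (0 : ℝ) < N := by exact_mod_cast lt_of_le_of_lt (Nat.zero_le _) hNT
  set F := goodSet m N r Bad with hF
  rcases Finset.eq_empty_or_nonempty F with hFe | hFn
  · rw [hFe]; simp only [Finset.card_empty, Nat.cast_zero, Real.log_zero]; positivity
  have hf : (0 : ℝ) < F.card := by exact_mod_cast hFn.card_pos
  set f : ℝ := (F.card : ℝ) with hfdef
  set a : ℕ → ℝ := fun t => if h : t < N then ∑ j : Prs m, hgen Bad t j ⟨t, h⟩ ⟨t, h⟩ else 0
    with ha
  have ha_nonneg : ∀ t, 0 ≤ a t := by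
    intro t
    simp only [ha]
    split_ifs
    · exact Finset.sum_nonneg (fun j _ => hgen_nonneg Bad t j _ _)
    · exact le_refl _
  have ha_le : ∀ t, a t ≤ J * (f * Real.log r) := by
    intro t
    simp only [ha]
    split_ifs
    · calc _ ≤ ∑ j : Prs m, (f * Real.log r) :=
            Finset.sum_le_sum (fun j _ => hgen_le Bad t j _ _)
        _ = _ := by rw [Finset.sum_const, Finset.card_univ, nsmul_eq_mul, hJ]
    · positivity
  -- pigeonhole
  have hpig : ∃ t < T, a t - a (t + 1) ≤ J * (f * Real.log r) / T := by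
    by_contra hcon
    push Not at hcon
    have hsum : ∑ t ∈ Finset.range T, (a t - a (t + 1)) = a 0 - a T := by
      rw [Finset.sum_range_sub']
    have h2 : ∑ t ∈ Finset.range T, (J * (f * Real.log r) / T) <
        ∑ t ∈ Finset.range T, (a t - a (t + 1)) := by
      apply Finset.sum_lt_sum_of_nonempty
      · exact ⟨0, by simp [hT]⟩
      · intro t ht
        exact hcon t (Finset.mem_range.mp ht)
    rw [hsum, Finset.sum_const, Finset.card_range, nsmul_eq_mul] at h2
    have h3 : (T : ℝ) * (J * (f * Real.log r) / T) = J * (f * Real.log r) := by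
      field_simp
    rw [h3] at h2
    have := ha_nonneg T
    have := ha_le 0
    linarith
  obtain ⟨t, htT, hδ⟩ := hpig
  have htN : t < N := htT.trans hNT
  have ht1N : t + 1 < N := lt_of_le_of_lt htT hNT
  set u : Fin N := ⟨t, htN⟩ with hu
  set v : Fin N := ⟨t + 1, ht1N⟩ with hv
  have hat : a t = ∑ j : Prs m, hgen Bad t j u u := by
    simp only [ha]; rw [dif_pos htN]
  have hat1 : a (t + 1) = ∑ j : Prs m, hgen Bad (t + 1) j v v := by
    simp only [ha]; rw [dif_pos ht1N]
  set X := ∑ j : Prs m, (LL F (Ful m N t \ spec m u) -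
      LL F (insert (j, u, u) (Ful m N t \ spec m u))) with hX
  set Z := ∑ j : Prs m, (LL F ((Ful m N t).erase (j, u, u)) - LL F (Ful m N t)) with hZ
  set W := LL F (Ful m N t \ spec m u) - LL F (Ful m N t) with hW
  have c1 : X ≤ a t := by
    rw [hat]; exact Finset.sum_le_sum (fun j _ => comp1 Bad j rfl)
  have c2 : a (t + 1) ≤ Z := by
    rw [hat1]; exact Finset.sum_le_sum (fun j _ => comp2 Bad j rfl rfl)
  have c3 : Z ≤ X := Finset.sum_le_sum (fun j _ => comp3 Bad j rfl)
  have c4 : Z ≤ W := comp4 Bad rfl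
  have hut : u.val = t := rfl
  have c5 : X ≤ f * (c + ε / 3) + K * (X - W) := by
    have := local_bound (N := N) Bad (t := t) (u := u) hut (c + ε / 3) K hK HK
    rw [hX, hW, hfdef, hF]
    exact this
  have c6 : X - W ≤ a t - a (t + 1) := by linarith
  have c7 : K * (X - W) ≤ K * (J * (f * Real.log r) / T) :=
    mul_le_mul_of_nonneg_left (c6.trans hδ) hK
  have c8 : a t ≤ f * (c + ε / 3) + (K + 1) * (J * (f * Real.log r) / T) := by linarith
  have c9 : (K + 1) * (J * (f * Real.log r) / T) ≤ f * (ε / 3) := by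
    have : (K + 1) * (J * (f * Real.log r) / T) = f * ((K + 1) * (J * Real.log r) / T) := by ring
    rw [this]
    exact mul_le_mul_of_nonneg_left hTb hf.le
  have htot := total_bound Bad (t := t) (u := u) rfl
  rw [← hat] at htot
  have hcard : ((tou m N t).card : ℝ) ≤ 2 * (J * (T * N)) := by
    have h1 := card_tou_le m N t
    have h2 : ((tou m N t).card : ℝ) ≤ 2 * (J * (t * N)) := by
      rw [hJ]; exact_mod_cast h1
    have h3 : (t : ℝ) ≤ T := by exact_mod_cast htT.le
    have h4 : J * (t * N) ≤ J * (T * N) := by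
      apply mul_le_mul_of_nonneg_left _ hJ0
      exact mul_le_mul_of_nonneg_right h3 hN0.le
    linarith
  have hN1' : 2 * (T * (J * Real.log r)) ≤ (ε / 3) * N := by
    rw [div_lt_iff₀ (by positivity)] at hN1
    have : (N1 : ℝ) ≤ N := by exact_mod_cast hNN1.le
    nlinarith
  -- combine
  have e1 : ((tou m N t).card : ℝ) * (f * Real.log r) ≤ f * ((ε / 3) * (N : ℝ) ^ 2) := by
    calc ((tou m N t).card : ℝ) * (f * Real.log r) ≤ 2 * (J * (T * N)) * (f * Real.log r) :=
          mul_le_mul_of_nonneg_right hcard (by positivity)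
      _ = f * ((2 * (T * (J * Real.log r))) * N) := by ring
      _ ≤ f * ((ε / 3 * N) * N) := by
          apply mul_le_mul_of_nonneg_left _ hf.le
          exact mul_le_mul_of_nonneg_right hN1' hN0.le
      _ = _ := by ring
  have e2 : (N : ℝ) ^ 2 * a t ≤ f * ((c + 2 * (ε / 3)) * (N : ℝ) ^ 2) := by
    have : a t ≤ f * (c + 2 * (ε / 3)) := by linarith
    calc (N : ℝ) ^ 2 * a t ≤ (N : ℝ) ^ 2 * (f * (c + 2 * (ε / 3))) :=
          mul_le_mul_of_nonneg_left this (by positivity)
      _ = _ := by ring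
  have e3 : f * Real.log f ≤ f * ((c + ε) * (N : ℝ) ^ 2) := by
    calc f * Real.log f ≤ _ := htot
      _ ≤ f * ((ε / 3) * (N : ℝ) ^ 2) + f * ((c + 2 * (ε / 3)) * (N : ℝ) ^ 2) := add_le_add e1 e2
      _ = _ := by ring
  exact le_of_mul_le_mul_left e3 hf

end Pool.Agent.Lib6a4ab5
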