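import Mathlib

set_option autoImplicit false
set_option linter.unusedSectionVars false
open Finset

namespace Pool.Agent.Lib6a4ab5

section

variable {V : Type*} [DecidableEq V]

/-- number of ordered pairs in the relation. -/
def ee (H : V → V → Prop) [DecidableRel H] (A B : Finset V) : ℕ :=
  ∑ x ∈ A, (B.filter (fun y => H x y)).card

variable (H : V → V → Prop) [DecidableRel H] (S : V → V → Prop) [DecidableRel S]

lemma ee_union_left {A A' : Finset V} (h : Disjoint A A') (B : Finset V) :
    ee H (A ∪ A') B = ee H A B + ee H A' B := by
  unfold ee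
  rw [Finset.sum_union h]

lemma ee_union_right (A : Finset V) {B B' : Finset V} (h : Disjoint B B') :
    ee H A (B ∪ B') = ee H A B + ee H A B' := by
  unfold ee
  rw [← Finset.sum_add_distrib]
  apply Finset.sum_congr rfl
  intro x _
  rw [Finset.filter_union, Finset.card_union_of_disjoint]
  exact Finset.disjoint_filter_filter h

lemma ee_comm (hs : ∀ x y, H x y → H y x) (A B : Finset V) : ee H A B = ee H B A := by
  unfold ee
  have h1 : ∀ A B : Finset V, ∑ x ∈ A, (B.filter (fun y => H x y)).card =
      ∑ x ∈ A, ∑ y ∈ B, if H x y then 1 else 0 := by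
    intro A B
    apply Finset.sum_congr rfl
    intro x _
    rw [Finset.card_filter]
  rw [h1, h1, Finset.sum_comm]
  apply Finset.sum_congr rfl
  intro x _
  apply Finset.sum_congr rfl
  intro y _
  have : H y x ↔ H x y := ⟨hs y x, hs x y⟩
  simp only [this]

lemma ee_mono {A A' B B' : Finset V} (hA : A ⊆ A') (hB : B ⊆ B') : ee H A B ≤ ee H A' B' := by
  unfold ee
  calc ∑ x ∈ A, (B.filter (fun y => H x y)).card ≤ ∑ x ∈ A, (B'.filter (fun y => H x y)).card := by
        apply Finset.sum_le_sum
        intro x _
        exact Finset.card_le_card (Finset.filter_subset_filter _ hB)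
    _ ≤ _ := Finset.sum_le_sum_of_subset hA

lemma ee_three {A B C : Finset V} (h1 : Disjoint A B) (h2 : Disjoint (A ∪ B) C)
    (hs : ∀ x y, H x y → H y x) :
    ee H (A ∪ B ∪ C) (A ∪ B ∪ C) = ee H A A + ee H B B + ee H C C + 2 * ee H A B +
      2 * ee H A C + 2 * ee H C B := by
  rw [ee_union_left H h2, ee_union_left H h1, ee_union_right H A h2, ee_union_right H A h1,
    ee_union_right H B h2, ee_union_right H B h1, ee_union_right H C h2, ee_union_right H C h1,
    ee_comm H hs B A, ee_comm H hs C A, ee_comm H hs B C]
  ring

/-- structural hypotheses. -/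
structure Star : Prop where
  hs : ∀ x y, H x y → H y x
  ss : ∀ x y, S x y → S y x
  hirr : ∀ x, ¬ H x x
  disj : ∀ x y, H x y → ¬ S x y
  star : ∀ x1 x2 y1 y2, H x1 x2 → H y1 y2 → x1 ≠ y1 → x1 ≠ y2 → x2 ≠ y1 → x2 ≠ y2 →
    (S x1 y1 ∧ S x1 y2) ∨ (S x2 y1 ∧ S x2 y2) ∨ (S x1 y1 ∧ S x2 y1) ∨ (S x1 y2 ∧ S x2 y2)

variable {H S}

lemma step_high (hst : Star H S) (U : Finset V) {c : V} (hc : c ∈ U)
    (hd : 3 ≤ (U.filter (fun y => H c y)).card)
    (ih : ∀ W : Finset V, W.card < U.card → 2 * ee H W W ≤ 4 * W.card + ee S W W) :
    2 * ee H U U + 4 ≤ 4 * U.card + ee S U U := by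
  set N := U.filter (fun y => H c y) with hN
  set W := U.filter (fun y => y ≠ c ∧ ¬ H c y) with hW
  have hcN : c ∉ N := by simp [hN, hst.hirr c]
  have hcW : c ∉ W := by simp [hW]
  have hd1 : Disjoint ({c} : Finset V) N := by simpa using hcN
  have hd2 : Disjoint ({c} ∪ N) W := by
    rw [Finset.disjoint_left]
    intro x hx hxW
    rcases Finset.mem_union.mp hx with h | h
    · rw [Finset.mem_singleton] at h; subst h; exact hcW hxW
    · exact (Finset.mem_filter.mp hxW).2.2 (Finset.mem_filter.mp h).2
  have hU : U = {c} ∪ N ∪ W := by
    ext x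
    simp only [hN, hW, Finset.mem_union, Finset.mem_singleton, Finset.mem_filter]
    constructor
    · intro hx
      by_cases h1 : x = c
      · exact Or.inl (Or.inl h1)
      · by_cases h2 : H c x
        · exact Or.inl (Or.inr ⟨hx, h2⟩)
        · exact Or.inr ⟨hx, h1, h2⟩
    · rintro ((h | h) | h)
      · rw [h]; exact hc
      · exact h.1
      · exact h.1
  have hcardU : U.card = 1 + N.card + W.card := by
    conv_lhs => rw [hU]
    rw [Finset.card_union_of_disjoint hd2, Finset.card_union_of_disjoint hd1,
      Finset.card_singleton]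
  have memN : ∀ y, y ∈ N ↔ y ∈ U ∧ H c y := by intro y; simp [hN]
  have memW : ∀ y, y ∈ W ↔ y ∈ U ∧ y ≠ c ∧ ¬ H c y := by intro y; simp [hW]
  -- decompositions
  have dH : ee H U U = ee H {c} {c} + ee H N N + ee H W W + 2 * ee H {c} N + 2 * ee H {c} W +
      2 * ee H W N := by
    conv_lhs => rw [hU]
    exact ee_three H hd1 hd2 hst.hs
  have dS : ee S U U = ee S {c} {c} + ee S N N + ee S W W + 2 * ee S {c} N + 2 * ee S {c} W +
      2 * ee S W N := by
    conv_lhs => rw [hU]
    exact ee_three S hd1 hd2 hst.ss
  have z1 : ee H {c} {c} = 0 := by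
    unfold ee
    simp [hst.hirr c, Finset.filter_singleton]
  have z2 : ee H {c} W = 0 := by
    unfold ee
    rw [Finset.sum_singleton, Finset.card_eq_zero, Finset.filter_eq_empty_iff]
    intro y hy
    exact ((memW y).mp hy).2.2
  have z3 : ee H {c} N = N.card := by
    unfold ee
    rw [Finset.sum_singleton]
    congr 1
    rw [Finset.filter_eq_self]
    intro y hy
    exact ((memN y).mp hy).2
  -- S-adjacency facts
  have factW : ∀ x ∈ W, ∀ y ∈ N, H x y → ∀ y' ∈ N, y' ≠ y → S x y' := by
    intro x hx y hy hxy y' hy' hne
    have hcy : H c y := ((memN y).mp hy).2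
    have hcy' : H c y' := ((memN y').mp hy').2
    have hxc : x ≠ c := ((memW x).mp hx).2.1
    have hxy' : x ≠ y' := by rintro rfl; exact ((memW x).mp hx).2.2 hcy'
    have hyc : y ≠ c := by rintro rfl; exact hst.hirr _ hcy
    rcases hst.star x y c y' hxy hcy' hxc hxy' hyc hne.symm with h | h | h | h
    · exact h.2
    · exact absurd (hst.ss _ _ h.1) (hst.disj _ _ hcy)
    · exact absurd (hst.ss _ _ h.2) (hst.disj _ _ hcy)
    · exact h.1
  have factN : ∀ y1 ∈ N, ∀ y2 ∈ N, H y1 y2 → ∀ y' ∈ N, y' ≠ y1 → y' ≠ y2 →
      S y1 y' ∧ S y2 y' := by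
    intro y1 h1 y2 h2 h12 y' h' hn1 hn2
    have hc1 : H c y1 := ((memN y1).mp h1).2
    have hc2 : H c y2 := ((memN y2).mp h2).2
    have hcy' : H c y' := ((memN y').mp h').2
    have h1c : y1 ≠ c := by rintro rfl; exact hst.hirr _ hc1
    have h2c : y2 ≠ c := by rintro rfl; exact hst.hirr _ hc2
    rcases hst.star y1 y2 c y' h12 hcy' h1c hn1.symm h2c hn2.symm with h | h | h | h
    · exact absurd (hst.ss _ _ h.1) (hst.disj _ _ hc1)
    · exact absurd (hst.ss _ _ h.1) (hst.disj _ _ hc2)
    · exact absurd (hst.ss _ _ h.1) (hst.disj _ _ hc1)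
    · exact h
  -- bound for W-N
  have b1 : 2 * ee H W N ≤ ee S W N := by
    unfold ee
    rw [Finset.mul_sum]
    apply Finset.sum_le_sum
    intro x hx
    rcases (N.filter (fun y => H x y)).eq_empty_or_nonempty with he | ⟨y, hy⟩
    · rw [he]; simp
    · obtain ⟨hyN, hxy⟩ := Finset.mem_filter.mp hy
      have h1 : N.filter (fun y => H x y) ⊆ {y} := by
        intro z hz
        obtain ⟨hzN, hxz⟩ := Finset.mem_filter.mp hz
        rw [Finset.mem_singleton]
        by_contra hne
        exact hst.disj _ _ hxz (factW x hx y hyN hxy z hzN hne)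
      have h2 : N.erase y ⊆ N.filter (fun y => S x y) := by
        intro z hz
        obtain ⟨hne, hzN⟩ := Finset.mem_erase.mp hz
        exact Finset.mem_filter.mpr ⟨hzN, factW x hx y hyN hxy z hzN hne⟩
      have h3 := Finset.card_le_card h1
      have h4 := Finset.card_le_card h2
      rw [Finset.card_singleton] at h3
      rw [Finset.card_erase_of_mem hyN] at h4
      omega
  -- bound for N-N
  have b2 : 2 * ee H N N ≤ ee S N N := by
    by_cases hbig : 4 ≤ N.card
    · unfold ee
      rw [Finset.mul_sum]
      apply Finset.sum_le_sum
      intro x hx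
      rcases (N.filter (fun y => H x y)).eq_empty_or_nonempty with he | ⟨y, hy⟩
      · rw [he]; simp
      · obtain ⟨hyN, hxy⟩ := Finset.mem_filter.mp hy
        have h1 : N.filter (fun y => H x y) ⊆ {y} := by
          intro z hz
          obtain ⟨hzN, hxz⟩ := Finset.mem_filter.mp hz
          rw [Finset.mem_singleton]
          by_contra hne
          have hzx : z ≠ x := by rintro rfl; exact hst.hirr _ hxz
          exact hst.disj _ _ hxz (factN x hx y hyN hxy z hzN hzx hne).1
        have h2 : (N.erase x).erase y ⊆ N.filter (fun y => S x y) := by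
          intro z hz
          obtain ⟨hne, hz⟩ := Finset.mem_erase.mp hz
          obtain ⟨hnx, hzN⟩ := Finset.mem_erase.mp hz
          exact Finset.mem_filter.mpr ⟨hzN, (factN x hx y hyN hxy z hzN hnx hne).1⟩
        have hyx : y ≠ x := by rintro rfl; exact hst.hirr _ hxy
        have h3 := Finset.card_le_card h1
        have h4 := Finset.card_le_card h2
        rw [Finset.card_singleton] at h3
        rw [Finset.card_erase_of_mem (Finset.mem_erase.mpr ⟨hyx, hyN⟩),
          Finset.card_erase_of_mem hx] at h4
        omega
    · have hN3 : N.card = 3 := by omega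
      by_cases hex : ∃ y1 ∈ N, ∃ y2 ∈ N, H y1 y2
      · obtain ⟨y1, h1, y2, h2, h12⟩ := hex
        have h21 : y2 ≠ y1 := by rintro rfl; exact hst.hirr _ h12
        have hcard1 : ((N.erase y1).erase y2).card = 1 := by
          rw [Finset.card_erase_of_mem (Finset.mem_erase.mpr ⟨h21, h2⟩),
            Finset.card_erase_of_mem h1]
          omega
        obtain ⟨y3, h3⟩ := Finset.card_eq_one.mp hcard1
        have h3m : y3 ∈ (N.erase y1).erase y2 := by rw [h3]; simp
        obtain ⟨h32, h3m⟩ := Finset.mem_erase.mp h3m
        obtain ⟨h31, h3N⟩ := Finset.mem_erase.mp h3m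
        have hNeq : N = {y1, y2, y3} := by
          have a1 : insert y2 ((N.erase y1).erase y2) = N.erase y1 :=
            Finset.insert_erase (Finset.mem_erase.mpr ⟨h21, h2⟩)
          have a2 : insert y1 (N.erase y1) = N := Finset.insert_erase h1
          rw [← a2, ← a1, h3]
        obtain ⟨s13, s23⟩ := factN y1 h1 y2 h2 h12 y3 h3N h31 h32
        have nh13 : ¬ H y1 y3 := fun h => hst.disj _ _ h s13
        have nh23 : ¬ H y2 y3 := fun h => hst.disj _ _ h s23
        have nh31 : ¬ H y3 y1 := fun h => nh13 (hst.hs _ _ h)
        have nh32 : ¬ H y3 y2 := fun h => nh23 (hst.hs _ _ h)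
        have hH : ee H N N ≤ 2 := by
          rw [hNeq]
          unfold ee
          rw [Finset.sum_insert (by simp [h21.symm, h31.symm]),
            Finset.sum_insert (by simp [h32.symm]), Finset.sum_singleton]
          have e1 : (({y1, y2, y3} : Finset V).filter (fun y => H y1 y)).card ≤ 1 := by
            have : ({y1, y2, y3} : Finset V).filter (fun y => H y1 y) ⊆ {y2} := by
              intro z hz
              obtain ⟨hz, hz'⟩ := Finset.mem_filter.mp hz
              simp only [Finset.mem_insert, Finset.mem_singleton] at hz ⊢
              rcases hz with rfl | rfl | rfl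
              · exact absurd hz' (hst.hirr _)
              · rfl
              · exact absurd hz' nh13
            simpa using Finset.card_le_card this
          have e2 : (({y1, y2, y3} : Finset V).filter (fun y => H y2 y)).card ≤ 1 := by
            have : ({y1, y2, y3} : Finset V).filter (fun y => H y2 y) ⊆ {y1} := by
              intro z hz
              obtain ⟨hz, hz'⟩ := Finset.mem_filter.mp hz
              simp only [Finset.mem_insert, Finset.mem_singleton] at hz ⊢
              rcases hz with rfl | rfl | rfl
              · rfl
              · exact absurd hz' (hst.hirr _)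
              · exact absurd hz' nh23
            simpa using Finset.card_le_card this
          have e3 : (({y1, y2, y3} : Finset V).filter (fun y => H y3 y)).card = 0 := by
            rw [Finset.card_eq_zero, Finset.filter_eq_empty_iff]
            intro z hz
            simp only [Finset.mem_insert, Finset.mem_singleton] at hz
            rcases hz with rfl | rfl | rfl
            · exact nh31
            · exact nh32
            · exact hst.hirr _
          omega
        have hS : 4 ≤ ee S N N := by
          rw [hNeq]
          unfold ee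
          rw [Finset.sum_insert (by simp [h21.symm, h31.symm]),
            Finset.sum_insert (by simp [h32.symm]), Finset.sum_singleton]
          have e1 : 1 ≤ (({y1, y2, y3} : Finset V).filter (fun y => S y1 y)).card :=
            Finset.card_pos.mpr ⟨y3, by simp [s13]⟩
          have e2 : 1 ≤ (({y1, y2, y3} : Finset V).filter (fun y => S y2 y)).card :=
            Finset.card_pos.mpr ⟨y3, by simp [s23]⟩
          have e3 : 2 ≤ (({y1, y2, y3} : Finset V).filter (fun y => S y3 y)).card := by
            have : ({y1, y2} : Finset V) ⊆ ({y1, y2, y3} : Finset V).filter (fun y => S y3 y) := by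
              intro z hz
              simp only [Finset.mem_insert, Finset.mem_singleton] at hz
              rcases hz with rfl | rfl
              · simp [hst.ss _ _ s13]
              · simp [hst.ss _ _ s23]
            have h := Finset.card_le_card this
            rwa [Finset.card_pair h21.symm] at h
          omega
        omega
      · have : ee H N N = 0 := by
          unfold ee
          apply Finset.sum_eq_zero
          intro x hx
          rw [Finset.card_eq_zero, Finset.filter_eq_empty_iff]
          intro y hy hxy
          exact hex ⟨x, hx, y, hy, hxy⟩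
        omega
  have ihW := ih W (by omega)
  omega

/-- weak form, all sizes. -/
lemma weak_form (hst : Star H S) : ∀ (n : ℕ) (U : Finset V), U.card = n →
    2 * ee H U U ≤ 4 * U.card + ee S U U := by
  intro n
  induction n using Nat.strong_induction_on with
  | _ n ih =>
    intro U hU
    by_cases hex : ∃ c ∈ U, 3 ≤ (U.filter (fun y => H c y)).card
    · obtain ⟨c, hc, hd⟩ := hex
      have := step_high hst U hc hd (fun W hW => ih W.card (by omega) W rfl)
      omega
    · push Not at hex
      have : ee H U U ≤ 2 * U.card := by
        unfold ee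
        calc _ ≤ ∑ x ∈ U, 2 := by
              apply Finset.sum_le_sum
              intro x hx
              have := hex x hx
              omega
          _ = 2 * U.card := by simp [mul_comm]
      omega

/-- strong form for at least four vertices. -/
lemma strong_form (hst : Star H S) (U : Finset V) (h4 : 4 ≤ U.card) :
    2 * ee H U U + 4 ≤ 4 * U.card + ee S U U := by
  by_cases hex : ∃ c ∈ U, 3 ≤ (U.filter (fun y => H c y)).card
  · obtain ⟨c, hc, hd⟩ := hex
    exact step_high hst U hc hd (fun W _ => weak_form hst W.card W rfl)
  · push Not at hex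
    have hle : ee H U U ≤ 2 * U.card := by
      unfold ee
      calc _ ≤ ∑ x ∈ U, 2 := by
            apply Finset.sum_le_sum
            intro x hx
            have := hex x hx
            omega
        _ = 2 * U.card := by simp [mul_comm]
    by_cases hsmall : ee H U U ≤ 2 * U.card - 2
    · omega
    · -- there is an edge
      have hpos : 0 < ee H U U := by omega
      have hedge : ∃ x1 ∈ U, ∃ x2 ∈ U, H x1 x2 := by
        by_contra hno
        push Not at hno
        have : ee H U U = 0 := by
          unfold ee
          apply Finset.sum_eq_zero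
          intro x hx
          rw [Finset.card_eq_zero, Finset.filter_eq_empty_iff]
          intro y hy
          exact hno x hx y hy
        omega
      obtain ⟨x1, h1, x2, h2, h12⟩ := hedge
      have h12n : x1 ≠ x2 := by rintro rfl; exact hst.hirr _ h12
      set P : Finset V := {x1, x2} with hP
      set W := U \ P with hW
      have hPU : P ⊆ U := by
        intro z hz
        simp only [hP, Finset.mem_insert, Finset.mem_singleton] at hz
        rcases hz with rfl | rfl
        · exact h1
        · exact h2
      have hU : U = P ∪ W := by rw [hW, Finset.union_sdiff_of_subset hPU]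
      have hdisj : Disjoint P W := Finset.disjoint_sdiff
      have dec : ee H U U = ee H P U + ee H W P + ee H W W := by
        have a1 : ee H U U = ee H P U + ee H W U := by
          conv_lhs => rw [hU]
          rw [ee_union_left H hdisj, ← hU]
        have a2 : ee H W U = ee H W P + ee H W W := by
          conv_lhs => rw [hU]
          rw [ee_union_right H W hdisj]
        omega
      have dec2 : ee H P U = ee H P P + ee H P W := by
        conv_lhs => rw [hU]
        rw [ee_union_right H P hdisj]
      have hPUle : ee H P U ≤ 4 := by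
        unfold ee
        rw [hP, Finset.sum_pair h12n]
        have := hex x1 h1
        have := hex x2 h2
        omega
      have hPP : 2 ≤ ee H P P := by
        unfold ee
        rw [hP, Finset.sum_pair h12n]
        have e1 : 1 ≤ (({x1, x2} : Finset V).filter (fun y => H x1 y)).card :=
          Finset.card_pos.mpr ⟨x2, by simp [h12]⟩
        have e2 : 1 ≤ (({x1, x2} : Finset V).filter (fun y => H x2 y)).card :=
          Finset.card_pos.mpr ⟨x1, by simp [hst.hs _ _ h12]⟩
        omega
      have hWP : ee H W P = ee H P W := ee_comm H hst.hs W P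
      have hWW : 0 < ee H W W := by omega
      have hedge2 : ∃ y1 ∈ W, ∃ y2 ∈ W, H y1 y2 := by
        by_contra hno
        push Not at hno
        have : ee H W W = 0 := by
          unfold ee
          apply Finset.sum_eq_zero
          intro x hx
          rw [Finset.card_eq_zero, Finset.filter_eq_empty_iff]
          intro y hy
          exact hno x hx y hy
        omega
      obtain ⟨y1, g1, y2, g2, g12⟩ := hedge2
      have memW : ∀ z ∈ W, z ∈ U ∧ z ≠ x1 ∧ z ≠ x2 := by
        intro z hz
        rw [hW, Finset.mem_sdiff] at hz
        simp only [hP, Finset.mem_insert, Finset.mem_singleton, not_or] at hz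
        exact ⟨hz.1, hz.2.1, hz.2.2⟩
      obtain ⟨g1U, g11, g12'⟩ := memW y1 g1
      obtain ⟨g2U, g21, g22⟩ := memW y2 g2
      have gn : y1 ≠ y2 := by rintro rfl; exact hst.hirr _ g12
      -- two S edges at a common vertex
      have key : ∀ z a b : V, z ∈ U → a ∈ U → b ∈ U → a ≠ b → z ≠ a → z ≠ b → S z a → S z b →
          4 ≤ ee S U U := by
        intro z a b hz ha hb hab hza hzb sa sb
        have hsub : ({z, a, b} : Finset V) ⊆ U := by
          intro w hw
          simp only [Finset.mem_insert, Finset.mem_singleton] at hw
          rcases hw with rfl | rfl | rfl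
          · exact hz
          · exact ha
          · exact hb
        refine le_trans ?_ (Finset.sum_le_sum_of_subset hsub)
        rw [Finset.sum_insert (by simp [hza, hzb]), Finset.sum_pair hab]
        have e1 : 2 ≤ (U.filter (fun y => S z y)).card := by
          have : ({a, b} : Finset V) ⊆ U.filter (fun y => S z y) := by
            intro w hw
            simp only [Finset.mem_insert, Finset.mem_singleton] at hw
            rcases hw with rfl | rfl
            · exact Finset.mem_filter.mpr ⟨ha, sa⟩
            · exact Finset.mem_filter.mpr ⟨hb, sb⟩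
          have h := Finset.card_le_card this
          rwa [Finset.card_pair hab] at h
        have e2 : 1 ≤ (U.filter (fun y => S a y)).card :=
          Finset.card_pos.mpr ⟨z, Finset.mem_filter.mpr ⟨hz, hst.ss _ _ sa⟩⟩
        have e3 : 1 ≤ (U.filter (fun y => S b y)).card :=
          Finset.card_pos.mpr ⟨z, Finset.mem_filter.mpr ⟨hz, hst.ss _ _ sb⟩⟩
        omega
      have hS4 : 4 ≤ ee S U U := by
        rcases hst.star x1 x2 y1 y2 h12 g12 g11.symm g21.symm g12'.symm g22.symm with
          h | h | h | h
        · exact key x1 y1 y2 h1 g1U g2U gn g11.symm g21.symm h.1 h.2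
        · exact key x2 y1 y2 h2 g1U g2U gn g12'.symm g22.symm h.1 h.2
        · exact key y1 x1 x2 g1U h1 h2 h12n g11 g12' (hst.ss _ _ h.1) (hst.ss _ _ h.2)
        · exact key y2 x1 x2 g2U h1 h2 h12n g21 g22 (hst.ss _ _ h.1) (hst.ss _ _ h.2)
      omega

end

end Pool.Agent.Lib6a4ab5
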