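import Mathlib
import Pool.Agent.Lib6a4ab5.GraphLemma

set_option autoImplicit false
set_option linter.unusedSectionVars false
open Finset

namespace Pool.Agent.Lib6a4ab5

section

variable {V : Type*} [DecidableEq V] {r : ℕ}

/-- a symmetric system of nonempty lists without a selection of the pattern. -/
structure PF (Φ : V → V → Finset (Fin r)) : Prop where
  sym : ∀ x y, Φ x y = Φ y x
  ne : ∀ x y, x ≠ y → (Φ x y).Nonempty
  free : ∀ a b c d : V, a ≠ b → a ≠ c → a ≠ d → b ≠ c → b ≠ d → c ≠ d →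
    ∀ c0 c1 c2 c3 c4 : Fin r, c0 ∈ Φ a b → c0 ∈ Φ c d → c1 ∈ Φ a c → c2 ∈ Φ a d →
      c3 ∈ Φ b c → c4 ∈ Φ b d → ¬ [c0, c1, c2, c3, c4].Nodup

variable (Φ : V → V → Finset (Fin r)) (U : Finset V)

/-- big pairs inside `U` -/
def bigR (x y : V) : Prop := x ∈ U ∧ y ∈ U ∧ x ≠ y ∧ 5 ≤ (Φ x y).card
/-- small pairs inside `U` -/
def smallR (x y : V) : Prop := x ∈ U ∧ y ∈ U ∧ x ≠ y ∧ (Φ x y).card ≤ 4
/-- big pairs containing the colour `a` -/
def colR (a : Fin r) (x y : V) : Prop := x ∈ U ∧ y ∈ U ∧ x ≠ y ∧ 5 ≤ (Φ x y).card ∧ a ∈ Φ x y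

instance : DecidableRel (bigR Φ U) := fun _ _ => by unfold bigR; infer_instance
instance : DecidableRel (smallR Φ U) := fun _ _ => by unfold smallR; infer_instance
instance (a : Fin r) : DecidableRel (colR Φ U a) := fun _ _ => by unfold colR; infer_instance

/-- exceptional colours -/
def exc (a : Fin r) : Prop := ∃ x ∈ U, ∃ y ∈ U, x ≠ y ∧ Φ x y = {a}

lemma pick {L : Finset (Fin r)} {T : Finset (Fin r)} (h : T.card < L.card) :
    ∃ x ∈ L, x ∉ T := Finset.exists_mem_notMem_of_card_lt_card h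

variable {Φ U}

/-- greedy selection. -/
lemma greedy4 {L1 L2 L3 L4 : Finset (Fin r)} (h1 : 5 ≤ L1.card) (h2 : 5 ≤ L2.card)
    (h3 : 5 ≤ L3.card) (h4 : 5 ≤ L4.card) (p : Fin r) :
    ∃ c1 ∈ L1, ∃ c2 ∈ L2, ∃ c3 ∈ L3, ∃ c4 ∈ L4, [p, c1, c2, c3, c4].Nodup := by
  obtain ⟨c1, hc1, n1⟩ := pick (L := L1) (T := {p}) (by simp; omega)
  obtain ⟨c2, hc2, n2⟩ := pick (L := L2) (T := {p, c1})
    (lt_of_le_of_lt (Finset.card_le_two) (by omega))
  obtain ⟨c3, hc3, n3⟩ := pick (L := L3) (T := {p, c1, c2})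
    (lt_of_le_of_lt (Finset.card_le_three) (by omega))
  obtain ⟨c4, hc4, n4⟩ := pick (L := L4) (T := {p, c1, c2, c3})
    (lt_of_le_of_lt (Finset.card_le_four) (by omega))
  refine ⟨c1, hc1, c2, hc2, c3, hc3, c4, hc4, ?_⟩
  simp only [Finset.mem_insert, Finset.mem_singleton, not_or] at n1 n2 n3 n4
  simp only [List.nodup_cons, List.mem_cons, List.not_mem_nil, or_false, not_or,
    not_false_eq_true, List.nodup_nil, and_true]
  refine ⟨⟨?_, ?_, ?_, ?_⟩, ⟨?_, ?_, ?_⟩, ⟨?_, ?_⟩, ?_⟩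
  · exact Ne.symm n1
  · exact Ne.symm n2.1
  · exact Ne.symm n3.1
  · exact Ne.symm n4.1
  · exact Ne.symm n2.2
  · exact Ne.symm n3.2.1
  · exact Ne.symm n4.2.1
  · exact Ne.symm n3.2.2
  · exact Ne.symm n4.2.2.1
  · exact Ne.symm n4.2.2.2

/-- core: with `x1 y2`, `x2 y1` big there is a contradiction. -/
lemma core (hPF : PF Φ) {a : Fin r} {x1 x2 y1 y2 : V}
    (h12 : x1 ≠ x2) (g12 : y1 ≠ y2) (n11 : x1 ≠ y1) (n12 : x1 ≠ y2) (n21 : x2 ≠ y1)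
    (n22 : x2 ≠ y2) (hx : a ∈ Φ x1 x2) (hy : a ∈ Φ y1 y2) (bx : 5 ≤ (Φ x1 x2).card)
    (by' : 5 ≤ (Φ y1 y2).card) (e11 : Φ x1 y1 ≠ {a}) (e22 : Φ x2 y2 ≠ {a})
    (b12 : 5 ≤ (Φ x1 y2).card) (b21 : 5 ≤ (Φ x2 y1).card) : False := by
  have exists_ne : ∀ L : Finset (Fin r), L.Nonempty → L ≠ {a} → ∃ p ∈ L, p ≠ a := by
    intro L hL hne
    by_contra hcon
    push Not at hcon
    apply hne
    ext z
    rw [Finset.mem_singleton]
    constructor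
    · exact hcon z
    · rintro rfl
      obtain ⟨w, hw⟩ := hL
      rwa [← hcon w hw]
  obtain ⟨p, hp, hpa⟩ := exists_ne _ (hPF.ne x1 y1 n11) e11
  obtain ⟨q, hq, hqa⟩ := exists_ne _ (hPF.ne x2 y2 n22) e22
  by_cases hpq : p = q
  · subst hpq
    obtain ⟨c1, hc1, c2, hc2, c3, hc3, c4, hc4, hnd⟩ := greedy4 bx b12 (L3 := Φ y1 x2)
      (by rw [hPF.sym y1 x2]; exact b21) by' p
    exact hPF.free x1 y1 x2 y2 n11 h12 n12 n21.symm g12 n22 p c1 c2 c3 c4 hp hq hc1 hc2 hc3 hc4 hnd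
  · obtain ⟨s, hs, ns⟩ := pick (L := Φ x1 y2) (T := {a, p, q})
      (lt_of_le_of_lt (Finset.card_le_three) (by omega))
    obtain ⟨t, ht, nt⟩ := pick (L := Φ x2 y1) (T := {a, p, q, s})
      (lt_of_le_of_lt (Finset.card_le_four) (by omega))
    simp only [Finset.mem_insert, Finset.mem_singleton, not_or] at ns nt
    apply hPF.free x1 x2 y1 y2 h12 n11 n12 n21 n22 g12 a p s t q hx hy hp hs ht hq
    simp only [List.nodup_cons, List.mem_cons, List.not_mem_nil, or_false, not_or,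
      not_false_eq_true, List.nodup_nil, and_true]
    refine ⟨⟨?_, ?_, ?_, ?_⟩, ⟨?_, ?_, ?_⟩, ⟨?_, ?_⟩, ?_⟩
    · exact Ne.symm hpa
    · exact Ne.symm ns.1
    · exact Ne.symm nt.1
    · exact Ne.symm hqa
    · exact Ne.symm ns.2.1
    · exact Ne.symm nt.2.1
    · exact hpq
    · exact Ne.symm nt.2.2.2
    · exact ns.2.2
    · exact nt.2.2.1

lemma star_of_PF (hPF : PF Φ) {a : Fin r} (ha : ¬ exc Φ U a) :
    Star (colR Φ U a) (smallR Φ U) where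
  hs := by
    rintro x y ⟨h1, h2, h3, h4, h5⟩
    exact ⟨h2, h1, h3.symm, by rwa [hPF.sym y x], by rwa [hPF.sym y x]⟩
  ss := by
    rintro x y ⟨h1, h2, h3, h4⟩
    exact ⟨h2, h1, h3.symm, by rwa [hPF.sym y x]⟩
  hirr := by
    rintro x ⟨_, _, h, _⟩
    exact h rfl
  disj := by
    rintro x y ⟨_, _, _, h, _⟩ ⟨_, _, _, h'⟩
    omega
  star := by
    rintro x1 x2 y1 y2 ⟨hx1, hx2, h12, bx, ax⟩ ⟨hy1, hy2, g12, by', ay⟩ n11 n12 n21 n22
    have ne_exc : ∀ x ∈ U, ∀ y ∈ U, x ≠ y → Φ x y ≠ {a} := by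
      intro x hx y hy hxy he
      exact ha ⟨x, hx, y, hy, hxy, he⟩
    by_contra hcon
    simp only [not_or] at hcon
    obtain ⟨k1, k2, k3, k4⟩ := hcon
    have big_or : ∀ x ∈ U, ∀ y ∈ U, x ≠ y → ¬ smallR Φ U x y → 5 ≤ (Φ x y).card := by
      intro x hx y hy hxy hns
      by_contra hlt
      exact hns ⟨hx, hy, hxy, by omega⟩
    by_cases s12 : smallR Φ U x1 y2
    · -- then `x1 y1` and `x2 y2` are big
      have b11 : 5 ≤ (Φ x1 y1).card := big_or x1 hx1 y1 hy1 n11 (fun h => k1 ⟨h, s12⟩)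
      have b22 : 5 ≤ (Φ x2 y2).card := big_or x2 hx2 y2 hy2 n22 (fun h => k4 ⟨s12, h⟩)
      exact core hPF (a := a) (x1 := x1) (x2 := x2) (y1 := y2) (y2 := y1) h12 g12.symm n12 n11
        n22 n21 ax (by rwa [hPF.sym y2 y1]) bx (by rwa [hPF.sym y2 y1])
        (ne_exc _ hx1 _ hy2 n12) (ne_exc _ hx2 _ hy1 n21) b11 b22
    · have b12 : 5 ≤ (Φ x1 y2).card := big_or x1 hx1 y2 hy2 n12 s12
      by_cases s21 : smallR Φ U x2 y1
      · have b11 : 5 ≤ (Φ x1 y1).card := big_or x1 hx1 y1 hy1 n11 (fun h => k3 ⟨h, s21⟩)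
        have b22 : 5 ≤ (Φ x2 y2).card := big_or x2 hx2 y2 hy2 n22 (fun h => k2 ⟨s21, h⟩)
        exact core hPF (a := a) (x1 := x1) (x2 := x2) (y1 := y2) (y2 := y1) h12 g12.symm n12 n11
          n22 n21 ax (by rwa [hPF.sym y2 y1]) bx (by rwa [hPF.sym y2 y1])
          (ne_exc _ hx1 _ hy2 n12) (ne_exc _ hx2 _ hy1 n21) b11 b22
      · have b21 : 5 ≤ (Φ x2 y1).card := big_or x2 hx2 y1 hy1 n21 s21
        exact core hPF h12 g12 n11 n12 n21 n22 ax ay bx by' (ne_exc _ hx1 _ hy1 n11)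
          (ne_exc _ hx2 _ hy2 n22) b12 b21

end

end Pool.Agent.Lib6a4ab5
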