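import Mathlib
import Pool.Agent.Lib6a4ab5.Lists

set_option autoImplicit false
set_option linter.unusedSectionVars false
open Finset

namespace Pool.Agent.Lib6a4ab5

section

variable {V : Type*} [DecidableEq V] {r : ℕ}

/-- twice the total weight of the list system on `U`. -/
noncomputable def W2 (Φ : V → V → Finset (Fin r)) (U : Finset V) : ℝ :=
  ∑ p ∈ U.offDiag, Real.log ((Φ p.1 p.2).card : ℝ)

lemma ee_eq_card (R : V → V → Prop) [DecidableRel R] (U : Finset V)
    (hR : ∀ x y, R x y → x ≠ y) :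
    ee R U U = (U.offDiag.filter (fun p => R p.1 p.2)).card := by
  have h1 : (U.offDiag.filter (fun p => R p.1 p.2)) =
      ((U ×ˢ U).filter (fun p => R p.1 p.2)) := by
    ext p
    simp only [Finset.mem_filter, Finset.mem_offDiag, Finset.mem_product]
    constructor
    · rintro ⟨⟨a, b, _⟩, c⟩; exact ⟨⟨a, b⟩, c⟩
    · rintro ⟨⟨a, b⟩, c⟩; exact ⟨⟨a, b, hR _ _ c⟩, c⟩
  rw [h1, Finset.card_filter, Finset.sum_product]
  unfold ee
  apply Finset.sum_congr rfl
  intro x _
  rw [Finset.card_filter]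

variable {Φ : V → V → Finset (Fin r)} {U : Finset V}

lemma main_ineq (hPF : PF Φ) (h4 : 4 ≤ U.card) (α β : ℝ) (hβ : 0 ≤ β)
    (hlog : ∀ n : ℕ, 1 ≤ n → Real.log n ≤ α + β * n)
    (hθ : 0 ≤ α - β * r / 2 - Real.log 4)
    (hb : β * (U.card * (U.card - 1)) ≤ 2 * Real.log 4 + 2 * (α - β * r / 2 - Real.log 4)) :
    W2 Φ U ≤ α * (U.card * (U.card - 1)) + 2 * β * r * (U.card - 1) := by
  classical
  set m : ℝ := (U.card : ℝ) with hm
  have hm4 : (4 : ℝ) ≤ m := by rw [hm]; exact_mod_cast h4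
  set B := U.offDiag.filter (fun p => 5 ≤ (Φ p.1 p.2).card) with hB
  set S := U.offDiag.filter (fun p => ¬ 5 ≤ (Φ p.1 p.2).card) with hS
  set S1 := S.filter (fun p => (Φ p.1 p.2).card = 1) with hS1
  set X : Finset (Fin r) := univ.filter (fun a => exc Φ U a) with hX
  have hcardBS : (B.card : ℝ) + S.card = m * (m - 1) := by
    have h1 : B.card + S.card = U.offDiag.card := Finset.card_filter_add_card_filter_not _
    have h2 : U.offDiag.card = U.card * U.card - U.card := Finset.offDiag_card U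
    have h3 : U.card ≤ U.card * U.card := Nat.le_mul_self _
    have h4' : ((B.card + S.card : ℕ) : ℝ) = (U.card : ℝ) * U.card - U.card := by
      rw [h1, h2, Nat.cast_sub h3]; push_cast; ring
    push_cast at h4'
    rw [h4', hm]; ring
  have hne : ∀ p ∈ U.offDiag, 1 ≤ (Φ p.1 p.2).card := by
    intro p hp
    rw [Finset.mem_offDiag] at hp
    exact (hPF.ne _ _ hp.2.2).card_pos
  have heeS : ee (smallR Φ U) U U = S.card := by
    rw [ee_eq_card _ _ (fun x y h => h.2.2.1)]
    congr 1
    ext p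
    rw [Finset.mem_filter, hS, Finset.mem_filter, Finset.mem_offDiag]
    constructor
    · rintro ⟨h1, h2⟩
      exact ⟨h1, by have := h2.2.2.2; omega⟩
    · rintro ⟨h1, h2⟩
      exact ⟨h1, h1.1, h1.2.1, h1.2.2, by omega⟩
  have heeH : ∀ a, ee (colR Φ U a) U U = (B.filter (fun p => a ∈ Φ p.1 p.2)).card := by
    intro a
    rw [ee_eq_card _ _ (fun x y h => h.2.2.1)]
    congr 1
    ext p
    rw [Finset.mem_filter, Finset.mem_filter, hB, Finset.mem_filter, Finset.mem_offDiag]
    constructor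
    · rintro ⟨h1, h2⟩
      exact ⟨⟨h1, h2.2.2.2.1⟩, h2.2.2.2.2⟩
    · rintro ⟨⟨h1, h2⟩, h3⟩
      exact ⟨h1, h1.1, h1.2.1, h1.2.2, h2, h3⟩
  -- color class sizes
  have hcol : ∀ a, ((B.filter (fun p => a ∈ Φ p.1 p.2)).card : ℝ) ≤
      (2 * (m - 1) + S.card / 2) + (if a ∈ X then (B.card : ℝ) else 0) := by
    intro a
    by_cases ha : exc Φ U a
    · have haX : a ∈ X := by simp [hX, ha]
      rw [if_pos haX]
      have h1 : ((B.filter (fun p => a ∈ Φ p.1 p.2)).card : ℝ) ≤ B.card := by
        exact_mod_cast Finset.card_filter_le _ _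
      have h2 : (0 : ℝ) ≤ S.card := by positivity
      nlinarith
    · have haX : a ∉ X := by simp [hX, ha]
      rw [if_neg haX]
      have h1 := strong_form (star_of_PF hPF ha) U h4
      rw [heeH a, heeS] at h1
      have h2 : 2 * ((B.filter (fun p => a ∈ Φ p.1 p.2)).card : ℝ) + 4 ≤ 4 * m + S.card := by
        rw [hm]; exact_mod_cast h1
      linarith
  have hsumB : ∑ p ∈ B, ((Φ p.1 p.2).card : ℝ) =
      ∑ a : Fin r, ((B.filter (fun p => a ∈ Φ p.1 p.2)).card : ℝ) := by
    have h1 : ∀ p ∈ B, ((Φ p.1 p.2).card : ℝ) = ∑ a : Fin r, if a ∈ Φ p.1 p.2 then (1 : ℝ) else 0 := by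
      intro p _
      rw [Finset.sum_boole]
      congr 2
      ext a; simp
    rw [Finset.sum_congr rfl h1, Finset.sum_comm]
    apply Finset.sum_congr rfl
    intro a _
    rw [Finset.sum_boole]
  have hsumB_le : ∑ p ∈ B, ((Φ p.1 p.2).card : ℝ) ≤
      r * (2 * (m - 1) + S.card / 2) + X.card * B.card := by
    rw [hsumB]
    refine (Finset.sum_le_sum (fun a _ => hcol a)).trans ?_
    rw [Finset.sum_add_distrib, Finset.sum_const, Finset.card_univ, Fintype.card_fin,
      nsmul_eq_mul]
    have : ∑ a : Fin r, (if a ∈ X then (B.card : ℝ) else 0) = X.card * B.card := by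
      rw [← Finset.sum_filter, Finset.sum_const, nsmul_eq_mul]
      congr 2
      congr 1
      ext a; simp
    rw [this]
  -- exceptional colours
  have hXS1 : 2 * X.card ≤ S1.card := by
    have hfib : ∀ a ∈ X, 2 ≤ (S1.filter (fun p => Φ p.1 p.2 = {a})).card := by
      intro a ha
      simp only [hX, Finset.mem_filter, Finset.mem_univ, true_and] at ha
      obtain ⟨x, hx, y, hy, hxy, he⟩ := ha
      have hsub : ({(x, y), (y, x)} : Finset (V × V)) ⊆ S1.filter (fun p => Φ p.1 p.2 = {a}) := by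
        intro p hp
        simp only [Finset.mem_insert, Finset.mem_singleton] at hp
        simp only [hS1, hS, Finset.mem_filter, Finset.mem_offDiag]
        rcases hp with rfl | rfl
        · simp only [he]
          exact ⟨⟨⟨⟨hx, hy, hxy⟩, by simp⟩, by simp⟩, trivial⟩
        · have he' : Φ y x = {a} := by rw [hPF.sym y x]; exact he
          simp only [he']
          exact ⟨⟨⟨⟨hy, hx, hxy.symm⟩, by simp⟩, by simp⟩, trivial⟩
      have h := Finset.card_le_card hsub
      rwa [Finset.card_pair (by simp [hxy])] at h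
    calc 2 * X.card = ∑ a ∈ X, 2 := by simp [mul_comm]
      _ ≤ ∑ a ∈ X, (S1.filter (fun p => Φ p.1 p.2 = {a})).card := Finset.sum_le_sum hfib
      _ = (X.biUnion (fun a => S1.filter (fun p => Φ p.1 p.2 = {a}))).card := by
          rw [Finset.card_biUnion]
          intro a _ b _ hab
          rw [Function.onFun, Finset.disjoint_left]
          intro p hp hp'
          have h1 := (Finset.mem_filter.mp hp).2
          have h2 := (Finset.mem_filter.mp hp').2
          rw [h1] at h2
          exact hab (Finset.singleton_injective h2)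
      _ ≤ S1.card := by
          apply Finset.card_le_card
          intro p hp
          obtain ⟨a, _, hp⟩ := Finset.mem_biUnion.mp hp
          exact (Finset.mem_filter.mp hp).1
  have hS1S : S1.card ≤ S.card := Finset.card_filter_le _ _
  have hlog4 : 0 ≤ Real.log 4 := Real.log_nonneg (by norm_num)
  have hsmall : ∑ p ∈ S, Real.log ((Φ p.1 p.2).card : ℝ) ≤ (S.card - S1.card) * Real.log 4 := by
    have h1 : ∀ p ∈ S, Real.log ((Φ p.1 p.2).card : ℝ) ≤
        Real.log 4 - (if (Φ p.1 p.2).card = 1 then Real.log 4 else 0) := by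
      intro p hp
      have hp' := Finset.mem_filter.mp hp
      have hpos := hne p hp'.1
      by_cases h : (Φ p.1 p.2).card = 1
      · rw [if_pos h, h]; simp
      · rw [if_neg h, sub_zero]
        apply Real.log_le_log
        · exact_mod_cast hpos
        · have : (Φ p.1 p.2).card ≤ 4 := by omega
          exact_mod_cast this
    refine (Finset.sum_le_sum h1).trans ?_
    rw [Finset.sum_sub_distrib, ← Finset.sum_filter, Finset.sum_const, Finset.sum_const,
      nsmul_eq_mul, nsmul_eq_mul]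
    linarith
  have hbig : ∑ p ∈ B, Real.log ((Φ p.1 p.2).card : ℝ) ≤
      α * B.card + β * ∑ p ∈ B, ((Φ p.1 p.2).card : ℝ) := by
    rw [Finset.mul_sum]
    have : α * B.card = ∑ p ∈ B, α := by rw [Finset.sum_const, nsmul_eq_mul]; ring
    rw [this, ← Finset.sum_add_distrib]
    apply Finset.sum_le_sum
    intro p hp
    exact hlog _ (hne p (Finset.mem_filter.mp hp).1)
  have hsplit : W2 Φ U = ∑ p ∈ B, Real.log ((Φ p.1 p.2).card : ℝ) +
      ∑ p ∈ S, Real.log ((Φ p.1 p.2).card : ℝ) := by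
    unfold W2
    rw [← Finset.sum_filter_add_sum_filter_not U.offDiag (fun p => 5 ≤ (Φ p.1 p.2).card)]
  rw [hsplit]
  have k1 : (2 : ℝ) * X.card ≤ S1.card := by exact_mod_cast hXS1
  have k2 : (S1.card : ℝ) ≤ S.card := by exact_mod_cast hS1S
  have k3 : (0 : ℝ) ≤ X.card := by positivity
  have k4 : (0 : ℝ) ≤ B.card := by positivity
  have k5 : β * ∑ p ∈ B, ((Φ p.1 p.2).card : ℝ) ≤
      β * (r * (2 * (m - 1) + S.card / 2) + X.card * B.card) :=
    mul_le_mul_of_nonneg_left hsumB_le hβ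
  have k6 : (S.card - S1.card) * Real.log 4 ≤ (S.card - 2 * X.card) * Real.log 4 := by
    apply mul_le_mul_of_nonneg_right _ hlog4; linarith
  set θ := α - β * r / 2 - Real.log 4 with hθd
  have k7 : θ * (2 * X.card) ≤ θ * S.card := mul_le_mul_of_nonneg_left (by linarith) hθ
  have hBc : (B.card : ℝ) = m * (m - 1) - S.card := by linarith
  have k8 : β * B.card ≤ 2 * Real.log 4 + 2 * θ := by
    refine le_trans ?_ hb
    apply mul_le_mul_of_nonneg_left _ hβ
    have : (0 : ℝ) ≤ S.card := by positivity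
    linarith
  have k9 : (X.card : ℝ) * (β * B.card) ≤ X.card * (2 * Real.log 4 + 2 * θ) :=
    mul_le_mul_of_nonneg_left k8 k3
  have hαθ : α = θ + β * r / 2 + Real.log 4 := by rw [hθd]; ring
  calc ∑ p ∈ B, Real.log ((Φ p.1 p.2).card : ℝ) + ∑ p ∈ S, Real.log ((Φ p.1 p.2).card : ℝ)
      ≤ (α * B.card + β * (r * (2 * (m - 1) + S.card / 2) + X.card * B.card)) +
        (S.card - 2 * X.card) * Real.log 4 := by linarith
    _ = α * (m * (m - 1)) + 2 * β * r * (m - 1) - θ * S.card +
        (X.card * (β * B.card) - X.card * (2 * Real.log 4)) := by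
        rw [hαθ, hBc]; ring
    _ ≤ α * (m * (m - 1)) + 2 * β * r * (m - 1) := by nlinarith

/-- averaging over vertex deletions. -/
lemma W2_erase_sum (hU : 2 ≤ U.card) :
    ∑ v ∈ U, W2 Φ (U.erase v) = (U.card - 2) * W2 Φ U := by
  unfold W2
  have h1 : ∀ v ∈ U, ∑ p ∈ (U.erase v).offDiag, Real.log ((Φ p.1 p.2).card : ℝ) =
      ∑ p ∈ U.offDiag, (if p.1 ≠ v ∧ p.2 ≠ v then Real.log ((Φ p.1 p.2).card : ℝ) else 0) := by
    intro v _
    rw [← Finset.sum_filter]
    apply Finset.sum_congr _ (fun _ _ => rfl)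
    ext p
    simp only [Finset.mem_offDiag, Finset.mem_erase, Finset.mem_filter]
    tauto
  rw [Finset.sum_congr rfl h1, Finset.sum_comm, Finset.mul_sum]
  apply Finset.sum_congr rfl
  intro p hp
  rw [Finset.mem_offDiag] at hp
  rw [← Finset.sum_filter, Finset.sum_const, nsmul_eq_mul]
  congr 1
  have h2 : U.filter (fun v => p.1 ≠ v ∧ p.2 ≠ v) = (U.erase p.1).erase p.2 := by
    ext v
    simp only [Finset.mem_filter, Finset.mem_erase]
    constructor
    · rintro ⟨a, b, c⟩; exact ⟨c.symm, b.symm, a⟩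
    · rintro ⟨a, b, c⟩; exact ⟨c, b.symm, a.symm⟩
  rw [h2, Finset.card_erase_of_mem (Finset.mem_erase.mpr ⟨hp.2.2.symm, hp.2.1⟩),
    Finset.card_erase_of_mem hp.1]
  have : ((U.card - 1 - 1 : ℕ) : ℝ) = (U.card : ℝ) - 2 := by
    have h3 : U.card - 1 - 1 = U.card - 2 := by omega
    rw [h3, Nat.cast_sub hU]; norm_num
  exact this

/-- density bound propagates upwards. -/
lemma density_up (ρ : ℝ) (n0 : ℕ) (hn0 : 3 ≤ n0)
    (h0 : ∀ U : Finset V, U.card = n0 → W2 Φ U ≤ ρ * (n0 * (n0 - 1))) :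
    ∀ n, n0 ≤ n → ∀ U : Finset V, U.card = n → W2 Φ U ≤ ρ * (n * (n - 1)) := by
  intro n hn
  induction n, hn using Nat.le_induction with
  | base => exact h0
  | succ n hn ih =>
    intro U hU
    have h2 : 2 ≤ U.card := by omega
    have h3 := W2_erase_sum (Φ := Φ) h2
    have h4 : ∑ v ∈ U, W2 Φ (U.erase v) ≤ ∑ v ∈ U, ρ * ((n : ℝ) * (n - 1)) := by
      apply Finset.sum_le_sum
      intro v hv
      apply ih
      rw [Finset.card_erase_of_mem hv, hU]; rfl
    rw [h3, Finset.sum_const, nsmul_eq_mul, hU] at h4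
    push_cast at h4 ⊢
    have hn1 : (0 : ℝ) < (n : ℝ) - 1 := by
      have : (3 : ℝ) ≤ n := by exact_mod_cast hn0.trans hn
      linarith
    have h5 : ((n : ℝ) - 1) * W2 Φ U ≤ ((n : ℝ) - 1) * (ρ * ((n + 1) * (n + 1 - 1))) := by
      have e1 : ((n : ℝ) + 1 - 2) = n - 1 := by ring
      rw [e1] at h4
      calc _ ≤ _ := h4
        _ = _ := by ring
    exact le_of_mul_le_mul_left h5 hn1

end

end Pool.Agent.Lib6a4ab5
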