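import Mathlib
import Pool.Agent.Lib6a4ab5.ListBound

set_option autoImplicit false
set_option linter.unusedSectionVars false
open Finset

namespace Pool.Agent.Lib6a4ab5

/-- `log (129/128)` -/
noncomputable def lam : ℝ := Real.log (129 / 128)
/-- `15 log 128 + 5 log (129/128)` -/
noncomputable def Lam36 : ℝ := 15 * Real.log 128 + 5 * lam

lemma lam_lt : lam < 1 / 128 := by
  unfold lam
  have := Real.log_lt_sub_one_of_pos (show (0 : ℝ) < 129 / 128 by norm_num) (by norm_num)
  linarith

lemma lam_gt : 1 / 129 < lam := by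
  unfold lam
  have := Real.log_lt_sub_one_of_pos (show (0 : ℝ) < 128 / 129 by norm_num) (by norm_num)
  have h2 : Real.log (128 / 129 : ℝ) = - Real.log (129 / 128) := by
    rw [← Real.log_inv]; norm_num
  rw [h2] at this
  linarith

lemma lam_pos : 0 < lam := lt_trans (by norm_num) lam_gt

lemma log128 : Real.log 128 = 7 * Real.log 2 := by
  have : (128 : ℝ) = 2 ^ 7 := by norm_num
  rw [this, Real.log_pow]; norm_num

lemma log4 : Real.log 4 = 2 * Real.log 2 := by
  have : (4 : ℝ) = 2 ^ 2 := by norm_num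
  rw [this, Real.log_pow]; norm_num

lemma log96 : Real.log 96 = 5 * Real.log 2 + Real.log 3 := by
  have : (96 : ℝ) = 2 ^ 5 * 3 := by norm_num
  rw [this, Real.log_mul (by norm_num) (by norm_num), Real.log_pow]; norm_num

/-- chord bound -/
lemma chord (n : ℕ) (hn : 1 ≤ n) : Real.log n ≤ (Real.log 128 - 128 * lam) + lam * n := by
  have hn0 : (0 : ℝ) < n := by exact_mod_cast hn
  rcases le_total 128 n with h | h
  · -- n ≥ 128
    obtain ⟨k, rfl⟩ := Nat.exists_eq_add_of_le h
    have hb := one_add_mul_le_pow (show (-2 : ℝ) ≤ 1 / 128 by norm_num) k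
    have h1 : ((128 + k : ℕ) : ℝ) ≤ 128 * (129 / 128) ^ k := by
      push_cast
      have e : (1 + 1 / 128 : ℝ) = 129 / 128 := by norm_num
      rw [e] at hb
      nlinarith
    have h2 := Real.log_le_log hn0 h1
    rw [Real.log_mul (by norm_num) (by positivity), Real.log_pow] at h2
    unfold lam at *
    push_cast at h2 ⊢
    linarith
  · obtain ⟨k, hk⟩ := Nat.exists_eq_add_of_le h
    have hb := one_add_mul_le_pow (show (-2 : ℝ) ≤ -(1 / 129) by norm_num) k
    have hkn : (n : ℝ) = 128 - k := by
      have : ((128 : ℕ) : ℝ) = n + k := by exact_mod_cast hk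
      push_cast at this; linarith
    have h1 : (n : ℝ) ≤ 128 * (128 / 129) ^ k := by
      have e : (1 + -(1 / 129) : ℝ) = 128 / 129 := by norm_num
      rw [e] at hb
      have hk0 : (0 : ℝ) ≤ k := by positivity
      rw [hkn]
      nlinarith
    have h2 := Real.log_le_log hn0 h1
    rw [Real.log_mul (by norm_num) (by positivity), Real.log_pow] at h2
    have h3 : Real.log (128 / 129 : ℝ) = - Real.log (129 / 128) := by
      rw [← Real.log_inv]; norm_num
    rw [h3] at h2
    unfold lam at *
    rw [hkn] at *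
    linarith

lemma tangent96 (n : ℕ) (hn : 1 ≤ n) : Real.log n ≤ (Real.log 96 - 1) + (1 / 96) * n := by
  have hn0 : (0 : ℝ) < n := by exact_mod_cast hn
  have := Real.log_le_sub_one_of_pos (show (0 : ℝ) < n / 96 by positivity)
  rw [Real.log_div hn0.ne' (by norm_num)] at this
  linarith

section

variable {V : Type*} [DecidableEq V] {Φ : V → V → Finset (Fin 385)} {U : Finset V}

lemma small_m (hPF : PF Φ) (h4 : 4 ≤ U.card) (h16 : U.card ≤ 16) :
    W2 Φ U ≤ (U.card : ℝ) ^ 2 * (Lam36 / 18) := by
  have l1 := lam_lt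
  have l2 := lam_gt
  have g1 := Real.log_two_gt_d9
  have g2 := Real.log_two_lt_d9
  have hm4 : (4 : ℝ) ≤ U.card := by exact_mod_cast h4
  have hm16 : (U.card : ℝ) ≤ 16 := by exact_mod_cast h16
  have hθ : 0 ≤ (Real.log 128 - 128 * lam) - lam * ((385 : ℕ) : ℝ) / 2 - Real.log 4 := by
    rw [log128, log4]; push_cast; linarith
  have hb : lam * ((U.card : ℝ) * (U.card - 1)) ≤ 2 * Real.log 4 +
      2 * ((Real.log 128 - 128 * lam) - lam * ((385 : ℕ) : ℝ) / 2 - Real.log 4) := by
    have : (U.card : ℝ) * (U.card - 1) ≤ 16 * 15 := by nlinarith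
    have h2 : lam * ((U.card : ℝ) * (U.card - 1)) ≤ (1 / 128) * (16 * 15) := by
      apply mul_le_mul l1.le this _ (by norm_num)
      apply mul_nonneg <;> linarith
    have h3 : 0 ≤ Real.log 4 := Real.log_nonneg (by norm_num)
    rw [log4] at *
    linarith
  have hmain := main_ineq hPF h4 (Real.log 128 - 128 * lam) lam lam_pos.le chord hθ hb
  refine hmain.trans ?_
  set α := Real.log 128 - 128 * lam with hα
  have hL : Lam36 = 15 * α + 1925 * lam := by unfold Lam36; rw [hα]; ring
  rw [hL]
  have hA1 : 5 * (1925 * lam - 3 * α) < 2310 * lam := by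
    rw [hα, log128]; linarith
  have hA2 : 2310 * lam < 7 * (1925 * lam - 3 * α) := by
    rw [hα, log128]; linarith
  have hApos : 0 < 1925 * lam - 3 * α := by
    have := lam_pos; linarith
  have hkey : 0 ≤ ((U.card : ℝ) - 6) * ((1925 * lam - 3 * α) * U.card - 2310 * lam) := by
    rcases Nat.lt_or_ge U.card 6 with h | h
    · have h5 : U.card ≤ 5 := by omega
      have h5' : (U.card : ℝ) ≤ 5 := by exact_mod_cast h5
      apply mul_nonneg_of_nonpos_of_nonpos
      · linarith
      · nlinarith
    · rcases Nat.lt_or_ge 6 U.card with h' | h'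
      · have h7 : 7 ≤ U.card := by omega
        have h7' : (7 : ℝ) ≤ U.card := by exact_mod_cast h7
        apply mul_nonneg
        · linarith
        · nlinarith
      · have : U.card = 6 := by omega
        rw [this]; norm_num
  push_cast
  nlinarith [hkey]

/-- density constant -/
noncomputable def rho : ℝ := Real.log 96 - 1 + 385 / 816

lemma rho_lt : rho + 9 / 1000 < Lam36 / 18 := by
  unfold rho Lam36
  rw [log96, log128]
  have l2 := lam_gt
  have g1 := Real.log_two_gt_d9
  have g2 := Real.log_two_lt_d9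
  have g3 := Real.log_three_lt_d9
  linarith

lemma rho_pos : 0 < rho := by
  unfold rho
  rw [log96]
  have g1 := Real.log_two_gt_d9
  have g3 := Real.log_three_gt_d9
  linarith

lemma large_m (hPF : PF Φ) (h17 : 17 ≤ U.card) :
    W2 Φ U ≤ rho * ((U.card : ℝ) * (U.card - 1)) := by
  refine density_up rho 17 (by norm_num) ?_ U.card h17 U rfl
  intro U' hU'
  have g1 := Real.log_two_gt_d9
  have g2 := Real.log_two_lt_d9
  have g3 := Real.log_three_lt_d9
  have g4 := Real.log_three_gt_d9
  have hmain := main_ineq (U := U') hPF (by omega) (Real.log 96 - 1) (1 / 96) (by norm_num)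
    tangent96 ?_ ?_
  · refine hmain.trans (le_of_eq ?_)
    rw [hU']
    unfold rho
    push_cast
    ring
  · rw [log96, log4]; push_cast; linarith
  · rw [hU', log96, log4]; push_cast; linarith

lemma all_m (hPF : PF Φ) (h4 : 4 ≤ U.card) :
    W2 Φ U ≤ (U.card : ℝ) ^ 2 * (Lam36 / 18) := by
  rcases Nat.lt_or_ge U.card 17 with h | h
  · exact small_m hPF h4 (by omega)
  · refine (large_m hPF h).trans ?_
    have h1 := rho_lt
    have h2 := rho_pos
    have h3 : (17 : ℝ) ≤ U.card := by exact_mod_cast h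
    have h4 : (U.card : ℝ) * (U.card - 1) ≤ (U.card : ℝ) ^ 2 := by nlinarith
    calc rho * ((U.card : ℝ) * (U.card - 1)) ≤ rho * (U.card : ℝ) ^ 2 :=
          mul_le_mul_of_nonneg_left h4 h2.le
      _ ≤ (Lam36 / 18) * (U.card : ℝ) ^ 2 := by
          apply mul_le_mul_of_nonneg_right _ (by positivity); linarith
      _ = _ := by ring

end

end Pool.Agent.Lib6a4ab5
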