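import Mathlib
import Pool.Agent.Lib6a4ab5.Numerics
import Pool.Agent.Lib6a4ab5.Blow

set_option autoImplicit false
set_option linter.unusedSectionVars false
open Finset

namespace Pool.Agent.Lib6a4ab5

section

variable {m r : ℕ}

/-- symmetric access -/
def gt {β : Type*} (dflt : β) (y : Prs m → β) (a b : Fin m) : β :=
  if h : a < b then y ⟨(a, b), h⟩ else if h' : b < a then y ⟨(b, a), h'⟩ else dflt

lemma gt_symm {β : Type*} (dflt : β) (y : Prs m → β) (a b : Fin m) :
    gt dflt y a b = gt dflt y b a := by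
  unfold gt
  rcases lt_trichotomy a b with h | h | h
  · rw [dif_pos h, dif_neg (not_lt.mpr h.le), dif_pos h]
  · subst h; rfl
  · rw [dif_neg (not_lt.mpr h.le), dif_pos h, dif_pos h]

lemma gt_prs {β : Type*} (dflt : β) (y : Prs m → β) (j : Prs m) :
    gt dflt y j.1.1 j.1.2 = y j := by
  unfold gt
  rw [dif_pos j.2]

/-- the pattern on four parts -/
def isP0 [NeZero r] (y : Prs m → Fin r) (a b c d : Fin m) : Prop :=
  gt 0 y a b = gt 0 y c d ∧
    [gt 0 y a b, gt 0 y a c, gt 0 y a d, gt 0 y b c, gt 0 y b d].Nodup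

instance [NeZero r] (y : Prs m → Fin r) (a b c d : Fin m) : Decidable (isP0 y a b c d) := by
  unfold isP0; infer_instance

/-- bad transversals -/
def badSet (m r : ℕ) [NeZero r] : Finset (Prs m → Fin r) :=
  univ.filter (fun y => ∃ a b c d : Fin m, a ≠ b ∧ a ≠ c ∧ a ≠ d ∧ b ≠ c ∧ b ≠ d ∧ c ≠ d ∧
    isP0 y a b c d)

lemma PF_of_lists [NeZero r] (φ : Prs m → Finset (Fin r)) (hne : ∀ j, (φ j).Nonempty)
    (hB : ∀ y ∈ badSet m r, ∃ j, y j ∉ φ j) : PF (fun a b => gt ∅ φ a b) where
  sym x y := gt_symm _ _ _ _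
  ne x y hxy := by
    unfold gt
    rcases lt_or_gt_of_ne hxy with h | h
    · rw [dif_pos h]; exact hne _
    · rw [dif_neg (not_lt.mpr h.le), dif_pos h]; exact hne _
  free := by
    intro a b c d hab hac had hbc hbd hcd c0 c1 c2 c3 c4 h0 h0' h1 h2 h3 h4 hnd
    -- the selection
    set sel : Sym2 (Fin m) → Fin r → Fin r := fun e t =>
      if e = s(a, b) ∨ e = s(c, d) then c0 else if e = s(a, c) then c1 else
      if e = s(a, d) then c2 else if e = s(b, c) then c3 else if e = s(b, d) then c4 else t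
      with hsel
    set y : Prs m → Fin r := fun j => sel s(j.1.1, j.1.2) (Classical.choose (hne j)) with hy
    have hgt : ∀ (x z : Fin m) (_ : x ≠ z) (w : Fin r), (∀ t, sel s(x, z) t = w) →
        gt 0 y x z = w := by
      intro x z hxz w hw
      unfold gt
      rcases lt_or_gt_of_ne hxz with h | h
      · rw [dif_pos h]; exact hw _
      · rw [dif_neg (not_lt.mpr h.le), dif_pos h]
        show sel s(z, x) _ = w
        rw [Sym2.eq_swap]; exact hw _
    have e0 : ∀ t, sel s(a, b) t = c0 := by intro t; simp [hsel]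
    have e0' : ∀ t, sel s(c, d) t = c0 := by intro t; simp [hsel]
    have e1 : ∀ t, sel s(a, c) t = c1 := by
      intro t
      simp only [hsel]
      rw [if_neg, if_pos trivial]
      simp only [Sym2.eq_iff, not_or, not_and]
      refine ⟨⟨fun _ h => hbc h.symm, fun h => absurd h hab⟩, ⟨fun h => absurd h hac, fun h => absurd h had⟩⟩
    have e2 : ∀ t, sel s(a, d) t = c2 := by
      intro t
      simp only [hsel]
      rw [if_neg, if_neg, if_pos trivial]
      · simp only [Sym2.eq_iff, not_or, not_and]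
        exact ⟨fun _ h => hcd h.symm, fun h => absurd h hac⟩
      · simp only [Sym2.eq_iff, not_or, not_and]
        exact ⟨⟨fun _ h => hbd h.symm, fun h => absurd h hab⟩,
          ⟨fun h => absurd h hac, fun h => absurd h had⟩⟩
    have e3 : ∀ t, sel s(b, c) t = c3 := by
      intro t
      simp only [hsel]
      rw [if_neg, if_neg, if_neg, if_pos trivial]
      · simp only [Sym2.eq_iff, not_or, not_and]
        exact ⟨fun h => absurd h hab.symm, fun h => absurd h hbd⟩
      · simp only [Sym2.eq_iff, not_or, not_and]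
        exact ⟨fun h => absurd h hab.symm, fun h => absurd h hbc⟩
      · simp only [Sym2.eq_iff, not_or, not_and]
        exact ⟨⟨fun h => absurd h hab.symm, fun _ h => hac h.symm⟩,
          ⟨fun h => absurd h hbc, fun h => absurd h hbd⟩⟩
    have e4 : ∀ t, sel s(b, d) t = c4 := by
      intro t
      simp only [hsel]
      rw [if_neg, if_neg, if_neg, if_neg, if_pos trivial]
      · simp only [Sym2.eq_iff, not_or, not_and]
        exact ⟨fun _ h => hcd h.symm, fun h => absurd h hbc⟩
      · simp only [Sym2.eq_iff, not_or, not_and]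
        exact ⟨fun h => absurd h hab.symm, fun h => absurd h hbd⟩
      · simp only [Sym2.eq_iff, not_or, not_and]
        exact ⟨fun h => absurd h hab.symm, fun h => absurd h hbc⟩
      · simp only [Sym2.eq_iff, not_or, not_and]
        exact ⟨⟨fun h => absurd h hab.symm, fun _ h => had h.symm⟩,
          ⟨fun h => absurd h hbc, fun h => absurd h hbd⟩⟩
    have hyB : y ∈ badSet m r := by
      simp only [badSet, Finset.mem_filter, Finset.mem_univ, true_and]
      refine ⟨a, b, c, d, hab, hac, had, hbc, hbd, hcd, ?_⟩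
      unfold isP0
      rw [hgt a b hab _ e0, hgt c d hcd _ e0', hgt a c hac _ e1, hgt a d had _ e2,
        hgt b c hbc _ e3, hgt b d hbd _ e4]
      exact ⟨rfl, hnd⟩
    obtain ⟨j, hj⟩ := hB y hyB
    apply hj
    have hφ : ∀ x z : Fin m, s(j.1.1, j.1.2) = s(x, z) → gt ∅ φ x z = φ j := by
      intro x z hxz
      rw [← gt_prs ∅ φ j]
      rcases Sym2.eq_iff.mp hxz with ⟨h, h'⟩ | ⟨h, h'⟩
      · rw [h, h']
      · rw [h, h', gt_symm]
    show sel s(j.1.1, j.1.2) (Classical.choose (hne j)) ∈ φ j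
    simp only [hsel]
    split_ifs with g0 g1 g2 g3 g4
    · rcases g0 with g | g
      · rw [← hφ a b g]; exact h0
      · rw [← hφ c d g]; exact h0'
    · rw [← hφ a c g1]; exact h1
    · rw [← hφ a d g2]; exact h2
    · rw [← hφ b c g3]; exact h3
    · rw [← hφ b d g4]; exact h4
    · exact Classical.choose_spec (hne j)

lemma W2_eq_sum (φ : Prs m → Finset (Fin r)) :
    W2 (fun a b => gt ∅ φ a b) (univ : Finset (Fin m)) = 2 * ∑ j, Real.log ((φ j).card : ℝ) := by
  unfold W2
  have hsplit : (univ : Finset (Fin m)).offDiag =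
      (univ.filter (fun p : Fin m × Fin m => p.1 < p.2)) ∪
      (univ.filter (fun p : Fin m × Fin m => p.2 < p.1)) := by
    ext p
    simp only [Finset.mem_offDiag, Finset.mem_univ, true_and, Finset.mem_union,
      Finset.mem_filter]
    exact ne_iff_lt_or_gt
  have hdisj : Disjoint (univ.filter (fun p : Fin m × Fin m => p.1 < p.2))
      (univ.filter (fun p : Fin m × Fin m => p.2 < p.1)) := by
    rw [Finset.disjoint_left]
    intro p hp hp'
    simp only [Finset.mem_filter, Finset.mem_univ, true_and] at hp hp'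
    exact absurd hp (not_lt.mpr hp'.le)
  rw [hsplit, Finset.sum_union hdisj]
  have h1 : ∑ p ∈ univ.filter (fun p : Fin m × Fin m => p.1 < p.2),
      Real.log ((gt ∅ φ p.1 p.2).card : ℝ) = ∑ j, Real.log ((φ j).card : ℝ) := by
    rw [← Finset.sum_subtype_of_mem (p := fun p : Fin m × Fin m => p.1 < p.2)
      (f := fun p => Real.log ((gt ∅ φ p.1 p.2).card : ℝ)) (by simp)]
    apply Finset.sum_bij (fun j _ => j)
    · simp
    · simp
    · intro b _; exact ⟨b, by simp [b.2], rfl⟩
    · intro j _; rw [gt_prs]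
  have h2 : ∑ p ∈ univ.filter (fun p : Fin m × Fin m => p.2 < p.1),
      Real.log ((gt ∅ φ p.1 p.2).card : ℝ) = ∑ j, Real.log ((φ j).card : ℝ) := by
    rw [← h1]
    apply Finset.sum_bij (fun p _ => (p.2, p.1))
    · intro p hp; simpa using hp
    · intro p _ q _ h
      simp only [Prod.mk.injEq] at h
      exact Prod.ext h.2 h.1
    · intro p hp; exact ⟨(p.2, p.1), by simpa using hp, rfl⟩
    · intro p _; rw [gt_symm]
  rw [h1, h2]; ring

end

/-- list bound, all `m ≥ 4` -/
lemma list_bound (m : ℕ) (h4 : 4 ≤ m) (φ : Prs m → Finset (Fin 385)) (hne : ∀ j, (φ j).Nonempty)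
    (hB : ∀ y ∈ badSet m 385, ∃ j, y j ∉ φ j) :
    ∑ j, Real.log ((φ j).card : ℝ) ≤ (m : ℝ) ^ 2 * (Lam36 / 36) := by
  have h := all_m (U := (univ : Finset (Fin m))) (PF_of_lists φ hne hB) (by simpa using h4)
  rw [W2_eq_sum, Finset.card_univ, Fintype.card_fin] at h
  linarith

lemma list_bound_large (m : ℕ) (h17 : 17 ≤ m) (φ : Prs m → Finset (Fin 385))
    (hne : ∀ j, (φ j).Nonempty) (hB : ∀ y ∈ badSet m 385, ∃ j, y j ∉ φ j) :
    ∑ j, Real.log ((φ j).card : ℝ) ≤ rho / 2 * ((m : ℝ) * (m - 1)) := by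
  have h := large_m (U := (univ : Finset (Fin m))) (PF_of_lists φ hne hB) (by simpa using h17)
  rw [W2_eq_sum, Finset.card_univ, Fintype.card_fin] at h
  linarith

end Pool.Agent.Lib6a4ab5
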