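import Mathlib

set_option autoImplicit false

namespace Pool.Agent.Lib6a4ab5

open SimpleGraph

/-- A *pattern* of `K_k`: a partition of the edge set of the complete graph on `Fin k`,
given as an equivalence relation on the edges. -/
abbrev Pattern (k : ℕ) := Setoid (⊤ : SimpleGraph (Fin k)).edgeSet

/-- Under the edge colouring `χ` of `G`, some copy of `K_k` in `G` has pattern `P`: there is an
embedding `f` of `K_k` such that two edges of the copy have the same colour exactly when
the corresponding edges of `K_k` lie in the same class of `P`. -/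
def HasPattern {V : Type} {k r : ℕ} (P : Pattern k) (G : SimpleGraph V)
    (χ : G.edgeSet → Fin r) : Prop :=
  ∃ f : (⊤ : SimpleGraph (Fin k)) ↪g G,
    ∀ e e' : (⊤ : SimpleGraph (Fin k)).edgeSet,
      χ (f.toHom.mapEdgeSet e) = χ (f.toHom.mapEdgeSet e') ↔ P e e'

/-- The number of `(r, P)`-free colourings of `G`, i.e. of maps from the edges of `G` to a set
of `r` colours under which no copy of `K_k` has pattern `P`. -/
noncomputable def numFree (r : ℕ) {k : ℕ} (P : Pattern k) {V : Type} (G : SimpleGraph V) : ℕ :=
  Nat.card {χ : G.edgeSet → Fin r // ¬ HasPattern P G χ}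

/-- An `n`-vertex graph is `(r, P)`-extremal if it has the maximum number of `(r, P)`-free
colourings among all `n`-vertex graphs. -/
def IsExtr (r : ℕ) {k : ℕ} (P : Pattern k) {n : ℕ} (G : SimpleGraph (Fin n)) : Prop :=
  ∀ H : SimpleGraph (Fin n), numFree r P H ≤ numFree r P G

/-- `R = r_1(P)`: `R` is the least natural number such that for every `r ≥ R` there is `n₀` such
that the Turan graph `T_{k-1}(n)` is not `(r, P)`-extremal for all `n ≥ n₀`. -/
def IsR1 {k : ℕ} (P : Pattern k) (R : ℕ) : Prop :=
  IsLeast {R : ℕ | ∀ r ≥ R, ∃ n₀ : ℕ, ∀ n ≥ n₀, ¬ IsExtr r P (turanGraph n (k - 1))} R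

/-- Part sizes differ by at most one. For a complete multipartite graph `G` the part of a
vertex `u` is the set of the vertices that are not adjacent to `u` (including `u`). -/
def IsEquitable {n : ℕ} (G : SimpleGraph (Fin n)) : Prop :=
  ∀ u v : Fin n, Nat.card {w : Fin n // ¬ G.Adj u w} ≤ Nat.card {w : Fin n // ¬ G.Adj v w} + 1

/-- The pattern of `K_4` (vertices `0,1,2,3`) with the five classes
`{01, 23}`, `{02}`, `{03}`, `{12}`, `{13}`. -/
def P0 : Pattern 4 :=
  Setoid.ker fun e => if (e : Sym2 (Fin 4)) = s(2, 3) then s(0, 1) else (e : Sym2 (Fin 4))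

end Pool.Agent.Lib6a4ab5
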