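import Mathlib
import Pool.Agent.Lib6a4ab5.Defs

set_option autoImplicit false
set_option linter.unusedSectionVars false

namespace Pool.Agent.Lib6a4ab5

open SimpleGraph Finset

lemma equitable_iso {n : ℕ} (hn : 1 ≤ n) (G : SimpleGraph (Fin n)) (hG : G.IsCompleteMultipartite)
    (hE : IsEquitable G) : ∃ m, 1 ≤ m ∧ m ≤ n ∧ Nonempty (G ≃g turanGraph n m) := by
  classical
  have : DecidableRel hG.setoid.r := inferInstance
  set fp := Finpartition.ofSetoid hG.setoid with hfp
  have hmem : ∀ s t, t ∈ fp.part s ↔ ¬ G.Adj s t := fun s t =>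
    Finpartition.mem_part_ofSetoid_iff_rel
  have hpart : ∀ s t, ¬ G.Adj s t ↔ fp.part s = fp.part t := by
    intro s t
    rw [← hmem, fp.mem_part_iff_part_eq_part (mem_univ t) (mem_univ s), eq_comm]
  have hcard : ∀ u, (fp.part u).card = Nat.card {w : Fin n // ¬ G.Adj u w} := by
    intro u
    rw [Nat.card_eq_fintype_card, Fintype.card_subtype]
    congr 1
    ext w
    rw [hmem]
    simp
  have hEq : fp.IsEquipartition := by
    by_contra hn
    rw [Finpartition.not_isEquipartition] at hn
    obtain ⟨large, hl, small, hs, ineq⟩ := hn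
    obtain ⟨w, hw⟩ := fp.nonempty_of_mem_parts hl
    obtain ⟨v, hv⟩ := fp.nonempty_of_mem_parts hs
    have large_eq := fp.part_eq_of_mem hl hw
    have small_eq := fp.part_eq_of_mem hs hv
    have := hE w v
    rw [← hcard, ← hcard, large_eq, small_eq] at this
    omega
  obtain ⟨zm, zp⟩ := hEq.exists_partPreservingEquiv
  have hu : (univ : Finset (Fin n)).card = n := by simp
  refine ⟨fp.parts.card, ?_, ?_, ?_⟩
  · rw [Nat.one_le_iff_ne_zero, Finset.card_ne_zero]
    exact ⟨fp.part ⟨0, hn⟩, fp.part_mem.2 (mem_univ _)⟩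
  · have := fp.card_parts_le_card
    rwa [hu] at this
  · refine ⟨⟨((Equiv.subtypeUnivEquiv (fun x => mem_univ x)).symm.trans zm).trans (finCongr hu), ?_⟩⟩
    intro a b
    rw [turanGraph_adj]
    have := zp ⟨a, mem_univ a⟩ ⟨b, mem_univ b⟩
    rw [← hpart] at this
    rw [← not_iff_not, not_ne_iff, this]
    rfl

/-- `numFree` is invariant under isomorphism (one inequality). -/
lemma numFree_iso_le {V W : Type} [Finite V] [Finite W] {r k : ℕ} (P : Pattern k)
    (G : SimpleGraph V) (H : SimpleGraph W) (φ : G ≃g H) : numFree r P G ≤ numFree r P H := by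
  unfold numFree
  have key : ∀ χ : G.edgeSet → Fin r, ¬ HasPattern P G χ →
      ¬ HasPattern P H (fun e => χ (φ.symm.toHom.mapEdgeSet e)) := by
    intro χ hχ ⟨f, hf⟩
    apply hχ
    refine ⟨φ.symm.toEmbedding.comp f, fun e e' => ?_⟩
    rw [← hf e e']
    have h : ∀ e, (φ.symm.toEmbedding.comp f).toHom.mapEdgeSet e =
        φ.symm.toHom.mapEdgeSet (f.toHom.mapEdgeSet e) := by
      rintro ⟨e, he⟩
      induction e using Sym2.ind with
      | _ x y => rfl
    rw [h, h]
  apply Nat.card_le_card_of_injective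
    (fun χ : {χ : G.edgeSet → Fin r // ¬ HasPattern P G χ} =>
      (⟨fun e => χ.1 (φ.symm.toHom.mapEdgeSet e), key χ.1 χ.2⟩ :
        {χ : H.edgeSet → Fin r // ¬ HasPattern P H χ}))
  intro χ ψ h
  apply Subtype.ext
  funext e
  have h1 := congrFun (congrArg Subtype.val h) (φ.toHom.mapEdgeSet e)
  have h2 : φ.symm.toHom.mapEdgeSet (φ.toHom.mapEdgeSet e) = e := by
    obtain ⟨e, he⟩ := e
    induction e using Sym2.ind with
    | _ x y =>
      apply Subtype.ext
      show s(φ.symm (φ x), φ.symm (φ y)) = s(x, y)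
      rw [RelIso.symm_apply_apply, RelIso.symm_apply_apply]
  simp only [h2] at h1
  exact h1

end Pool.Agent.Lib6a4ab5
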