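import Mathlib
import Pool.Agent.Lib6a4ab5.Defs

set_option autoImplicit false
set_option linter.unusedSectionVars false

namespace Pool.Agent.Lib6a4ab5

open SimpleGraph

lemma edges4 (e : (⊤ : SimpleGraph (Fin 4)).edgeSet) :
    e.1 = s(0, 1) ∨ e.1 = s(0, 2) ∨ e.1 = s(0, 3) ∨ e.1 = s(1, 2) ∨ e.1 = s(1, 3) ∨
      e.1 = s(2, 3) := by
  obtain ⟨e, he⟩ := e
  induction e using Sym2.ind with
  | _ x y =>
    rw [mem_edgeSet, top_adj] at he
    revert he
    revert x y
    decide

/-- P0 in terms of vertices: the criterion. -/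
lemma hasP0_iff {V : Type} {r : ℕ} (G : SimpleGraph V) (χ : G.edgeSet → Fin r) :
    HasPattern P0 G χ ↔ ∃ (a b c d : V) (hab : G.Adj a b) (hac : G.Adj a c) (had : G.Adj a d)
      (hbc : G.Adj b c) (hbd : G.Adj b d) (hcd : G.Adj c d),
      χ ⟨s(a, b), hab⟩ = χ ⟨s(c, d), hcd⟩ ∧
      [χ ⟨s(a, b), hab⟩, χ ⟨s(a, c), hac⟩, χ ⟨s(a, d), had⟩, χ ⟨s(b, c), hbc⟩,
        χ ⟨s(b, d), hbd⟩].Nodup := by
  constructor
  · rintro ⟨f, hf⟩
    have adj : ∀ i j : Fin 4, i ≠ j → G.Adj (f i) (f j) := fun i j hij =>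
      f.map_rel_iff.mpr ((top_adj i j).mpr hij)
    have key : ∀ (i j i' j' : Fin 4) (h : i ≠ j) (h' : i' ≠ j'),
        (χ ⟨s(f i, f j), adj i j h⟩ = χ ⟨s(f i', f j'), adj i' j' h'⟩) ↔
        ((if (s(i, j) : Sym2 (Fin 4)) = s(2, 3) then s(0, 1) else s(i, j)) =
          (if (s(i', j') : Sym2 (Fin 4)) = s(2, 3) then s(0, 1) else s(i', j'))) := by
      intro i j i' j' h h'
      exact hf ⟨s(i, j), (top_adj i j).mpr h⟩ ⟨s(i', j'), (top_adj i' j').mpr h'⟩
    refine ⟨f 0, f 1, f 2, f 3, adj 0 1 (by decide), adj 0 2 (by decide), adj 0 3 (by decide),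
      adj 1 2 (by decide), adj 1 3 (by decide), adj 2 3 (by decide), ?_, ?_⟩
    · exact (key 0 1 2 3 (by decide) (by decide)).mpr (by decide)
    · simp only [List.nodup_cons, List.mem_cons, List.not_mem_nil, or_false, not_or,
        not_false_eq_true, List.nodup_nil, and_true]
      refine ⟨⟨?_, ?_, ?_, ?_⟩, ⟨?_, ?_, ?_⟩, ⟨?_, ?_⟩, ?_⟩
      · exact fun h => absurd ((key 0 1 0 2 (by decide) (by decide)).mp h) (by decide)
      · exact fun h => absurd ((key 0 1 0 3 (by decide) (by decide)).mp h) (by decide)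
      · exact fun h => absurd ((key 0 1 1 2 (by decide) (by decide)).mp h) (by decide)
      · exact fun h => absurd ((key 0 1 1 3 (by decide) (by decide)).mp h) (by decide)
      · exact fun h => absurd ((key 0 2 0 3 (by decide) (by decide)).mp h) (by decide)
      · exact fun h => absurd ((key 0 2 1 2 (by decide) (by decide)).mp h) (by decide)
      · exact fun h => absurd ((key 0 2 1 3 (by decide) (by decide)).mp h) (by decide)
      · exact fun h => absurd ((key 0 3 1 2 (by decide) (by decide)).mp h) (by decide)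
      · exact fun h => absurd ((key 0 3 1 3 (by decide) (by decide)).mp h) (by decide)
      · exact fun h => absurd ((key 1 2 1 3 (by decide) (by decide)).mp h) (by decide)
  · rintro ⟨a, b, c, d, hab, hac, had, hbc, hbd, hcd, heq, hnd⟩
    simp only [List.nodup_cons, List.mem_cons, List.not_mem_nil, or_false, not_or,
        not_false_eq_true, List.nodup_nil, and_true] at hnd
    obtain ⟨⟨n1, n2, n3, n4⟩, ⟨n5, n6, n7⟩, ⟨n8, n9⟩, n10⟩ := hnd
    have hadj : ∀ i j : Fin 4, i ≠ j → G.Adj (![a, b, c, d] i) (![a, b, c, d] j) := by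
      intro i j hij
      fin_cases i <;> fin_cases j <;>
        first
        | exact absurd rfl hij
        | assumption
        | exact hab.symm
        | exact hac.symm
        | exact had.symm
        | exact hbc.symm
        | exact hbd.symm
        | exact hcd.symm
    have hinj : Function.Injective ![a, b, c, d] := by
      intro i j h
      by_contra hij
      have := hadj i j hij
      rw [h] at this
      exact G.irrefl this
    let f : (⊤ : SimpleGraph (Fin 4)) ↪g G :=
      { toFun := ![a, b, c, d]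
        inj' := hinj
        map_rel_iff' := by
          intro i j
          constructor
          · intro h
            rw [top_adj]
            rintro rfl
            exact G.irrefl h
          · intro h
            exact hadj i j ((top_adj i j).mp h) }
    refine ⟨f, ?_⟩
    have hval : ∀ (i j : Fin 4) (h : i ≠ j) (e : (⊤ : SimpleGraph (Fin 4)).edgeSet),
        e.1 = s(i, j) → χ (f.toHom.mapEdgeSet e) =
          χ ⟨s(![a, b, c, d] i, ![a, b, c, d] j), hadj i j h⟩ := by
      intro i j h e he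
      have : e = ⟨s(i, j), (top_adj i j).mpr h⟩ := Subtype.ext he
      subst this
      rfl
    intro e e'
    have hP : P0 e e' ↔ ((if (e : Sym2 (Fin 4)) = s(2, 3) then s(0, 1) else (e : Sym2 (Fin 4))) =
      (if (e' : Sym2 (Fin 4)) = s(2, 3) then s(0, 1) else (e' : Sym2 (Fin 4)))) := Iff.rfl
    rw [hP]
    have c01 : ∀ e : (⊤ : SimpleGraph (Fin 4)).edgeSet, e.1 = s(0, 1) →
        χ (f.toHom.mapEdgeSet e) = χ ⟨s(a, b), hab⟩ := fun e h => hval 0 1 (by decide) e h
    have c02 : ∀ e : (⊤ : SimpleGraph (Fin 4)).edgeSet, e.1 = s(0, 2) →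
        χ (f.toHom.mapEdgeSet e) = χ ⟨s(a, c), hac⟩ := fun e h => hval 0 2 (by decide) e h
    have c03 : ∀ e : (⊤ : SimpleGraph (Fin 4)).edgeSet, e.1 = s(0, 3) →
        χ (f.toHom.mapEdgeSet e) = χ ⟨s(a, d), had⟩ := fun e h => hval 0 3 (by decide) e h
    have c12 : ∀ e : (⊤ : SimpleGraph (Fin 4)).edgeSet, e.1 = s(1, 2) →
        χ (f.toHom.mapEdgeSet e) = χ ⟨s(b, c), hbc⟩ := fun e h => hval 1 2 (by decide) e h
    have c13 : ∀ e : (⊤ : SimpleGraph (Fin 4)).edgeSet, e.1 = s(1, 3) →
        χ (f.toHom.mapEdgeSet e) = χ ⟨s(b, d), hbd⟩ := fun e h => hval 1 3 (by decide) e h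
    have c23 : ∀ e : (⊤ : SimpleGraph (Fin 4)).edgeSet, e.1 = s(2, 3) →
        χ (f.toHom.mapEdgeSet e) = χ ⟨s(a, b), hab⟩ := fun e h =>
          (hval 2 3 (by decide) e h).trans heq.symm
    rcases edges4 e with h | h | h | h | h | h <;> rcases edges4 e' with h' | h' | h' | h' | h' | h'
    all_goals
      first
      | rw [c01 e h] | rw [c02 e h] | rw [c03 e h] | rw [c12 e h] | rw [c13 e h] | rw [c23 e h]
    all_goals
      first
      | rw [c01 e' h'] | rw [c02 e' h'] | rw [c03 e' h'] | rw [c12 e' h'] | rw [c13 e' h']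
      | rw [c23 e' h']
    all_goals rw [h, h']
    all_goals
      first
      | exact ⟨fun _ => by decide, fun _ => rfl⟩
      | exact ⟨fun hh => absurd hh (by first | assumption | (intro h2; exact absurd h2.symm (by assumption))), fun hh => absurd hh (by decide)⟩

end Pool.Agent.Lib6a4ab5
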