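import Mathlib
import Pool.Agent.Lib6a4ab5.Pat

set_option autoImplicit false
set_option linter.unusedSectionVars false

namespace Pool.Agent.Lib6a4ab5

open SimpleGraph Finset

section

variable {V : Type} [Fintype V] [DecidableEq V] {q r : ℕ}

/-- colours allowed on an edge, for a palette assignment `pal` and a proper colouring `p`. -/
def lst (G : SimpleGraph V) (p : V → Fin q) (pal : Fin r → Fin q) (e : G.edgeSet) :
    Finset (Fin r) := univ.filter (fun c => ∃ v ∈ (e : Sym2 V), pal c = p v)

lemma palette_lower (G : SimpleGraph V) [DecidableRel G.Adj] (p : V → Fin q)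
    (hp : ∀ u v, G.Adj u v → p u ≠ p v) (pal : Fin r → Fin q) :
    ∏ e : G.edgeSet, (lst G p pal e).card ≤ numFree r P0 G := by
  classical
  have h1 : ∏ e : G.edgeSet, (lst G p pal e).card =
      (Fintype.piFinset (fun e : G.edgeSet => lst G p pal e)).card := by
    rw [Fintype.card_piFinset]
  rw [h1]
  unfold numFree
  rw [Nat.card_eq_fintype_card, Fintype.card_subtype]
  apply Finset.card_le_card
  intro χ hχ
  rw [Fintype.mem_piFinset] at hχ
  rw [Finset.mem_filter]
  refine ⟨Finset.mem_univ _, ?_⟩
  rw [hasP0_iff]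
  rintro ⟨a, b, c, d, hab, hac, had, hbc, hbd, hcd, heq, -⟩
  have m1 := hχ ⟨s(a, b), hab⟩
  have m2 := hχ ⟨s(c, d), hcd⟩
  rw [← heq] at m2
  simp only [lst, Finset.mem_filter, Finset.mem_univ, true_and, Sym2.mem_iff] at m1 m2
  obtain ⟨v, hv, h1⟩ := m1
  obtain ⟨w, hw, h2⟩ := m2
  rw [h1] at h2
  rcases hv with rfl | rfl <;> rcases hw with rfl | rfl
  · exact hp _ _ hac h2
  · exact hp _ _ had h2
  · exact hp _ _ hbc h2
  · exact hp _ _ hbd h2

lemma card_lst (G : SimpleGraph V) (p : V → Fin q) (hp : ∀ u v, G.Adj u v → p u ≠ p v)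
    (pal : Fin r → Fin q) (u v : V) (h : G.Adj u v) :
    (lst G p pal ⟨s(u, v), h⟩).card =
      (univ.filter (fun c => pal c = p u)).card + (univ.filter (fun c => pal c = p v)).card := by
  rw [← Finset.card_union_of_disjoint]
  · congr 1
    ext c
    simp only [lst, Finset.mem_filter, Finset.mem_univ, true_and, Sym2.mem_iff, Finset.mem_union]
    constructor
    · rintro ⟨w, rfl | rfl, hw⟩
      · exact Or.inl hw
      · exact Or.inr hw
    · rintro (hw | hw)
      · exact ⟨u, Or.inl rfl, hw⟩
      · exact ⟨v, Or.inr rfl, hw⟩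
  · rw [Finset.disjoint_left]
    intro c hc hc'
    simp only [Finset.mem_filter, Finset.mem_univ, true_and] at hc hc'
    exact hp u v h (hc.symm.trans hc')

/-- residue palettes: at least `r / 6` colours each -/
lemma palette_card (r s : ℕ) (hs : 6 * s ≤ r) (i : Fin 6) :
    s ≤ (univ.filter (fun c : Fin r => (⟨c.val % 6, Nat.mod_lt _ (by norm_num)⟩ : Fin 6) = i)).card
    := by
  have : (Finset.univ : Finset (Fin s)).card ≤
      (univ.filter (fun c : Fin r => (⟨c.val % 6, Nat.mod_lt _ (by norm_num)⟩ : Fin 6) = i)).card := by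
    apply Finset.card_le_card_of_injOn
      (fun x : Fin s => (⟨6 * x.val + i.val, by have := x.2; have := i.2; omega⟩ : Fin r))
    · intro x _
      simp only [Finset.coe_filter, Finset.mem_univ, true_and, Set.mem_ofPred_eq]
      apply Fin.ext
      have := i.2
      simp only
      omega
    · intro x _ y _ hxy
      simp only [Fin.mk.injEq] at hxy
      exact Fin.ext (by omega)
  simpa using this

/-- uniform lower bound for a properly 6-coloured graph -/
lemma lower6 (G : SimpleGraph V) [DecidableRel G.Adj] (p : V → Fin 6)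
    (hp : ∀ u v, G.Adj u v → p u ≠ p v) (r s : ℕ) (hs : 6 * s ≤ r) :
    (2 * s) ^ G.edgeFinset.card ≤ numFree r P0 G := by
  refine le_trans ?_ (palette_lower G p hp (fun c => ⟨c.val % 6, Nat.mod_lt _ (by norm_num)⟩))
  have : (2 * s) ^ G.edgeFinset.card = ∏ _e : G.edgeSet, (2 * s) := by
    rw [Finset.prod_const, Finset.card_univ, SimpleGraph.edgeFinset_card]
  rw [this]
  apply Finset.prod_le_prod'
  rintro ⟨e, he⟩ _
  induction e using Sym2.ind with
  | _ u v =>
    rw [card_lst G p hp _ u v he]
    have h1 := palette_card r s hs (p u)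
    have h2 := palette_card r s hs (p v)
    omega

/-- trivial upper bound -/
lemma numFree_le (G : SimpleGraph V) [DecidableRel G.Adj] (r : ℕ) {k : ℕ} (P : Pattern k) :
    numFree r P G ≤ r ^ G.edgeFinset.card := by
  classical
  unfold numFree
  rw [Nat.card_eq_fintype_card]
  refine (Fintype.card_subtype_le _).trans ?_
  rw [Fintype.card_fun, Fintype.card_fin]
  rw [SimpleGraph.edgeFinset_card]

end

end Pool.Agent.Lib6a4ab5
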