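import Mathlib
import Pool.Agent.Lib6a4ab5.Lower

set_option autoImplicit false
set_option linter.unusedSectionVars false

namespace Pool.Agent.Lib6a4ab5

open SimpleGraph Finset

lemma not_extr (r : ℕ) (hr : 384 ≤ r) :
    ∃ n₀ : ℕ, ∀ n ≥ n₀, ¬ IsExtr r P0 (turanGraph n 3) := by
  obtain ⟨s, hs⟩ : ∃ s, s = r / 6 := ⟨_, rfl⟩
  have hs64 : 64 ≤ s := by omega
  have hsr : 6 * s ≤ r := by omega
  have hrs : r ≤ 6 * s + 5 := by omega
  have hS : (64 : ℝ) ≤ s := by exact_mod_cast hs64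
  have hpoly : ((6 : ℝ) * s + 5) ^ 4 < (2 * s) ^ 5 := by
    have h1 : (6 : ℝ) * s + 5 ≤ 61 / 10 * s := by linarith
    have h2 : ((6 : ℝ) * s + 5) ^ 4 ≤ (61 / 10 * s) ^ 4 := pow_le_pow_left₀ (by positivity) h1 4
    have h3 : (61 / 10 * (s : ℝ)) ^ 4 < (2 * s) ^ 5 := by
      have e1 : (61 / 10 * (s : ℝ)) ^ 4 = s ^ 4 * (61 / 10) ^ 4 := by ring
      have e2 : (2 * (s : ℝ)) ^ 5 = s ^ 4 * (32 * s) := by ring
      rw [e1, e2]
      apply mul_lt_mul_of_pos_left _ (by positivity)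
      have : ((61 : ℝ) / 10) ^ 4 < 2048 := by norm_num
      linarith
    linarith
  have hD : 0 < 5 * Real.log (2 * s) - 4 * Real.log (6 * s + 5) := by
    have := Real.log_lt_log (by positivity) hpoly
    rw [Real.log_pow, Real.log_pow] at this
    push_cast at this
    linarith
  set D := 5 * Real.log (2 * s) - 4 * Real.log (6 * s + 5) with hDdef
  obtain ⟨n0, hn0⟩ := exists_nat_gt (136 * Real.log (2 * s) / D)
  refine ⟨n0 + 1, fun n hn hext => ?_⟩
  have hle := hext (turanGraph n 6)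
  have hlow := lower6 (turanGraph n 6) (fun v => (⟨v.val % 6, Nat.mod_lt _ (by norm_num)⟩ : Fin 6))
    (fun u v h h' => by
      rw [turanGraph_adj] at h
      exact h (congrArg Fin.val h')) r s hsr
  have hup := numFree_le (turanGraph n 3) r P0
  have hall : (2 * s) ^ (turanGraph n 6).edgeFinset.card ≤ r ^ (turanGraph n 3).edgeFinset.card :=
    hlow.trans (hle.trans hup)
  have he3 : 3 * (turanGraph n 3).edgeFinset.card ≤ n ^ 2 := by
    have := mul_card_edgeFinset_turanGraph_le (n := n) (r := 3)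
    norm_num at this
    omega
  have he6 : 5 * n ^ 2 ≤ 12 * (turanGraph n 6).edgeFinset.card + 136 := by
    have h1 := card_edgeFinset_turanGraph (n := n) (r := 6)
    have h2 : (n % 6) ^ 2 ≤ 25 := by
      have : n % 6 ≤ 5 := by omega
      exact Nat.pow_le_pow_left this 2
    have h3 : (n ^ 2 - (n % 6) ^ 2) * (6 - 1) / (2 * 6) ≤ (turanGraph n 6).edgeFinset.card := by
      rw [h1]; omega
    omega
  have hnpos : (1 : ℝ) ≤ n := by exact_mod_cast (show 1 ≤ n by omega)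
  have he3' : 3 * ((turanGraph n 3).edgeFinset.card : ℝ) ≤ (n : ℝ) ^ 2 := by exact_mod_cast he3
  have he6' : 5 * (n : ℝ) ^ 2 ≤ 12 * ((turanGraph n 6).edgeFinset.card : ℝ) + 136 := by
    exact_mod_cast he6
  have h1 : ((2 : ℝ) * s) ^ (turanGraph n 6).edgeFinset.card ≤
      (r : ℝ) ^ (turanGraph n 3).edgeFinset.card := by exact_mod_cast hall
  have h2 : (r : ℝ) ≤ 6 * s + 5 := by exact_mod_cast hrs
  have hr0 : (0 : ℝ) < r := by exact_mod_cast (show 0 < r by omega)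
  have h3 := Real.log_le_log (by positivity) h1
  rw [Real.log_pow, Real.log_pow] at h3
  have h4 : Real.log r ≤ Real.log (6 * s + 5) := Real.log_le_log hr0 h2
  have h5 : 0 ≤ Real.log (6 * (s : ℝ) + 5) := Real.log_nonneg (by linarith)
  have h6 : 0 ≤ Real.log (2 * (s : ℝ)) := Real.log_nonneg (by linarith)
  have h7 : ((turanGraph n 3).edgeFinset.card : ℝ) * Real.log r ≤
      ((n : ℝ) ^ 2 / 3) * Real.log (6 * s + 5) :=
    mul_le_mul (by linarith) h4 (Real.log_nonneg (by exact_mod_cast (show 1 ≤ r by omega)))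
      (by positivity)
  have h8 : (5 * (n : ℝ) ^ 2 - 136) / 12 * Real.log (2 * s) ≤
      ((turanGraph n 6).edgeFinset.card : ℝ) * Real.log (2 * s) :=
    mul_le_mul_of_nonneg_right (by linarith) h6
  have h9 : (n : ℝ) ^ 2 * D ≤ 136 * Real.log (2 * s) := by
    rw [hDdef]; linarith
  have h10 : 136 * Real.log (2 * s) < n0 * D := by
    rwa [div_lt_iff₀ hD] at hn0
  have h11 : (n0 : ℝ) ≤ (n : ℝ) ^ 2 := by
    have : (n0 : ℝ) ≤ n := by exact_mod_cast (show n0 ≤ n by omega)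
    nlinarith
  have h12 : (n0 : ℝ) * D ≤ (n : ℝ) ^ 2 * D := mul_le_mul_of_nonneg_right h11 hD.le
  linarith

theorem r1_lt : ∃ R, IsR1 P0 R ∧ R < 385 := by
  classical
  have hex : ∃ R : ℕ, ∀ r ≥ R, ∃ n₀ : ℕ, ∀ n ≥ n₀, ¬ IsExtr r P0 (turanGraph n (4 - 1)) :=
    ⟨384, fun r hr => not_extr r hr⟩
  refine ⟨Nat.find hex, ⟨Nat.find_spec hex, fun m hm => Nat.find_min' hex hm⟩, ?_⟩
  have : Nat.find hex ≤ 384 := Nat.find_min' hex (fun r hr => not_extr r hr)
  omega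

lemma P0_ne_bot : P0 ≠ ⊥ := by
  intro h
  have h1 : P0 ⟨s(0, 1), by simp⟩ ⟨s(2, 3), by simp⟩ := by
    show (_ : Sym2 (Fin 4)) = _
    simp
  rw [h] at h1
  have h2 := congrArg Subtype.val (h1 : (_ : (⊤ : SimpleGraph (Fin 4)).edgeSet) = _)
  revert h2
  simp only
  decide

lemma P0_ne_top : P0 ≠ ⊤ := by
  intro h
  have h1 : P0 ⟨s(0, 1), by simp⟩ ⟨s(0, 2), by simp⟩ := by
    rw [h]; trivial
  have h2 : (if (s(0, 1) : Sym2 (Fin 4)) = s(2, 3) then s(0, 1) else (s(0, 1) : Sym2 (Fin 4))) =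
    (if (s(0, 2) : Sym2 (Fin 4)) = s(2, 3) then s(0, 1) else (s(0, 2) : Sym2 (Fin 4))) := h1
  revert h2
  decide

end Pool.Agent.Lib6a4ab5
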