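import Mathlib
import Pool.Agent.Lib6a4ab5.Pat
import Pool.Agent.Lib6a4ab5.Bridge

set_option autoImplicit false
set_option linter.unusedSectionVars false

namespace Pool.Agent.Lib6a4ab5

open SimpleGraph Finset

section

variable {V : Type} [Fintype V] [DecidableEq V] {M s r : ℕ}

/-- edges inside the groups -/
def Inside (G : SimpleGraph V) (g : V → Fin M) : Type :=
  {e : G.edgeSet // ∃ u v, e.1 = s(u, v) ∧ g u = g v}

/-- transported colouring -/
def transp (G : SimpleGraph V) (g : V → Fin M) (hadj : ∀ u v, g u ≠ g v → G.Adj u v)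
    (ρ : Fin M → Fin s → V) (h1 : ∀ i x, g (ρ i x) = i) (χ : G.edgeSet → Fin r) :
    EE M s → Fin r := fun e =>
  χ ⟨s(ρ e.1.1.1 e.2.1, ρ e.1.1.2 e.2.2), hadj _ _ (by
    rw [h1, h1]; exact ne_of_lt e.1.2)⟩

lemma transp_good [NeZero r] (G : SimpleGraph V) (g : V → Fin M)
    (hadj : ∀ u v, g u ≠ g v → G.Adj u v)
    (ρ : Fin M → Fin s → V) (h1 : ∀ i x, g (ρ i x) = i) (χ : G.edgeSet → Fin r)
    (hχ : ¬ HasPattern P0 G χ) : transp G g hadj ρ h1 χ ∈ goodSet M s r (badSet M r) := by
  simp only [goodSet, Finset.mem_filter, Finset.mem_univ, true_and]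
  intro x hbad
  simp only [badSet, Finset.mem_filter, Finset.mem_univ, true_and] at hbad
  obtain ⟨a, b, c, d, hab, hac, had, hbc, hbd, hcd, h0, hnd⟩ := hbad
  apply hχ
  rw [hasP0_iff]
  have adj : ∀ i j : Fin M, i ≠ j → G.Adj (ρ i (x i)) (ρ j (x j)) := fun i j hij =>
    hadj _ _ (by rw [h1, h1]; exact hij)
  have hgt : ∀ (i j : Fin M) (hij : i ≠ j),
      gt 0 (fun j : Prs M => transp G g hadj ρ h1 χ (j, x j.1.1, x j.1.2)) i j =
        χ ⟨s(ρ i (x i), ρ j (x j)), adj i j hij⟩ := by
    intro i j hij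
    unfold gt
    rcases lt_or_gt_of_ne hij with h | h
    · rw [dif_pos h]; rfl
    · rw [dif_neg (not_lt.mpr h.le), dif_pos h]
      exact congrArg χ (Subtype.ext Sym2.eq_swap)
  refine ⟨ρ a (x a), ρ b (x b), ρ c (x c), ρ d (x d), adj a b hab, adj a c hac, adj a d had,
    adj b c hbc, adj b d hbd, adj c d hcd, ?_, ?_⟩
  · rw [hgt a b hab, hgt c d hcd] at h0
    exact h0
  · rw [hgt a b hab, hgt a c hac, hgt a d had, hgt b c hbc, hgt b d hbd] at hnd
    exact hnd

lemma upper_blow [NeZero r] (G : SimpleGraph V) (g : V → Fin M)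
    (hadj : ∀ u v, g u ≠ g v → G.Adj u v)
    (ρ : Fin M → Fin s → V) (h1 : ∀ i x, g (ρ i x) = i) (h2 : ∀ v, ∃ x, ρ (g v) x = v) :
    numFree r P0 G ≤ r ^ (Nat.card (Inside G g)) * (goodSet M s r (badSet M r)).card := by
  classical
  have : Fintype (Inside G g) := by unfold Inside; infer_instance
  unfold numFree
  rw [Nat.card_eq_fintype_card, Nat.card_eq_fintype_card]
  let Ψ : {χ : G.edgeSet → Fin r // ¬ HasPattern P0 G χ} →
      (Inside G g → Fin r) × {y : EE M s → Fin r // y ∈ goodSet M s r (badSet M r)} :=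
    fun χ => (fun e => χ.1 e.1, ⟨transp G g hadj ρ h1 χ.1, transp_good G g hadj ρ h1 χ.1 χ.2⟩)
  have hinj : Function.Injective Ψ := by
    intro χ χ' h
    have ha : ∀ e : Inside G g, χ.1 e.1 = χ'.1 e.1 := fun e => congrFun (congrArg Prod.fst h) e
    have hb : ∀ e : EE M s, transp G g hadj ρ h1 χ.1 e = transp G g hadj ρ h1 χ'.1 e := fun e =>
      congrFun (congrArg (fun z => z.2.1) h) e
    apply Subtype.ext
    funext e
    obtain ⟨e, he⟩ := e
    induction e using Sym2.ind with
    | _ u v =>
      have key : ∀ (u v : V) (he : s(u, v) ∈ G.edgeSet), g u < g v →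
          χ.1 ⟨s(u, v), he⟩ = χ'.1 ⟨s(u, v), he⟩ := by
        intro u v he hlt
        obtain ⟨x, hx⟩ := h2 u
        obtain ⟨y, hy⟩ := h2 v
        have := hb (⟨(g u, g v), hlt⟩, x, y)
        unfold transp at this
        simp only [hx, hy] at this
        exact this
      by_cases hg : g u = g v
      · exact ha ⟨⟨s(u, v), he⟩, u, v, rfl, hg⟩
      · rcases lt_or_gt_of_ne hg with h | h
        · exact key u v he h
        · have he' : s(v, u) ∈ G.edgeSet := by rw [Sym2.eq_swap]; exact he
          have h3 := key v u he' h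
          have h4 : (⟨s(u, v), he⟩ : G.edgeSet) = ⟨s(v, u), he'⟩ := Subtype.ext Sym2.eq_swap
          rw [h4]; exact h3
  have hcard := Fintype.card_le_of_injective Ψ hinj
  refine hcard.trans (le_of_eq ?_)
  rw [Fintype.card_prod, Fintype.card_fun, Fintype.card_fin, Fintype.card_coe]

/-- existence of an enumeration of the fibres. -/
lemma exists_enum (g : V → Fin M) (hne : ∀ i, ∃ v, g v = i)
    (hcard : ∀ i, (univ.filter (fun v => g v = i)).card ≤ s) :
    ∃ ρ : Fin M → Fin s → V, (∀ i x, g (ρ i x) = i) ∧ (∀ v, ∃ x, ρ (g v) x = v) := by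
  classical
  have : ∀ i : Fin M, ∃ f : Fin s → V, (∀ x, g (f x) = i) ∧ ∀ v, g v = i → ∃ x, f x = v := by
    intro i
    obtain ⟨v0, hv0⟩ := hne i
    set A := univ.filter (fun v => g v = i) with hA
    have eA := A.equivFin
    refine ⟨fun x => if h : x.val < A.card then (eA.symm ⟨x.val, h⟩).1 else v0, ?_, ?_⟩
    · intro x
      dsimp only
      split_ifs with h
      · have := (eA.symm ⟨x.val, h⟩).2
        exact (Finset.mem_filter.mp this).2
      · exact hv0
    · intro v hv
      have hvA : v ∈ A := by simp [hA, hv]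
      have hlt : (eA ⟨v, hvA⟩).val < s := lt_of_lt_of_le (eA ⟨v, hvA⟩).2 (hcard i)
      refine ⟨⟨(eA ⟨v, hvA⟩).val, hlt⟩, ?_⟩
      dsimp only
      rw [dif_pos (eA ⟨v, hvA⟩).2]
      simp
  choose f hf1 hf2 using this
  exact ⟨f, fun i x => hf1 i x, fun v => hf2 (g v) v rfl⟩

/-- number of edges inside the groups -/
lemma card_inside (G : SimpleGraph V) (g : V → Fin M)
    (hcard : ∀ i, (univ.filter (fun v => g v = i)).card ≤ s) :
    Nat.card (Inside G g) ≤ M * (s * s) := by
  classical
  have : Fintype (Inside G g) := by unfold Inside; infer_instance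
  rw [Nat.card_eq_fintype_card]
  have h1 : Fintype.card (Inside G g) ≤
      (univ.filter (fun p : V × V => g p.1 = g p.2)).card := by
    rw [← Fintype.card_coe]
    choose u hu using fun e : Inside G g => e.2
    choose v hv using hu
    apply Fintype.card_le_of_injective (fun e : Inside G g =>
      (⟨(u e, v e), by simp [(hv e).2]⟩ : (univ.filter (fun p : V × V => g p.1 = g p.2))))
    intro e e' h
    have h2 : (u e, v e) = (u e', v e') := congrArg Subtype.val h
    have h3 := (hv e).1
    have h4 := (hv e').1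
    rw [Prod.mk.injEq] at h2
    apply Subtype.ext
    apply Subtype.ext
    rw [h3, h4, h2.1, h2.2]
  refine h1.trans ?_
  have h5 : (univ.filter (fun p : V × V => g p.1 = g p.2)).card =
      ∑ i : Fin M, ((univ.filter (fun v => g v = i)) ×ˢ (univ.filter (fun v => g v = i))).card := by
    rw [← Finset.card_biUnion]
    · congr 1
      ext p
      simp only [Finset.mem_filter, Finset.mem_univ, true_and, Finset.mem_biUnion,
        Finset.mem_product]
      constructor
      · intro h; exact ⟨g p.2, h, rfl⟩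
      · rintro ⟨i, h, h'⟩; rw [h, h']
    · intro i _ j _ hij
      rw [Function.onFun, Finset.disjoint_left]
      intro p hp hp'
      simp only [Finset.mem_filter, Finset.mem_univ, true_and, Finset.mem_product] at hp hp'
      exact hij (hp.1.symm.trans hp'.1)
  rw [h5]
  calc _ ≤ ∑ _i : Fin M, s * s := by
        apply Finset.sum_le_sum
        intro i _
        rw [Finset.card_product]
        exact Nat.mul_le_mul (hcard i) (hcard i)
    _ = M * (s * s) := by simp

end

end Pool.Agent.Lib6a4ab5
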