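import Mathlib
import Pool.Agent.Lib6a4ab5.Upper
import Pool.Agent.Lib6a4ab5.BlowBound
import Pool.Agent.Lib6a4ab5.Lower

set_option autoImplicit false
set_option linter.unusedSectionVars false

namespace Pool.Agent.Lib6a4ab5

open SimpleGraph Finset

/-- grouping by residues -/
def grp (n m M : ℕ) (hM : 0 < M) (v : Fin n) : Fin M := ⟨v.val % m % M, Nat.mod_lt _ hM⟩

lemma grp_adj (n m M : ℕ) (hM : 0 < M) (u v : Fin n) (h : grp n m M hM u ≠ grp n m M hM v) :
    (turanGraph n m).Adj u v := by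
  rw [turanGraph_adj]
  intro h'
  apply h
  apply Fin.ext
  show u.val % m % M = v.val % m % M
  rw [h']

lemma grp_surj (n m M : ℕ) (hM : 0 < M) (h1 : M ≤ m) (h2 : m ≤ n) (i : Fin M) :
    ∃ v, grp n m M hM v = i := by
  have := i.2
  refine ⟨⟨i.val, by omega⟩, ?_⟩
  apply Fin.ext
  show i.val % m % M = i.val
  rw [Nat.mod_eq_of_lt (show i.val < m by omega), Nat.mod_eq_of_lt i.2]

lemma fib_le (n m M : ℕ) (hM : 0 < M) (hm : 0 < m) (i : Fin M) :
    (univ.filter (fun v : Fin n => grp n m M hM v = i)).card ≤ n / M + n / m + 1 := by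
  obtain ⟨B, hB⟩ : ∃ B, B = (m - 1) / M + 1 := ⟨_, rfl⟩
  have key : (univ.filter (fun v : Fin n => grp n m M hM v = i)).card ≤
      (Finset.univ : Finset (Fin (n / m * B + (n % m) / M + 1))).card := by
    have hb : ∀ v : ℕ, v % m / M < B := by
      intro v
      have h1 : v % m ≤ m - 1 := by have := Nat.mod_lt v hm; omega
      have := Nat.div_le_div_right (c := M) h1
      omega
    have hbound : ∀ v : ℕ, v < n → v / m * B + v % m / M < n / m * B + (n % m) / M + 1 := by
      intro v hv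
      have h1 : v / m ≤ n / m := Nat.div_le_div_right hv.le
      rcases Nat.lt_or_ge (v / m) (n / m) with h | h
      · have h2 := hb v
        have h3 : (v / m + 1) * B ≤ n / m * B := Nat.mul_le_mul_right _ h
        rw [Nat.add_mul, Nat.one_mul] at h3
        have h4 := Nat.zero_le (n % m / M)
        omega
      · have heq : v / m = n / m := le_antisymm h1 h
        rw [heq]
        have h4 : v % m ≤ n % m := by
          have e1 := Nat.div_add_mod v m
          have e2 := Nat.div_add_mod n m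
          rw [heq] at e1
          omega
        have := Nat.div_le_div_right (c := M) h4
        omega
    apply Finset.card_le_card_of_injOn
      (fun v : Fin n => (⟨v.val / m * B + v.val % m / M, hbound v.val v.2⟩ :
        Fin (n / m * B + (n % m) / M + 1)))
    · intro v _
      simp
    · intro v hv w hw hvw
      rw [Finset.mem_coe, Finset.mem_filter] at hv hw
      have hv2 := congrArg Fin.val hv.2
      have hw2 := congrArg Fin.val hw.2
      simp only [grp] at hv2 hw2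
      simp only [Fin.mk.injEq] at hvw
      have h1 := hb v.val
      have h2 := hb w.val
      have e1 : v.val / m = w.val / m := by
        have a1 : (v.val / m * B + v.val % m / M) / B = v.val / m := by
          rw [Nat.add_comm, Nat.add_mul_div_right _ _ (lt_of_le_of_lt (Nat.zero_le _) h1),
            Nat.div_eq_of_lt h1, Nat.zero_add]
        have a2 : (w.val / m * B + w.val % m / M) / B = w.val / m := by
          rw [Nat.add_comm, Nat.add_mul_div_right _ _ (lt_of_le_of_lt (Nat.zero_le _) h2),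
            Nat.div_eq_of_lt h2, Nat.zero_add]
        rw [← a1, ← a2, hvw]
      have e2 : v.val % m / M = w.val % m / M := by
        rw [e1] at hvw; omega
      have e3 : v.val % m = w.val % m := by
        rw [← Nat.div_add_mod (v.val % m) M, ← Nat.div_add_mod (w.val % m) M, e2, hv2, hw2]
      apply Fin.ext
      rw [← Nat.div_add_mod v.val m, ← Nat.div_add_mod w.val m, e1, e3]
  refine key.trans ?_
  rw [Finset.card_univ, Fintype.card_fin, hB]
  have h1 : n / m * ((m - 1) / M) ≤ (n / m * (m - 1)) / M := Nat.mul_div_le_mul_div_assoc _ _ _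
  have h2 : (n / m * (m - 1)) / M + n % m / M ≤ (n / m * (m - 1) + n % m) / M :=
    Nat.div_add_div_le_add_div
  have h3 : n / m * (m - 1) + n % m ≤ n := by
    have := Nat.div_add_mod n m
    have h4 : n / m * (m - 1) ≤ m * (n / m) := by
      rw [Nat.mul_comm]; exact Nat.mul_le_mul_right _ (by omega)
    omega
  have h5 := Nat.div_le_div_right (c := M) h3
  rw [Nat.mul_add, Nat.mul_one]
  omega

lemma fib_le_small (n m : ℕ) (hm : 0 < m) (i : Fin m) :
    (univ.filter (fun v : Fin n => grp n m m hm v = i)).card ≤ n / m + 1 := by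
  have key : (univ.filter (fun v : Fin n => grp n m m hm v = i)).card ≤
      (Finset.univ : Finset (Fin (n / m + 1))).card := by
    apply Finset.card_le_card_of_injOn
      (fun v : Fin n => (⟨v.val / m, by
        have := Nat.div_le_div_right (c := m) v.2.le; omega⟩ : Fin (n / m + 1)))
    · intro v _
      simp
    · intro v hv w hw hvw
      rw [Finset.mem_coe, Finset.mem_filter] at hv hw
      have hv2 := congrArg Fin.val hv.2
      have hw2 := congrArg Fin.val hw.2
      simp only [grp, Nat.mod_mod] at hv2 hw2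
      simp only [Fin.mk.injEq] at hvw
      apply Fin.ext
      rw [← Nat.div_add_mod v.val m, ← Nat.div_add_mod w.val m, hvw, hv2, hw2]
  simpa using key

lemma log385 : Real.log 385 ≤ 104 / 12 * Real.log 2 := by
  have h : ((385 : ℝ)) ^ 12 ≤ 2 ^ 104 := by norm_num
  have h2 := Real.log_le_log (by positivity) h
  rw [Real.log_pow, Real.log_pow] at h2
  push_cast at h2
  linarith

lemma Lam36_lo : 105 * Real.log 2 < Lam36 := by
  unfold Lam36
  rw [log128]
  have := lam_pos
  linarith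

lemma Lam36_hi : Lam36 < 73 := by
  unfold Lam36
  rw [log128]
  have := lam_lt
  have g2 := Real.log_two_lt_d9
  linarith

/-- small number of parts -/
lemma turan_le3 (n m : ℕ) (hn : 1 ≤ n) (h1 : 1 ≤ m) (h3 : m ≤ 3) :
    Real.log (numFree 385 P0 (turanGraph n m)) < (n : ℝ) ^ 2 * (Lam36 / 36 + 2 / 10 ^ 6) := by
  have g1 := Real.log_two_gt_d9
  have hL := Lam36_lo
  have hn' : (1 : ℝ) ≤ n := by exact_mod_cast hn
  have hpos : (0 : ℝ) < (n : ℝ) ^ 2 * (Lam36 / 36 + 2 / 10 ^ 6) := by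
    apply mul_pos (by positivity)
    linarith
  rcases Nat.eq_zero_or_pos (numFree 385 P0 (turanGraph n m)) with h0 | h0
  · rw [h0]; simpa using hpos
  have hle := numFree_le (turanGraph n m) 385 P0
  have hedge : 3 * (turanGraph n m).edgeFinset.card ≤ n ^ 2 := by
    have := mul_card_edgeFinset_turanGraph_le (n := n) (r := m)
    interval_cases m
    · simp only [Nat.sub_self, Nat.zero_mul, Nat.mul_one] at this; omega
    · norm_num at this; omega
    · norm_num at this; omega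
  have hedge' : 3 * ((turanGraph n m).edgeFinset.card : ℝ) ≤ (n : ℝ) ^ 2 := by exact_mod_cast hedge
  have h4 : (numFree 385 P0 (turanGraph n m) : ℝ) ≤
      (385 : ℝ) ^ (turanGraph n m).edgeFinset.card := by exact_mod_cast hle
  have h5 := Real.log_le_log (by exact_mod_cast h0) h4
  rw [Real.log_pow] at h5
  have h6 := log385
  have h7 : ((turanGraph n m).edgeFinset.card : ℝ) * Real.log 385 ≤
      ((n : ℝ) ^ 2 / 3) * (104 / 12 * Real.log 2) := by
    apply mul_le_mul (by linarith) h6 (Real.log_nonneg (by norm_num)) (by positivity)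
  have h8 : ((n : ℝ) ^ 2 / 3) * (104 / 12 * Real.log 2) = (n : ℝ) ^ 2 * (104 * Real.log 2 / 36) := by
    ring
  have h9 : (n : ℝ) ^ 2 * (104 * Real.log 2 / 36) < (n : ℝ) ^ 2 * (Lam36 / 36 + 2 / 10 ^ 6) := by
    apply mul_lt_mul_of_pos_left _ (by positivity)
    linarith
  linarith

/-- middle number of parts -/
lemma turan_mid (m : ℕ) (h4 : 4 ≤ m) : ∃ n0 : ℕ, ∀ n ≥ n0,
    Real.log (numFree 385 P0 (turanGraph n m)) < (n : ℝ) ^ 2 * (Lam36 / 36 + 2 / 10 ^ 6) := by
  have hL1 := Lam36_hi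
  have hL0 : 0 < Lam36 := lt_trans (by positivity) Lam36_lo
  have hm0 : (0 : ℝ) < m := by exact_mod_cast (show 0 < m by omega)
  obtain ⟨N0, hN0⟩ := blow_bound m 385 (badSet m 385) (c := (m : ℝ) ^ 2 * (Lam36 / 36))
    (by positivity) (list_bound m h4) ((m : ℝ) ^ 2 * (1 / 10 ^ 6)) (by positivity)
  refine ⟨m * N0 + 10 ^ 7 * m, fun n hn => ?_⟩
  have hm : 0 < m := by omega
  have hnm : 10 ^ 7 * m ≤ n := by omega
  have hn1 : (10 : ℝ) ^ 7 * m ≤ n := by exact_mod_cast hnm
  have hnpos : (0 : ℝ) < n := by nlinarith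
  have hpos : (0 : ℝ) < (n : ℝ) ^ 2 * (Lam36 / 36 + 2 / 10 ^ 6) := by positivity
  set s := n / m + 1 with hs
  have hsN : N0 ≤ s := by
    have h1 : N0 * m ≤ n := by rw [Nat.mul_comm]; omega
    have := (Nat.le_div_iff_mul_le hm).mpr h1
    omega
  have hgood := hN0 s hsN
  obtain ⟨ρ, hρ1, hρ2⟩ := exists_enum (s := s) (grp n m m hm)
    (grp_surj n m m hm le_rfl (by omega)) (fib_le_small n m hm)
  have hup := upper_blow (r := 385) (turanGraph n m) (grp n m m hm) (grp_adj n m m hm) ρ hρ1 hρ2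
  have hin : Nat.card (Inside (turanGraph n m) (grp n m m hm)) = 0 := by
    have : IsEmpty (Inside (turanGraph n m) (grp n m m hm)) := by
      constructor
      rintro ⟨⟨e, he⟩, u, v, huv, hg⟩
      simp only at huv
      subst huv
      rw [SimpleGraph.mem_edgeSet, turanGraph_adj] at he
      apply he
      have := congrArg Fin.val hg
      simpa [grp] using this
    exact Nat.card_of_isEmpty
  rw [hin, pow_zero, one_mul] at hup
  rcases Nat.eq_zero_or_pos (numFree 385 P0 (turanGraph n m)) with h0 | h0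
  · rw [h0]; simpa using hpos
  have h5 : (numFree 385 P0 (turanGraph n m) : ℝ) ≤ ((goodSet m s 385 (badSet m 385)).card : ℝ) := by
    exact_mod_cast hup
  have h6 := Real.log_le_log (by exact_mod_cast h0) h5
  refine lt_of_le_of_lt (h6.trans hgood) ?_
  have hs1 : (m : ℝ) * s ≤ n + m := by
    have h1 : m * (n / m) ≤ n := Nat.mul_div_le n m
    have h2 : m * s ≤ n + m := by rw [hs, Nat.mul_add]; omega
    exact_mod_cast h2
  have hs0 : (0 : ℝ) ≤ (m : ℝ) * s := by positivity
  have e1 : ((m : ℝ) ^ 2 * (Lam36 / 36) + (m : ℝ) ^ 2 * (1 / 10 ^ 6)) * (s : ℝ) ^ 2 =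
      (Lam36 / 36 + 1 / 10 ^ 6) * ((m : ℝ) * s) ^ 2 := by ring
  rw [e1]
  have e2 : ((m : ℝ) * s) ^ 2 ≤ (n + m) ^ 2 := pow_le_pow_left₀ hs0 hs1 2
  have e3 : ((n : ℝ) + m) ^ 2 ≤ (n : ℝ) ^ 2 * (1 + 3 / 10 ^ 7) := by nlinarith
  calc (Lam36 / 36 + 1 / 10 ^ 6) * ((m : ℝ) * s) ^ 2
      ≤ (Lam36 / 36 + 1 / 10 ^ 6) * ((n : ℝ) ^ 2 * (1 + 3 / 10 ^ 7)) := by
        apply mul_le_mul_of_nonneg_left (e2.trans e3) (by positivity)
    _ = (n : ℝ) ^ 2 * ((Lam36 / 36 + 1 / 10 ^ 6) * (1 + 3 / 10 ^ 7)) := by ring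
    _ < (n : ℝ) ^ 2 * (Lam36 / 36 + 2 / 10 ^ 6) := by
        apply mul_lt_mul_of_pos_left _ (by positivity)
        linarith

/-- large number of parts -/
lemma turan_big : ∃ n0 : ℕ, ∀ n ≥ n0, ∀ m : ℕ, 2 * 10 ^ 7 ≤ m → m ≤ n →
    Real.log (numFree 385 P0 (turanGraph n m)) < (n : ℝ) ^ 2 * (Lam36 / 36 + 2 / 10 ^ 6) := by
  have hL0 : 0 < Lam36 := lt_trans (by positivity) Lam36_lo
  have hr := rho_pos
  obtain ⟨M, hM2⟩ : ∃ M : ℕ, M = 2000 := ⟨_, rfl⟩
  have hMR : (M : ℝ) = 2000 := by rw [hM2]; norm_num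
  obtain ⟨N0, hN0⟩ := blow_bound M 385 (badSet M 385)
    (c := rho / 2 * ((M : ℝ) * ((M : ℝ) - 1)))
    (by rw [hMR]; nlinarith) (list_bound_large M (by omega)) 4 (by norm_num)
  refine ⟨2000 * N0 + 10 ^ 8, fun n hn m hm hmn => ?_⟩
  have hn1 : (10 : ℝ) ^ 8 ≤ n := by
    have : 10 ^ 8 ≤ n := by omega
    exact_mod_cast this
  have hnpos : (0 : ℝ) < n := by linarith [show (0 : ℝ) < 10 ^ 8 by norm_num]
  have hpos : (0 : ℝ) < (n : ℝ) ^ 2 * (Lam36 / 36 + 2 / 10 ^ 6) := by positivity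
  have hM : 0 < M := by omega
  have hm0 : 0 < m := by omega
  obtain ⟨s, hs⟩ : ∃ s, s = n / M + n / m + 1 := ⟨_, rfl⟩
  have hsN : N0 ≤ s := by
    rw [hs, hM2]
    generalize n / m = e
    omega
  have hgood := hN0 s hsN
  have hfib : ∀ i, (univ.filter (fun v : Fin n => grp n m M hM v = i)).card ≤ s := by
    rw [hs]; exact fib_le n m M hM hm0
  obtain ⟨ρ, hρ1, hρ2⟩ := exists_enum (s := s) (grp n m M hM)
    (grp_surj n m M hM (by omega) hmn) hfib
  have hup := upper_blow (r := 385) (turanGraph n m) (grp n m M hM)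
    (grp_adj n m M hM) ρ hρ1 hρ2
  have hin := card_inside (s := s) (turanGraph n m) (grp n m M hM) hfib
  rcases Nat.eq_zero_or_pos (numFree 385 P0 (turanGraph n m)) with h0 | h0
  · rw [h0]; simpa using hpos
  obtain ⟨I, hI⟩ : ∃ I, I = Nat.card (Inside (turanGraph n m) (grp n m M hM)) := ⟨_, rfl⟩
  rw [← hI] at hup hin
  obtain ⟨γ, hγ⟩ : ∃ γ, γ = (goodSet M s 385 (badSet M 385)).card := ⟨_, rfl⟩
  rw [← hγ] at hup hgood
  have hgpos : 0 < γ := by
    rcases Nat.eq_zero_or_pos γ with h | h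
    · rw [h, Nat.mul_zero] at hup; omega
    · exact h
  have h5 : (numFree 385 P0 (turanGraph n m) : ℝ) ≤ (385 : ℝ) ^ I * (γ : ℝ) := by
    exact_mod_cast hup
  have h6 := Real.log_le_log (by exact_mod_cast h0) h5
  have hgpos' : (0 : ℝ) < (γ : ℝ) := by exact_mod_cast hgpos
  rw [Real.log_mul (by positivity) hgpos'.ne', Real.log_pow] at h6
  have hs2 : (s : ℝ) ≤ n * (50006 / 10 ^ 8) := by
    have a1 : ((n / M : ℕ) : ℝ) ≤ (n : ℝ) / M := Nat.cast_div_le
    have a2 : ((n / m : ℕ) : ℝ) ≤ (n : ℝ) / m := Nat.cast_div_le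
    have a3 : (n : ℝ) / m ≤ n / (2 * 10 ^ 7) := by
      apply div_le_div_of_nonneg_left hnpos.le (by norm_num)
      exact_mod_cast hm
    rw [hs]
    push_cast
    rw [hMR] at a1
    linarith
  have hs3 : (s : ℝ) ^ 2 ≤ (n : ℝ) ^ 2 * (25007 / 10 ^ 11) := by
    have := pow_le_pow_left₀ (by positivity) hs2 2
    refine this.trans ?_
    rw [mul_pow]
    apply mul_le_mul_of_nonneg_left _ (by positivity)
    norm_num
  have hI2 : (I : ℝ) ≤ 2000 * (s : ℝ) ^ 2 := by
    have : (I : ℝ) ≤ ((M * (s * s) : ℕ) : ℝ) := by exact_mod_cast hin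
    push_cast at this
    rw [hMR] at this
    linarith
  have hl385 : Real.log 385 ≤ 601 / 100 := by
    have := log385
    have g2 := Real.log_two_lt_d9
    linarith
  have hl385' : 0 ≤ Real.log 385 := Real.log_nonneg (by norm_num)
  have h7 : (I : ℝ) * Real.log 385 ≤ 2000 * (s : ℝ) ^ 2 * (601 / 100) :=
    mul_le_mul hI2 hl385 hl385' (by positivity)
  have h8 := rho_lt
  have hrho : rho < 4.1 := by
    have := Lam36_hi
    linarith
  have h9 : Real.log (numFree 385 P0 (turanGraph n m)) ≤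
      (2000 * (601 / 100) + rho / 2 * (2000 * 1999) + 4) * (s : ℝ) ^ 2 := by
    rw [hMR] at hgood
    have : (2000 * (601 / 100) + rho / 2 * (2000 * 1999) + 4) * (s : ℝ) ^ 2 =
      2000 * (s : ℝ) ^ 2 * (601 / 100) + (rho / 2 * (2000 * (2000 - 1)) + 4) * (s : ℝ) ^ 2 := by ring
    rw [this]
    exact h6.trans (add_le_add h7 hgood)
  refine lt_of_le_of_lt h9 ?_
  calc (2000 * (601 / 100) + rho / 2 * (2000 * 1999) + 4) * (s : ℝ) ^ 2
      ≤ (2000 * (601 / 100) + rho / 2 * (2000 * 1999) + 4) * ((n : ℝ) ^ 2 * (25007 / 10 ^ 11)) := by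
        apply mul_le_mul_of_nonneg_left hs3 (by positivity)
    _ = (n : ℝ) ^ 2 * ((2000 * (601 / 100) + rho / 2 * (2000 * 1999) + 4) * (25007 / 10 ^ 11)) := by
        ring
    _ < (n : ℝ) ^ 2 * (Lam36 / 36 + 2 / 10 ^ 6) := by
        apply mul_lt_mul_of_pos_left _ (by positivity)
        linarith

/-- all numbers of parts -/
lemma turan_all : ∃ n0 : ℕ, ∀ n ≥ n0, ∀ m : ℕ, 1 ≤ m → m ≤ n →
    Real.log (numFree 385 P0 (turanGraph n m)) < (n : ℝ) ^ 2 * (Lam36 / 36 + 2 / 10 ^ 6) := by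
  obtain ⟨nb, hb⟩ := turan_big
  have hmid : ∀ m : ℕ, ∃ n0 : ℕ, 4 ≤ m → ∀ n ≥ n0,
    Real.log (numFree 385 P0 (turanGraph n m)) < (n : ℝ) ^ 2 * (Lam36 / 36 + 2 / 10 ^ 6) := by
    intro m
    by_cases h : 4 ≤ m
    · obtain ⟨n0, h0⟩ := turan_mid m h
      exact ⟨n0, fun _ => h0⟩
    · exact ⟨0, fun h' => absurd h' h⟩
  choose f hf using hmid
  refine ⟨1 + nb + (Finset.range (2 * 10 ^ 7)).sup f, fun n hn m h1 hmn => ?_⟩
  rcases Nat.lt_or_ge m 4 with h | h
  · exact turan_le3 n m (by omega) h1 (by omega)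
  · rcases Nat.lt_or_ge m (2 * 10 ^ 7) with h' | h'
    · apply hf m h
      have : f m ≤ (Finset.range (2 * 10 ^ 7)).sup f := Finset.le_sup (Finset.mem_range.mpr h')
      omega
    · exact hb n (by omega) m h' hmn

end Pool.Agent.Lib6a4ab5
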