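import Mathlib
import Pool.Agent.Lib6a4ab5.Lower
import Pool.Agent.Lib6a4ab5.Numerics

set_option autoImplicit false
set_option linter.unusedSectionVars false

namespace Pool.Agent.Lib6a4ab5

open SimpleGraph Finset

/-- the parts of the unbalanced 6-partite graph -/
def pU (j : ℕ) (v : Fin (6000 * j)) : Fin 6 :=
  if v.val < 1005 * j then 0 else ⟨1 + (v.val - 1005 * j) % 5, by omega⟩

/-- the unbalanced 6-partite graph on `6000 j` vertices -/
def UG (j : ℕ) : SimpleGraph (Fin (6000 * j)) := (⊤ : SimpleGraph (Fin 6)).comap (pU j)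

lemma UG_adj (j : ℕ) (u v : Fin (6000 * j)) : (UG j).Adj u v ↔ pU j u ≠ pU j v := Iff.rfl

/-- palette by residue mod 6 -/
def pal6 (c : Fin 385) : Fin 6 := ⟨c.val % 6, Nat.mod_lt _ (by norm_num)⟩

lemma pal6_zero : 65 ≤ (univ.filter (fun c : Fin 385 => pal6 c = 0)).card := by
  have : (Finset.univ : Finset (Fin 65)).card ≤
      (univ.filter (fun c : Fin 385 => pal6 c = 0)).card := by
    apply Finset.card_le_card_of_injOn
      (fun x : Fin 65 => (⟨6 * x.val, by have := x.2; omega⟩ : Fin 385))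
    · intro x _
      rw [Finset.mem_coe, Finset.mem_filter]
      refine ⟨Finset.mem_univ _, ?_⟩
      apply Fin.ext
      simp [pal6]
    · intro x _ y _ hxy
      simp only [Fin.mk.injEq] at hxy
      exact Fin.ext (by omega)
  simpa using this

lemma pal6_all (i : Fin 6) : 64 ≤ (univ.filter (fun c : Fin 385 => pal6 c = i)).card :=
  palette_card 385 64 (by norm_num) i

/-- index set of edges of the unbalanced graph -/
abbrev IU (j : ℕ) := (Fin (1005 * j) × Fin (4995 * j)) ⊕
  ({p : Fin 5 × Fin 5 // p.1 < p.2} × Fin (999 * j) × Fin (999 * j))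


/-- first type of edges -/
def fU1 (j : ℕ) (x : Fin (1005 * j) × Fin (4995 * j)) : Fin (6000 * j) × Fin (6000 * j) :=
  (⟨x.1.val, by have := x.1.2; omega⟩, ⟨1005 * j + x.2.val, by have := x.2.2; omega⟩)

/-- second type of edges -/
def fU2 (j : ℕ) (x : {p : Fin 5 × Fin 5 // p.1 < p.2} × Fin (999 * j) × Fin (999 * j)) :
    Fin (6000 * j) × Fin (6000 * j) :=
  (⟨1005 * j + (5 * x.2.1.val + x.1.1.1.val), by have := x.2.1.2; have := x.1.1.1.2; omega⟩,
   ⟨1005 * j + (5 * x.2.2.val + x.1.1.2.val), by have := x.2.2.2; have := x.1.1.2.2; omega⟩)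

lemma pU_f1a (j : ℕ) (x) : pU j (fU1 j x).1 = 0 := by
  unfold pU fU1
  rw [if_pos x.1.2]

lemma pU_f1b (j : ℕ) (x) : (pU j (fU1 j x).2).val = 1 + x.2.val % 5 := by
  unfold pU fU1
  rw [if_neg (by simp)]
  simp

lemma pU_f2a (j : ℕ) (x) : (pU j (fU2 j x).1).val = 1 + x.1.1.1.val := by
  have := x.1.1.1.2
  unfold pU fU2
  rw [if_neg (by simp)]
  simp only
  omega

lemma pU_f2b (j : ℕ) (x) : (pU j (fU2 j x).2).val = 1 + x.1.1.2.val := by
  have := x.1.1.2.2
  unfold pU fU2
  rw [if_neg (by simp)]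
  simp only
  omega

lemma adj1 (j : ℕ) (x) : (UG j).Adj (fU1 j x).1 (fU1 j x).2 := by
  rw [UG_adj]
  intro h
  have h1 := pU_f1a j x
  have h2 := pU_f1b j x
  rw [← h, h1] at h2
  simp at h2
  omega

lemma adj2 (j : ℕ) (x) : (UG j).Adj (fU2 j x).1 (fU2 j x).2 := by
  rw [UG_adj]
  intro h
  have h1 := pU_f2a j x
  have h2 := pU_f2b j x
  rw [h, h2] at h1
  have h3 : x.1.1.1.val < x.1.1.2.val := x.1.2
  omega

/-- edges -/
def fU (j : ℕ) : IU j → (UG j).edgeSet := fun x => match x with
  | Sum.inl x => ⟨s((fU1 j x).1, (fU1 j x).2), adj1 j x⟩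
  | Sum.inr x => ⟨s((fU2 j x).1, (fU2 j x).2), adj2 j x⟩

lemma fU_inj (j : ℕ) : Function.Injective (fU j) := by
  intro x y h
  have h' : (fU j x).1 = (fU j y).1 := congrArg Subtype.val h
  rcases x with x | x <;> rcases y with y | y
  · simp only [fU, fU1, Sym2.eq_iff, Fin.mk.injEq] at h'
    have := x.1.2
    have := y.1.2
    rcases h' with ⟨h1, h2⟩ | ⟨h1, h2⟩
    · congr 1
      exact Prod.ext (Fin.ext h1) (Fin.ext (by omega))
    · omega
  · exfalso
    simp only [fU, fU1, fU2, Sym2.eq_iff, Fin.mk.injEq] at h'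
    have := x.1.2
    omega
  · exfalso
    simp only [fU, fU1, fU2, Sym2.eq_iff, Fin.mk.injEq] at h'
    have := y.1.2
    omega
  · simp only [fU, fU2, Sym2.eq_iff, Fin.mk.injEq] at h'
    obtain ⟨⟨⟨a, b⟩, hab⟩, p, q⟩ := x
    obtain ⟨⟨⟨a', b'⟩, hab'⟩, p', q'⟩ := y
    have hab1 : a.val < b.val := hab
    have hab2 : a'.val < b'.val := hab'
    have := a.2
    have := b.2
    have := a'.2
    have := b'.2
    simp only at h'
    rcases h' with ⟨h1, h2⟩ | ⟨h1, h2⟩
    · have e1 : a.val = a'.val := by omega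
      have e2 : b.val = b'.val := by omega
      have e3 : p.val = p'.val := by omega
      have e4 : q.val = q'.val := by omega
      obtain rfl := Fin.ext e1
      obtain rfl := Fin.ext e2
      obtain rfl := Fin.ext e3
      obtain rfl := Fin.ext e4
      rfl
    · omega

lemma lower_U (j : ℕ) :
    129 ^ ((1005 * j) * (4995 * j)) * 128 ^ (10 * ((999 * j) * (999 * j))) ≤
      numFree 385 P0 (UG j) := by
  classical
  have hp : ∀ u v, (UG j).Adj u v → pU j u ≠ pU j v := fun u v h => h
  refine le_trans ?_ (palette_lower (UG j) (pU j) hp pal6)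
  have hpos : ∀ e : (UG j).edgeSet, 128 ≤ (lst (UG j) (pU j) pal6 e).card := by
    rintro ⟨e, he⟩
    induction e using Sym2.ind with
    | _ u v =>
      rw [card_lst (UG j) (pU j) hp pal6 u v he]
      have h1 := pal6_all (pU j u)
      have h2 := pal6_all (pU j v)
      omega
  have hpos0 : ∀ e : (UG j).edgeSet, (∃ v ∈ (e : Sym2 (Fin (6000 * j))), pU j v = 0) →
      129 ≤ (lst (UG j) (pU j) pal6 e).card := by
    rintro ⟨e, he⟩
    induction e using Sym2.ind with
    | _ u v =>
      rintro ⟨w, hw, hw0⟩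
      rw [card_lst (UG j) (pU j) hp pal6 u v he]
      have h1 := pal6_all (pU j u)
      have h2 := pal6_all (pU j v)
      have h0 := pal6_zero
      simp only [Sym2.mem_iff] at hw
      rcases hw with rfl | rfl
      · rw [hw0] at h1 ⊢; omega
      · rw [hw0] at h2 ⊢; omega
  have himg : ∏ e ∈ Finset.univ.image (fU j), (lst (UG j) (pU j) pal6 e).card ≤
      ∏ e : (UG j).edgeSet, (lst (UG j) (pU j) pal6 e).card := by
    apply Finset.prod_le_prod_of_subset_of_one_le' (Finset.subset_univ _)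
    intro e _ _
    have := hpos e
    omega
  refine le_trans ?_ himg
  rw [Finset.prod_image (fun x _ y _ h => fU_inj j h)]
  rw [Fintype.prod_sum_type]
  apply Nat.mul_le_mul
  · have : 129 ^ ((1005 * j) * (4995 * j)) =
        ∏ _x : Fin (1005 * j) × Fin (4995 * j), 129 := by
      rw [Finset.prod_const, Finset.card_univ, Fintype.card_prod, Fintype.card_fin,
        Fintype.card_fin]
    rw [this]
    apply Finset.prod_le_prod'
    intro x _
    apply hpos0
    exact ⟨(fU1 j x).1, by simp [fU], pU_f1a j x⟩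
  · have h10 : Fintype.card {p : Fin 5 × Fin 5 // p.1 < p.2} = 10 := by decide
    have : 128 ^ (10 * ((999 * j) * (999 * j))) =
        ∏ _x : {p : Fin 5 × Fin 5 // p.1 < p.2} × Fin (999 * j) × Fin (999 * j), 128 := by
      rw [Finset.prod_const, Finset.card_univ, Fintype.card_prod, Fintype.card_prod,
        Fintype.card_fin, h10]
    rw [this]
    apply Finset.prod_le_prod'
    intro x _
    exact hpos _

lemma log_lower_U (j : ℕ) :
    ((6000 * j : ℕ) : ℝ) ^ 2 * (Lam36 / 36 + 2 / 10 ^ 6) ≤ Real.log (numFree 385 P0 (UG j)) := by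
  have h := lower_U j
  have h1 : (((129 ^ ((1005 * j) * (4995 * j)) * 128 ^ (10 * ((999 * j) * (999 * j))) : ℕ)) : ℝ) ≤
      (numFree 385 P0 (UG j) : ℝ) := by exact_mod_cast h
  have h2 := Real.log_le_log (by positivity) h1
  refine le_trans ?_ h2
  push_cast
  rw [Real.log_mul (by positivity) (by positivity), Real.log_pow, Real.log_pow]
  have h129 : Real.log 129 = Real.log 128 + lam := by
    unfold lam
    rw [← Real.log_mul (by norm_num) (by norm_num)]
    norm_num
  rw [h129]
  unfold Lam36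
  have l2 := lam_gt
  have g2 := Real.log_two_lt_d9
  have hj : (0 : ℝ) ≤ (j : ℝ) ^ 2 := by positivity
  have key : 72 ≤ 19975 * lam - 15 * Real.log 128 := by
    rw [log128]; linarith
  push_cast
  nlinarith [mul_le_mul_of_nonneg_left key hj]

end Pool.Agent.Lib6a4ab5
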