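import Mathlib
import Pool.Agent.Lib6a4ab5.Pat

set_option autoImplicit false
set_option linter.unusedSectionVars false

namespace Pool.Agent.Lib6a4ab5

open SimpleGraph Finset

section

variable {V : Type} {r : ℕ}

/-- pattern under a total colouring -/
def hp (G : SimpleGraph V) (χ : Sym2 V → Fin r) : Prop :=
  ∃ w : Fin 4 → V, (∀ i j, i ≠ j → G.Adj (w i) (w j)) ∧ χ s(w 0, w 1) = χ s(w 2, w 3) ∧
    [χ s(w 0, w 1), χ s(w 0, w 2), χ s(w 0, w 3), χ s(w 1, w 2), χ s(w 1, w 3)].Nodup

lemma hp_map {H : SimpleGraph V} {χ ψ : Sym2 V → Fin r} (w : Fin 4 → V) (f : V → V)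
    (hadj : ∀ i j, i ≠ j → H.Adj (f (w i)) (f (w j)))
    (hcol : ∀ i j, i ≠ j → ψ s(f (w i), f (w j)) = χ s(w i, w j))
    (h0 : χ s(w 0, w 1) = χ s(w 2, w 3))
    (hnd : [χ s(w 0, w 1), χ s(w 0, w 2), χ s(w 0, w 3), χ s(w 1, w 2), χ s(w 1, w 3)].Nodup) :
    hp H ψ := by
  refine ⟨fun i => f (w i), hadj, ?_, ?_⟩
  · rw [hcol 0 1 (by decide), hcol 2 3 (by decide)]; exact h0
  · rw [hcol 0 1 (by decide), hcol 0 2 (by decide), hcol 0 3 (by decide), hcol 1 2 (by decide),
      hcol 1 3 (by decide)]
    exact hnd

lemma hp_iff (G : SimpleGraph V) (χ : G.edgeSet → Fin r) (c : Sym2 V → Fin r)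
    (hc : ∀ e (h : e ∈ G.edgeSet), c e = χ ⟨e, h⟩) : HasPattern P0 G χ ↔ hp G c := by
  rw [hasP0_iff]
  constructor
  · rintro ⟨a, b, c', d, hab, hac, had, hbc, hbd, hcd, h0, hnd⟩
    refine ⟨![a, b, c', d], ?_, ?_, ?_⟩
    · intro i j hij
      fin_cases i <;> fin_cases j <;>
        first
        | exact absurd rfl hij
        | assumption
        | exact hab.symm
        | exact hac.symm
        | exact had.symm
        | exact hbc.symm
        | exact hbd.symm
        | exact hcd.symm
    · rw [← hc _ hab, ← hc _ hcd] at h0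
      exact h0
    · rw [← hc _ hab, ← hc _ hac, ← hc _ had, ← hc _ hbc, ← hc _ hbd] at hnd
      exact hnd
  · rintro ⟨w, hw, h0, hnd⟩
    have h01 := hw 0 1 (by decide)
    have h02 := hw 0 2 (by decide)
    have h03 := hw 0 3 (by decide)
    have h12 := hw 1 2 (by decide)
    have h13 := hw 1 3 (by decide)
    have h23 := hw 2 3 (by decide)
    refine ⟨w 0, w 1, w 2, w 3, h01, h02, h03, h12, h13, h23, ?_, ?_⟩
    · rw [← hc _ h01, ← hc _ h23]; exact h0
    · rw [← hc _ h01, ← hc _ h02, ← hc _ h03, ← hc _ h12, ← hc _ h13]; exact hnd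

variable [Fintype V] [DecidableEq V]

open Classical in
/-- normalised total free colourings -/
noncomputable def CC (r : ℕ) [NeZero r] (G : SimpleGraph V) : Finset (Sym2 V → Fin r) :=
  univ.filter (fun c => (∀ e, e ∉ G.edgeSet → c e = 0) ∧ ¬ hp G c)

lemma mem_CC [NeZero r] (G : SimpleGraph V) (c : Sym2 V → Fin r) :
    c ∈ CC r G ↔ (∀ e, e ∉ G.edgeSet → c e = 0) ∧ ¬ hp G c := by
  simp [CC]

lemma card_CC [NeZero r] (G : SimpleGraph V) : (CC r G).card = numFree r P0 G := by
  classical
  unfold numFree
  have h1 : (CC r G).card = Nat.card {c // c ∈ CC r G} := by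
    rw [Nat.card_eq_fintype_card, Fintype.card_coe]
  rw [h1]
  apply Nat.card_congr
  exact {
    toFun := fun c => ⟨fun e => c.1 e.1, by
      have h := (mem_CC G c.1).mp c.2
      rw [hp_iff G _ c.1 (fun e he => rfl)]
      exact h.2⟩
    invFun := fun χ => ⟨fun e => if h : e ∈ G.edgeSet then χ.1 ⟨e, h⟩ else 0, by
      rw [mem_CC]
      refine ⟨fun e he => dif_neg he, ?_⟩
      rw [← hp_iff G χ.1 _ (fun e he => dif_pos he)]
      exact χ.2⟩
    left_inv := by
      rintro ⟨c, hc⟩
      apply Subtype.ext
      funext e
      simp only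
      split_ifs with h
      · rfl
      · exact (((mem_CC G c).mp hc).1 e h).symm
    right_inv := by
      rintro ⟨χ, hχ⟩
      apply Subtype.ext
      funext e
      simp only
      rw [dif_pos e.2] }

/-- isolate a vertex -/
def del (G : SimpleGraph V) (v : V) : SimpleGraph V where
  Adj x y := G.Adj x y ∧ x ≠ v ∧ y ≠ v
  symm := ⟨fun _ _ h => ⟨h.1.symm, h.2.2, h.2.1⟩⟩
  loopless := ⟨fun _ h => G.irrefl h.1⟩

/-- forget colours at two vertices -/
def rst [NeZero r] (u v : V) (c : Sym2 V → Fin r) : Sym2 V → Fin r :=
  fun e => if u ∈ e ∨ v ∈ e then 0 else c e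

lemma rst_comm [NeZero r] (u v : V) : rst (r := r) u v = rst v u := by
  funext c e
  unfold rst
  simp only [or_comm]

/-- pairs agreeing away from `u, v` -/
def PR [NeZero r] (u v : V) (A B : Finset (Sym2 V → Fin r)) :
    Finset ((Sym2 V → Fin r) × (Sym2 V → Fin r)) :=
  (A ×ˢ B).filter (fun p => rst u v p.1 = rst u v p.2)

lemma PR_card [NeZero r] (u v : V) (A B : Finset (Sym2 V → Fin r)) :
    (PR u v A B).card = ∑ t : Sym2 V → Fin r,
      (A.filter (fun a => rst u v a = t)).card * (B.filter (fun b => rst u v b = t)).card := by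
  classical
  have : PR u v A B = univ.biUnion (fun t : Sym2 V → Fin r =>
      (A.filter (fun a => rst u v a = t)) ×ˢ (B.filter (fun b => rst u v b = t))) := by
    ext p
    simp only [PR, Finset.mem_filter, Finset.mem_product, Finset.mem_biUnion, Finset.mem_univ,
      true_and]
    constructor
    · rintro ⟨⟨h1, h2⟩, h3⟩
      exact ⟨rst u v p.2, ⟨h1, h3⟩, h2, rfl⟩
    · rintro ⟨t, ⟨h1, h2⟩, h3, h4⟩
      exact ⟨⟨h1, h3⟩, h2.trans h4.symm⟩
  rw [this, Finset.card_biUnion]
  · apply Finset.sum_congr rfl
    intro t _
    rw [Finset.card_product]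
  · intro t _ t' _ htt'
    rw [Function.onFun, Finset.disjoint_left]
    intro p hp hp'
    simp only [Finset.mem_product, Finset.mem_filter] at hp hp'
    exact htt' (hp.1.2.symm.trans hp'.1.2)

lemma PR_ineq [NeZero r] (u v : V) (A B : Finset (Sym2 V → Fin r)) :
    2 * (PR u v A B).card ≤ (PR u v A A).card + (PR u v B B).card := by
  rw [PR_card, PR_card, PR_card, Finset.mul_sum, ← Finset.sum_add_distrib]
  apply Finset.sum_le_sum
  intro t _
  set x := (A.filter (fun a => rst u v a = t)).card
  set y := (B.filter (fun b => rst u v b = t)).card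
  have h := two_mul_le_add_sq (x : ℤ) y
  have h2 : (2 * (x * y) : ℤ) ≤ x * x + y * y := by nlinarith
  exact_mod_cast h2

/-- step 1 -/
lemma step1 [NeZero r] (G : SimpleGraph V) (u v : V) (hne : u ≠ v) (huv : ¬ G.Adj u v) :
    (CC r G).card ≤ (PR u v (CC r (del G v)) (CC r (del G u))).card := by
  apply Finset.card_le_card_of_injOn
    (fun χ => (fun e => if v ∈ e then 0 else χ e, fun e => if u ∈ e then 0 else χ e))
  · intro χ hχ
    rw [Finset.mem_coe, mem_CC] at hχ
    rw [Finset.mem_coe, PR, Finset.mem_filter, Finset.mem_product]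
    have gen : ∀ w : V, (fun e => if w ∈ e then 0 else χ e) ∈ CC r (del G w) := by
      intro w
      rw [mem_CC]
      constructor
      · intro e he
        split_ifs with h
        · rfl
        · apply hχ.1
          intro he'
          apply he
          induction e using Sym2.ind with
          | _ x y =>
            rw [Sym2.mem_iff, not_or] at h
            exact ⟨he', fun h' => h.1 h'.symm, fun h' => h.2 h'.symm⟩
      · rintro ⟨w', hw, h0, hnd⟩
        apply hχ.2
        refine hp_map (χ := fun e => if w ∈ e then 0 else χ e) w' id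
          (fun i j hij => (hw i j hij).1) ?_ h0 hnd
        intro i j hij
        have h := hw i j hij
        dsimp only [id]
        rw [if_neg]
        rw [Sym2.mem_iff, not_or]
        exact ⟨fun h' => h.2.1 h'.symm, fun h' => h.2.2 h'.symm⟩
    refine ⟨⟨gen v, gen u⟩, ?_⟩
    funext e
    unfold rst
    dsimp only
    by_cases hu : u ∈ e
    · simp [hu]
    · by_cases hv : v ∈ e
      · simp [hv]
      · simp [hu, hv]
  · intro χ hχ ψ hψ h
    rw [Finset.mem_coe, mem_CC] at hχ hψ
    rw [Prod.mk.injEq] at h
    funext e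
    have h1 := congrFun h.1 e
    have h2 := congrFun h.2 e
    by_cases hv : v ∈ e
    · by_cases hu : u ∈ e
      · have hne : e ∉ G.edgeSet := by
          induction e using Sym2.ind with
          | _ x y =>
            rw [Sym2.mem_iff] at hu hv
            intro hxy
            rw [mem_edgeSet] at hxy
            rcases hu with rfl | rfl <;> rcases hv with rfl | rfl
            · exact hne rfl
            · exact huv hxy
            · exact huv hxy.symm
            · exact hne rfl
        rw [hχ.1 e hne, hψ.1 e hne]
      · rwa [if_neg hu, if_neg hu] at h2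
    · rwa [if_neg hv, if_neg hv] at h1

/-- replace `v` by `u` -/
def fuv (u v : V) (x : V) : V := if x = v then u else x

/-- glue two colourings on the clone graph -/
def glue [NeZero r] (u v : V) (p : (Sym2 V → Fin r) × (Sym2 V → Fin r)) : Sym2 V → Fin r :=
  fun e => if v ∈ e then (if u ∈ e then 0 else p.2 (e.map (fuv u v))) else p.1 e

/-- step 2 -/
lemma step2 [NeZero r] (G : SimpleGraph V) (u v : V) (hne : u ≠ v) :
    (PR u v (CC r (del G v)) (CC r (del G v))).card ≤ (CC r (G.replaceVertex u v)).card := by
  have hadj1 : ∀ x y, x ≠ v → y ≠ v → ((G.replaceVertex u v).Adj x y ↔ G.Adj x y) :=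
    fun x y hx hy => G.adj_replaceVertex_iff_of_ne u hx hy
  have hadj2 : ∀ y, y ≠ v → ((G.replaceVertex u v).Adj v y ↔ G.Adj u y) :=
    fun y hy => G.adj_replaceVertex_iff_of_ne_right u hy
  have hnuv : ¬ (G.replaceVertex u v).Adj u v := by
    intro h
    have h2 := (hadj2 u hne).mp h.symm
    exact G.irrefl h2
  apply Finset.card_le_card_of_injOn (glue u v)
  · rintro ⟨a, a'⟩ hp
    rw [Finset.mem_coe, PR, Finset.mem_filter, Finset.mem_product, mem_CC, mem_CC] at hp
    obtain ⟨⟨⟨ha1, ha2⟩, ⟨hb1, hb2⟩⟩, hr⟩ := hp
    simp only at ha1 ha2 hb1 hb2 hr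
    have hagree : ∀ e, u ∉ e → v ∉ e → a e = a' e := by
      intro e hu hv
      have := congrFun hr e
      unfold rst at this
      rwa [if_neg (by simp [hu, hv]), if_neg (by simp [hu, hv])] at this
    rw [Finset.mem_coe, mem_CC]
    constructor
    · intro e he
      unfold glue
      split_ifs with hv hu
      · rfl
      · apply hb1
        intro h'
        apply he
        induction e using Sym2.ind with
        | _ x y =>
          rw [Sym2.mem_iff, not_or] at hu
          rw [Sym2.map_mk, mem_edgeSet] at h'
          simp only [fuv] at h'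
          rw [mem_edgeSet]
          rw [Sym2.mem_iff] at hv
          have hadj := h'.1
          rcases hv with rfl | rfl
          · rw [if_pos rfl] at hadj
            by_cases hy : y = v
            · rw [if_pos hy] at hadj; exact absurd hadj (G.irrefl)
            · rw [if_neg hy] at hadj
              exact (hadj2 y hy).mpr hadj
          · rw [if_pos rfl] at hadj
            by_cases hx : x = v
            · rw [if_pos hx] at hadj; exact absurd hadj (G.irrefl)
            · rw [if_neg hx] at hadj
              exact ((hadj2 x hx).mpr hadj.symm).symm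
      · apply ha1
        intro h'
        apply he
        induction e using Sym2.ind with
        | _ x y =>
          rw [Sym2.mem_iff, not_or] at hv
          exact (hadj1 x y (fun h => hv.1 h.symm) (fun h => hv.2 h.symm)).mpr h'.1
    · rintro ⟨w, hw, h0, hnd⟩
      by_cases hvw : ∃ i, w i = v
      · obtain ⟨i0, hi0⟩ := hvw
        have hu : ∀ i, w i ≠ u := by
          intro i hi
          have hii : i ≠ i0 := by
            rintro rfl
            exact hne (hi.symm.trans hi0)
          have := hw i i0 hii
          rw [hi, hi0] at this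
          exact hnuv this
        apply hb2
        refine hp_map (χ := glue u v (a, a')) w (fuv u v) ?_ ?_ h0 hnd
        · intro i j hij
          have h := hw i j hij
          unfold fuv
          by_cases hi : w i = v
          · have hj : w j ≠ v := by
              intro hj; rw [hi, hj] at h; exact (G.replaceVertex u v).irrefl h
            rw [if_pos hi, if_neg hj]
            rw [hi, hadj2 _ hj] at h
            exact ⟨h, hne, hj⟩
          · by_cases hj : w j = v
            · rw [if_neg hi, if_pos hj]
              have h := h.symm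
              rw [hj, hadj2 _ hi] at h
              exact ⟨h.symm, hi, hne⟩
            · rw [if_neg hi, if_neg hj]
              exact ⟨(hadj1 _ _ hi hj).mp h, hi, hj⟩
        · intro i j hij
          unfold glue
          have hu' : u ∉ s(w i, w j) := by
            rw [Sym2.mem_iff, not_or]
            exact ⟨fun h => hu i h.symm, fun h => hu j h.symm⟩
          by_cases hv : v ∈ s(w i, w j)
          · rw [if_pos hv, if_neg hu', Sym2.map_mk]
          · rw [if_neg hv]
            show a' _ = a _
            rw [hagree _ hu' hv]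
            rw [Sym2.mem_iff, not_or] at hv
            unfold fuv
            rw [if_neg (fun h => hv.1 h.symm), if_neg (fun h => hv.2 h.symm)]
      · push Not at hvw
        apply ha2
        refine hp_map (χ := glue u v (a, a')) w id ?_ ?_ h0 hnd
        · intro i j hij
          exact ⟨(hadj1 _ _ (hvw i) (hvw j)).mp (hw i j hij), hvw i, hvw j⟩
        · intro i j hij
          unfold glue
          rw [if_neg]
          · rfl
          · rw [Sym2.mem_iff, not_or]
            exact ⟨fun h => hvw i h.symm, fun h => hvw j h.symm⟩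
  · rintro ⟨a, a'⟩ hp ⟨b, b'⟩ hq h
    rw [Finset.mem_coe, PR, Finset.mem_filter, Finset.mem_product, mem_CC, mem_CC] at hp hq
    obtain ⟨⟨⟨ha1, ha2⟩, ⟨ha1', ha2'⟩⟩, hr⟩ := hp
    obtain ⟨⟨⟨hb1, hb2⟩, ⟨hb1', hb2'⟩⟩, hs⟩ := hq
    simp only at ha1 ha1' hb1 hb1' hr hs
    have hz : ∀ e, v ∈ e → e ∉ (del G v).edgeSet := by
      intro e he
      induction e using Sym2.ind with
      | _ x y =>
        rw [Sym2.mem_iff] at he
        intro h
        rw [mem_edgeSet] at h
        rcases he with rfl | rfl
        · exact h.2.1 rfl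
        · exact h.2.2 rfl
    have hab : a = b := by
      funext e
      by_cases hv : v ∈ e
      · rw [ha1 e (hz e hv), hb1 e (hz e hv)]
      · have := congrFun h e
        unfold glue at this
        rwa [if_neg hv, if_neg hv] at this
    refine Prod.ext hab ?_
    funext e
    by_cases hv : v ∈ e
    · show a' e = b' e
      rw [ha1' e (hz e hv), hb1' e (hz e hv)]
    · by_cases hu : u ∈ e
      · show a' e = b' e
        induction e using Sym2.ind with
        | _ x y =>
          rw [Sym2.mem_iff, not_or] at hv
          rw [Sym2.mem_iff] at hu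
          have key : ∀ y, y ≠ v → a' s(u, y) = b' s(u, y) := by
            intro y hy
            by_cases hyu : y = u
            · subst hyu
              have : s(y, y) ∉ (del G v).edgeSet := fun h => (del G v).irrefl h
              rw [ha1' _ this, hb1' _ this]
            · have := congrFun h s(v, y)
              unfold glue at this
              have hv' : v ∈ s(v, y) := by simp
              have hu' : u ∉ s(v, y) := by
                rw [Sym2.mem_iff, not_or]; exact ⟨hne, fun h => hyu h.symm⟩
              rw [if_pos hv', if_neg hu', if_pos hv', if_neg hu', Sym2.map_mk] at this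
              simpa [fuv, hy] using this
          rcases hu with rfl | rfl
          · exact key y (fun h => hv.2 h.symm)
          · rw [Sym2.eq_swap]
            exact key x (fun h => hv.1 h.symm)
      · have h1 := congrFun hr e
        have h2 := congrFun hs e
        unfold rst at h1 h2
        rw [if_neg (by simp [hu, hv]), if_neg (by simp [hu, hv])] at h1 h2
        show a' e = b' e
        rw [← h1, ← h2, hab]

/-- the symmetrisation inequality -/
lemma zykov [NeZero r] (G : SimpleGraph V) (u v : V) (hne : u ≠ v) (huv : ¬ G.Adj u v) :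
    2 * numFree r P0 G ≤ numFree r P0 (G.replaceVertex u v) +
      numFree r P0 (G.replaceVertex v u) := by
  rw [← card_CC, ← card_CC, ← card_CC]
  have h1 := step1 (r := r) G u v hne huv
  have h2 := PR_ineq (r := r) u v (CC r (del G v)) (CC r (del G u))
  have h3 := step2 (r := r) G u v hne
  have h4 := step2 (r := r) G v u hne.symm
  have h5 : PR (r := r) u v (CC r (del G u)) (CC r (del G u)) =
      PR v u (CC r (del G u)) (CC r (del G u)) := by
    unfold PR
    rw [rst_comm]
  rw [h5] at h2
  omega

end

section

variable {n r : ℕ}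

lemma ext_replace [NeZero r] (G : SimpleGraph (Fin n)) (hG : IsExtr r P0 G) (u v : Fin n)
    (hne : u ≠ v) (huv : ¬ G.Adj u v) : IsExtr r P0 (G.replaceVertex u v) := by
  intro H
  have h1 := zykov (r := r) G u v hne huv
  have h2 := hG (G.replaceVertex v u)
  have h3 := hG H
  omega

lemma ec_eq (G : SimpleGraph (Fin n)) [Fintype G.edgeSet] :
    G.edgeFinset.card = Nat.card G.edgeSet := by
  rw [Nat.card_eq_fintype_card, edgeFinset_card]

/-- there is a complete multipartite extremal graph -/
lemma exists_multipartite (n r : ℕ) [NeZero r] :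
    ∃ G : SimpleGraph (Fin n), IsExtr r P0 G ∧ G.IsCompleteMultipartite := by
  classical
  obtain ⟨G0, hG0⟩ : ∃ G : SimpleGraph (Fin n), IsExtr r P0 G :=
    Finite.exists_max (fun G : SimpleGraph (Fin n) => numFree r P0 G)
  have : Nonempty {G : SimpleGraph (Fin n) // IsExtr r P0 G} := ⟨⟨G0, hG0⟩⟩
  obtain ⟨⟨G, hG⟩, hmax⟩ := Finite.exists_max
    (fun G : {G : SimpleGraph (Fin n) // IsExtr r P0 G} => Nat.card G.1.edgeSet)
  have hmax' : ∀ H : SimpleGraph (Fin n), IsExtr r P0 H → Nat.card H.edgeSet ≤ Nat.card G.edgeSet :=
    fun H hH => hmax ⟨H, hH⟩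
  have hdeg : ∀ s t : Fin n, ¬ G.Adj s t → G.degree s ≤ G.degree t := by
    intro s t hst
    by_cases h : s = t
    · rw [h]
    · have h1 := hmax' _ (ext_replace G hG s t h hst)
      have h2 := G.card_edgeFinset_replaceVertex_of_not_adj hst
      rw [ec_eq, ec_eq] at h2
      have h3 : G.degree t ≤ Nat.card G.edgeSet := by
        rw [← ec_eq]
        exact G.degree_le_card_edgeFinset t
      omega
  refine ⟨G, hG, ⟨?_⟩⟩
  intro t s u hts hsu h
  have hst : ¬ G.Adj s t := fun a => hts a.symm
  have dst : G.degree s = G.degree t := le_antisymm (hdeg s t hst) (hdeg t s hts)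
  have dsu : G.degree s = G.degree u := le_antisymm (hdeg s u hsu) (hdeg u s (fun a => hsu a.symm))
  have nst : s ≠ t := fun a => hsu (a ▸ h)
  have nsu : s ≠ u := fun a => hst (a ▸ h.symm)
  have ntu : t ≠ u := G.ne_of_adj h
  have hnadj : ¬ (G.replaceVertex s t).Adj s u :=
    (G.adj_replaceVertex_iff_of_ne s nst ntu.symm).not.mpr hsu
  have e1 := ext_replace G hG s t nst hst
  have e2 := ext_replace _ e1 s u nsu hnadj
  have h1 := hmax' _ e2
  have h2 := (G.replaceVertex s t).card_edgeFinset_replaceVertex_of_not_adj hnadj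
  have h3 := G.card_edgeFinset_replaceVertex_of_not_adj hst
  rw [ec_eq, ec_eq] at h2 h3
  have l1 : (G.replaceVertex s t).degree s = G.degree s := by
    unfold degree; congr 1; ext v
    simp_rw [mem_neighborFinset]
    by_cases eq : v = t
    · simpa only [eq, not_adj_replaceVertex_same, false_iff]
    · rw [G.adj_replaceVertex_iff_of_ne s nst eq]
  have l2 : (G.replaceVertex s t).degree u = G.degree u - 1 := by
    rw [degree, degree, ← card_singleton t, ← card_sdiff_of_subset (by simp [h.symm])]
    congr 1; ext v
    simp_rw [mem_neighborFinset, mem_sdiff, mem_singleton, replaceVertex]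
    split_ifs <;> simp_all [adj_comm]
  have l3 : 0 < G.degree u := by rw [G.degree_pos_iff_exists_adj u]; use t, h.symm
  have l4 : G.degree u ≤ Nat.card G.edgeSet := by
    rw [← ec_eq]
    exact G.degree_le_card_edgeFinset u
  omega

end

end Pool.Agent.Lib6a4ab5
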